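import Pool.Agent.Helper78.K.Defs
/-! MODULE K.Pairs: symmetry in the reflecting pairs.  `f` is a linear functional with `f ∘ E_i = f` on `Sup (W n)`.

`E_i E_{i+2} R_{i+1}(-w) R_i(-v) R_{i+2}(v) R_{i+1}(w) = s(v) s(-v) s(w) s(-w) E_i E_{i+2}`:
`E_i E_{i+2} R_{i+1}(-w) = s(w) E_i E_{i+2} - sin w E_i E_{i+2} E_{i+1}`;
`E_i E_{i+2} R_i(-v) R_{i+2}(v) = s(v) s(-v) E_i E_{i+2}`,
`E_i E_{i+2} E_{i+1} R_i(-v) R_{i+2}(v) = s(v) s(-v) E_i E_{i+2} E_{i+1}` (use `E_i E_{i+2} E_{i+1} E_i = E_i E_{i+2}` etc. and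
`s(v) - s(-v) = sin v`); then unitarity. -/
namespace IPK
open IP Finset

theorem pairs_A (i : ℕ) (v : ℝ) (z : M) :
    E i (E (i + 2) (Rt i (-v) (Rt (i + 2) v z))) = (s v * s (-v)) • E i (E (i + 2) z) := by
  have hs : Real.sin v = s v - s (-v) := (s_zero_sub v).symm
  have h1 : ∀ a : M, E i (E (i + 2) (E i a)) = E i (E (i + 2) a) := fun a => by
    rw [← E_comm (le_refl (i + 2)), E_E]
  simp only [Rt_apply, map_add, map_smul, neg_neg, Real.sin_neg, h1, E_E, hs]
  module

theorem pairs_B (i : ℕ) (v : ℝ) (z : M) :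
    E i (E (i + 2) (E (i + 1) (Rt i (-v) (Rt (i + 2) v z)))) = (s v * s (-v)) • E i (E (i + 2) (E (i + 1) z)) := by
  have hs : Real.sin v = s v - s (-v) := (s_zero_sub v).symm
  have h1 : ∀ a : M, E i (E (i + 2) (E (i + 1) (E i a))) = E i (E (i + 2) a) := fun a => by
    rw [E_comm (le_refl (i + 2)), E_braid, ← E_comm (le_refl (i + 2))]
  have h2 : ∀ a : M, E i (E (i + 2) (E (i + 1) (E (i + 2) a))) = E i (E (i + 2) a) := fun a => by
    rw [E_braid' (i + 1)]
  simp only [Rt_apply, map_add, map_smul, neg_neg, Real.sin_neg, h1, h2, E_E, hs]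
  module

theorem four (i : ℕ) (v w : ℝ) (z : M) :
    E i (E (i + 2) (Rt (i + 1) (-w) (Rt i (-v) (Rt (i + 2) v (Rt (i + 1) w z))))) =
      (s v * s (-v) * (s w * s (-w))) • E i (E (i + 2) z) := by
  have h : ∀ y : M, E i (E (i + 2) (Rt (i + 1) (-w) y)) =
      s w • E i (E (i + 2) y) + (-Real.sin w) • E i (E (i + 2) (E (i + 1) y)) := fun y => by
    simp only [Rt_apply, map_add, map_smul, neg_neg, Real.sin_neg]
  rw [h, pairs_A, pairs_B]
  have h2 := h (Rt (i + 1) w z)
  have h3 := unitarity (i + 1) (-w) z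
  rw [neg_neg] at h3
  rw [h3, map_smul, map_smul] at h2
  have h4 : (s v * s (-v) * (s w * s (-w))) • E i (E (i + 2) z) =
      (s v * s (-v)) • ((s (-w) * s w) • E i (E (i + 2) z)) := by
    rw [smul_smul]; congr 1; ring
  rw [h4, h2]
  module

/-- exchange inside a pair -/
theorem f_sw {n i : ℕ} (hi : i + 1 ≤ 2 * n) {f : M →ₗ[ℝ] ℝ} (hf : ∀ v ∈ Sup (W n), f (E i v) = f v) (b : ℕ → ℝ)
    (hs : s (b i - b (i + 1)) ≠ 0) : f (V n (sw i b)) = f (V n b) := by
  have h := congrArg f (V_sw hi b)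
  rw [map_smul, Rt_apply, map_add, map_smul, map_smul, hf _ (V_Sup n b), smul_eq_mul,
    smul_eq_mul, smul_eq_mul, ← add_mul] at h
  have h2 := s_zero_sub (b i - b (i + 1))
  have h3 : s (-(b i - b (i + 1))) + Real.sin (b i - b (i + 1)) = s (b i - b (i + 1)) := by
    rw [← h2]; ring
  rw [h3] at h
  exact mul_left_cancel₀ hs h

theorem pairs_perm (i j : ℕ) : Equiv.swap (i + 1) (i + 2) (Equiv.swap i (i + 1) (Equiv.swap (i + 2) (i + 3)
    (Equiv.swap (i + 1) (i + 2) j))) = (Equiv.swap i (i + 2) * Equiv.swap (i + 1) (i + 3)) j := by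
  have sn : ∀ a b x : ℕ, x ≠ a → x ≠ b → Equiv.swap a b x = x := fun a b x h1 h2 =>
    Equiv.swap_apply_of_ne_of_ne h1 h2
  rw [Equiv.Perm.mul_apply]
  by_cases h0 : j = i
  · subst h0
    rw [sn (j + 1) (j + 2) j (by omega) (by omega), sn (j + 2) (j + 3) j (by omega) (by omega),
      Equiv.swap_apply_left j (j + 1), Equiv.swap_apply_left (j + 1) (j + 2), sn (j + 1) (j + 3) j (by omega) (by omega),
      Equiv.swap_apply_left j (j + 2)]
  · by_cases h1 : j = i + 1
    · subst h1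
      rw [Equiv.swap_apply_left (i + 1) (i + 2), Equiv.swap_apply_left (i + 2) (i + 3),
        sn i (i + 1) (i + 3) (by omega) (by omega), sn (i + 1) (i + 2) (i + 3) (by omega) (by omega),
        Equiv.swap_apply_left (i + 1) (i + 3), sn i (i + 2) (i + 3) (by omega) (by omega)]
    · by_cases h2 : j = i + 2
      · subst h2
        rw [Equiv.swap_apply_right (i + 1) (i + 2), sn (i + 2) (i + 3) (i + 1) (by omega) (by omega),
          Equiv.swap_apply_right i (i + 1), sn (i + 1) (i + 2) i (by omega) (by omega),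
          sn (i + 1) (i + 3) (i + 2) (by omega) (by omega), Equiv.swap_apply_right i (i + 2)]
      · by_cases h3 : j = i + 3
        · subst h3
          rw [sn (i + 1) (i + 2) (i + 3) (by omega) (by omega), Equiv.swap_apply_right (i + 2) (i + 3),
            sn i (i + 1) (i + 2) (by omega) (by omega), Equiv.swap_apply_right (i + 1) (i + 2),
            Equiv.swap_apply_right (i + 1) (i + 3), sn i (i + 2) (i + 1) (by omega) (by omega)]
        · rw [sn (i + 1) (i + 2) j (by omega) (by omega), sn (i + 2) (i + 3) j (by omega) (by omega),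
            sn i (i + 1) j (by omega) (by omega), sn (i + 1) (i + 2) j (by omega) (by omega),
            sn (i + 1) (i + 3) j (by omega) (by omega), sn i (i + 2) j (by omega) (by omega)]

/-- exchange of two neighbouring pairs -/
theorem f_pair {n i : ℕ} (hi : i + 3 ≤ 2 * n) {f : M →ₗ[ℝ] ℝ} (hf : ∀ v ∈ Sup (W n), f (E i v) = f v)
    (hf2 : ∀ v ∈ Sup (W n), f (E (i + 2) v) = f v) (b : ℕ → ℝ) (h1 : b i = -b (i + 1)) (h2 : b (i + 2) = -b (i + 3))
    (hs : s (b (i + 1) - b (i + 3)) * s (b (i + 3) - b (i + 1)) * s (b (i + 1) + b (i + 3)) *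
      s (-(b (i + 1) + b (i + 3))) ≠ 0) :
    f (V n (fun j => b ((Equiv.swap i (i + 2) * Equiv.swap (i + 1) (i + 3)) j))) = f (V n b) := by
  have e0 : (sw (i + 1) (sw (i + 2) (sw i (sw (i + 1) b)))) =
      fun j => b ((Equiv.swap i (i + 2) * Equiv.swap (i + 1) (i + 3)) j) := by
    funext j
    exact congrArg b (pairs_perm i j)
  rw [← e0]
  set x := b (i + 1) with hx
  set y := b (i + 3) with hy
  have v1 := V_sw (n := n) (i := i + 1) (by omega) b
  have v2 := V_sw (n := n) (i := i) (by omega) (sw (i + 1) b)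
  have v3 := V_sw (n := n) (i := i + 2) (by omega) (sw i (sw (i + 1) b))
  have v4 := V_sw (n := n) (i := i + 1) (by omega) (sw (i + 2) (sw i (sw (i + 1) b)))
  have a1 : b (i + 1) - b (i + 1 + 1) = x + y := by
    rw [show i + 1 + 1 = i + 2 by omega, h2]; ring
  have a2 : sw (i + 1) b i - sw (i + 1) b (i + 1) = -(x - y) := by
    show b (Equiv.swap (i + 1) (i + 1 + 1) i) - b (Equiv.swap (i + 1) (i + 1 + 1) (i + 1)) = _
    rw [Equiv.swap_apply_of_ne_of_ne (by omega) (by omega), Equiv.swap_apply_left,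
      show i + 1 + 1 = i + 2 by omega, h1, h2]; ring
  have a3 : sw i (sw (i + 1) b) (i + 2) - sw i (sw (i + 1) b) (i + 2 + 1) = x - y := by
    show b (Equiv.swap (i + 1) (i + 1 + 1) (Equiv.swap i (i + 1) (i + 2))) -
      b (Equiv.swap (i + 1) (i + 1 + 1) (Equiv.swap i (i + 1) (i + 2 + 1))) = _
    rw [Equiv.swap_apply_of_ne_of_ne (x := i + 2) (by omega) (by omega),
      Equiv.swap_apply_of_ne_of_ne (x := i + 2 + 1) (a := i) (by omega) (by omega),
      show i + 1 + 1 = i + 2 by omega, Equiv.swap_apply_right,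
      Equiv.swap_apply_of_ne_of_ne (by omega) (by omega)]
  have a4 : sw (i + 2) (sw i (sw (i + 1) b)) (i + 1) - sw (i + 2) (sw i (sw (i + 1) b)) (i + 1 + 1) = -(x + y) := by
    show b (Equiv.swap (i + 1) (i + 1 + 1) (Equiv.swap i (i + 1) (Equiv.swap (i + 2) (i + 2 + 1) (i + 1)))) -
      b (Equiv.swap (i + 1) (i + 1 + 1) (Equiv.swap i (i + 1) (Equiv.swap (i + 2) (i + 2 + 1) (i + 1 + 1)))) = _
    rw [Equiv.swap_apply_of_ne_of_ne (x := i + 1) (a := i + 2) (by omega) (by omega), Equiv.swap_apply_right,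
      show i + 1 + 1 = i + 2 by omega,
      Equiv.swap_apply_left, Equiv.swap_apply_of_ne_of_ne (x := i) (by omega) (by omega),
      Equiv.swap_apply_of_ne_of_ne (x := i + 2 + 1) (a := i) (by omega) (by omega),
      Equiv.swap_apply_of_ne_of_ne (x := i + 2 + 1) (by omega) (by omega), h1]
    have hy' : b (i + 2 + 1) = y := rfl
    rw [hy']
    ring
  rw [a1] at v1
  rw [a2] at v2
  rw [a3] at v3
  rw [a4] at v4
  set V0 := V n b
  set V1 := V n (sw (i + 1) b)
  set V2 := V n (sw i (sw (i + 1) b))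
  set V3 := V n (sw (i + 2) (sw i (sw (i + 1) b)))
  set V4 := V n (sw (i + 1) (sw (i + 2) (sw i (sw (i + 1) b)))) with hV4
  have key : (s (x + y) * s (-(x - y)) * s (x - y) * s (-(x + y))) • V4 =
      Rt (i + 1) (-(x + y)) (Rt i (-(x - y)) (Rt (i + 2) (x - y) (Rt (i + 1) (x + y) V0))) := by
    rw [← v1, map_smul, map_smul, map_smul, Rt_comm (le_refl (i + 2)), ← v2, map_smul, map_smul, ← v3, map_smul,
      ← v4, smul_smul, smul_smul, smul_smul]
  have hS : ∀ v ∈ Sup (W n), ∀ j u, j ≤ i + 2 → Rt j u v ∈ Sup (W n) := fun v hv j u hj =>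
    Rt_Sup (Or.inl (by omega)) u hv
  have key2 : f (Rt (i + 1) (-(x + y)) (Rt i (-(x - y)) (Rt (i + 2) (x - y) (Rt (i + 1) (x + y) V0)))) =
      (s (x - y) * s (-(x - y)) * (s (x + y) * s (-(x + y)))) * f V0 := by
    have m1 : Rt (i + 1) (-(x + y)) (Rt i (-(x - y)) (Rt (i + 2) (x - y) (Rt (i + 1) (x + y) V0))) ∈ Sup (W n) :=
      hS _ (hS _ (hS _ (hS _ (V_Sup n b) _ _ (by omega)) _ _ (by omega)) _ _ (by omega)) _ _ (by omega)
    rw [← hf2 _ m1, ← hf _ (E_Sup (Or.inl (by omega)) m1), four, map_smul, smul_eq_mul,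
      hf _ (E_Sup (Or.inl (by omega)) (V_Sup n b)), hf2 _ (V_Sup n b)]
  rw [← key, map_smul, smul_eq_mul] at key2
  have h5 : s (x + y) * s (-(x - y)) * s (x - y) * s (-(x + y)) ≠ 0 := by
    intro h
    apply hs
    rw [show y - x = -(x - y) by ring]
    linear_combination h
  apply mul_left_cancel₀ h5
  rw [key2]
  ring

theorem pairs_s_pos {x : ℝ} (hx : |x| < Real.pi / 6) : 0 < s x := by
  apply s_pos_of_abs
  have := Real.pi_pos
  linarith

theorem pb_left {l m : ℕ} (x c : ℕ → ℝ) {j : ℕ} (h : j < l) : pb l m x c j = c j := by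
  unfold pb; rw [if_pos h]
theorem pb_pair0 {l m : ℕ} (x c : ℕ → ℝ) {k : ℕ} (h : k < m) : pb l m x c (l + 2 * k) = -x k := by
  unfold pb
  rw [if_neg (by omega), if_pos (by omega), if_pos (by omega)]
  congr 2; omega
theorem pb_pair1 {l m : ℕ} (x c : ℕ → ℝ) {k : ℕ} (h : k < m) : pb l m x c (l + 2 * k + 1) = x k := by
  unfold pb
  rw [if_neg (by omega), if_pos (by omega), if_neg (by omega)]
  congr 1; omega
theorem pb_right {l m : ℕ} (x c : ℕ → ℝ) {j : ℕ} (h : l + 2 * m ≤ j) : pb l m x c j = c (j - 2 * m) := by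
  unfold pb
  rw [if_neg (by omega), if_neg (by omega)]

/-- case distinction for `pb` -/
theorem pb_cases (l m j : ℕ) : j < l ∨ (∃ k < m, j = l + 2 * k) ∨ (∃ k < m, j = l + 2 * k + 1) ∨ l + 2 * m ≤ j := by
  by_cases h1 : j < l
  · exact Or.inl h1
  · by_cases h2 : l + 2 * m ≤ j
    · exact Or.inr (Or.inr (Or.inr h2))
    · by_cases h3 : (j - l) % 2 = 0
      · exact Or.inr (Or.inl ⟨(j - l) / 2, by omega, by omega⟩)
      · exact Or.inr (Or.inr (Or.inl ⟨(j - l) / 2, by omega, by omega⟩))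

theorem pb_adj {n l m : ℕ} (hl : l + 2 * m ≤ 2 * n + 1) {f : M →ₗ[ℝ] ℝ}
    (hf : ∀ k < m, ∀ v ∈ Sup (W n), f (E (l + 2 * k) v) = f v) {x : ℕ → ℝ} (hx : ∀ k < m, |x k| < Real.pi / 12)
    (c : ℕ → ℝ) (k : ℕ) (hk : k + 1 < m) :
    f (V n (pb l m (fun j => x (Equiv.swap k (k + 1) j)) c)) = f (V n (pb l m x c)) := by
  have e : pb l m (fun j => x (Equiv.swap k (k + 1) j)) c = fun j => pb l m x c
      ((Equiv.swap (l + 2 * k) (l + 2 * k + 2) * Equiv.swap (l + 2 * k + 1) (l + 2 * k + 3)) j) := by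
    funext j
    rw [Equiv.Perm.mul_apply]
    rcases pb_cases l m j with h | ⟨k', hk', rfl⟩ | ⟨k', hk', rfl⟩ | h
    · rw [Equiv.swap_apply_of_ne_of_ne (a := l + 2 * k + 1) (by omega) (by omega),
        Equiv.swap_apply_of_ne_of_ne (by omega) (by omega), pb_left _ _ h, pb_left _ _ h]
    · rw [Equiv.swap_apply_of_ne_of_ne (a := l + 2 * k + 1) (by omega) (by omega), pb_pair0 _ _ hk']
      by_cases h1 : k' = k
      · subst h1
        rw [Equiv.swap_apply_left, Equiv.swap_apply_left, show l + 2 * k' + 2 = l + 2 * (k' + 1) by ring,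
          pb_pair0 _ _ hk]
      · by_cases h2 : k' = k + 1
        · subst h2
          rw [show l + 2 * (k + 1) = l + 2 * k + 2 by ring, Equiv.swap_apply_right, Equiv.swap_apply_right,
            pb_pair0 _ _ (by omega)]
        · rw [Equiv.swap_apply_of_ne_of_ne h1 h2, Equiv.swap_apply_of_ne_of_ne (by omega) (by omega),
            pb_pair0 _ _ hk']
    · rw [pb_pair1 _ _ hk']
      by_cases h1 : k' = k
      · subst h1
        rw [Equiv.swap_apply_left, Equiv.swap_apply_left, Equiv.swap_apply_of_ne_of_ne (by omega) (by omega),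
          show l + 2 * k' + 3 = l + 2 * (k' + 1) + 1 by ring, pb_pair1 _ _ hk]
      · by_cases h2 : k' = k + 1
        · subst h2
          rw [show l + 2 * (k + 1) + 1 = l + 2 * k + 3 by ring, Equiv.swap_apply_right, Equiv.swap_apply_right,
            Equiv.swap_apply_of_ne_of_ne (by omega) (by omega), pb_pair1 _ _ (by omega)]
        · rw [Equiv.swap_apply_of_ne_of_ne h1 h2,
            Equiv.swap_apply_of_ne_of_ne (a := l + 2 * k + 1) (b := l + 2 * k + 3) (by omega) (by omega),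
            Equiv.swap_apply_of_ne_of_ne (by omega) (by omega), pb_pair1 _ _ hk']
    · rw [Equiv.swap_apply_of_ne_of_ne (a := l + 2 * k + 1) (by omega) (by omega),
        Equiv.swap_apply_of_ne_of_ne (by omega) (by omega), pb_right _ _ h, pb_right _ _ h]
  rw [e]
  have b0 : pb l m x c (l + 2 * k) = -x k := pb_pair0 _ _ (by omega)
  have b1 : pb l m x c (l + 2 * k + 1) = x k := pb_pair1 _ _ (by omega)
  have b2 : pb l m x c (l + 2 * k + 2) = -x (k + 1) := by
    rw [show l + 2 * k + 2 = l + 2 * (k + 1) by ring]; exact pb_pair0 _ _ (by omega)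
  have b3 : pb l m x c (l + 2 * k + 3) = x (k + 1) := by
    rw [show l + 2 * k + 3 = l + 2 * (k + 1) + 1 by ring]; exact pb_pair1 _ _ (by omega)
  have hx1 := abs_lt.1 (hx k (by omega))
  have hx2 := abs_lt.1 (hx (k + 1) hk)
  apply f_pair (by omega) (hf k (by omega)) _ _ (by rw [b0, b1]) (by rw [b2, b3])
  · rw [b1, b3]
    apply ne_of_gt
    refine mul_pos (mul_pos (mul_pos ?_ ?_) ?_) ?_
    · exact pairs_s_pos (abs_lt.2 ⟨by linarith [hx1.1, hx2.2], by linarith [hx1.2, hx2.1]⟩)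
    · exact pairs_s_pos (abs_lt.2 ⟨by linarith [hx1.2, hx2.1], by linarith [hx1.1, hx2.2]⟩)
    · exact pairs_s_pos (abs_lt.2 ⟨by linarith [hx1.1, hx2.1], by linarith [hx1.2, hx2.2]⟩)
    · exact pairs_s_pos (abs_lt.2 ⟨by linarith [hx1.2, hx2.2], by linarith [hx1.1, hx2.1]⟩)
  · have := hf (k + 1) hk
    rwa [show l + 2 * (k + 1) = l + 2 * k + 2 by ring] at this

theorem pairs_perm_up {n l m : ℕ} (hl : l + 2 * m ≤ 2 * n + 1) {f : M →ₗ[ℝ] ℝ}
    (hf : ∀ k < m, ∀ v ∈ Sup (W n), f (E (l + 2 * k) v) = f v) (c : ℕ → ℝ) (k : ℕ) (d : ℕ) :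
    ∀ {x : ℕ → ℝ}, (∀ k < m, |x k| < Real.pi / 12) → k + d < m →
    f (V n (pb l m (fun j => x (Equiv.swap k (k + d) j)) c)) = f (V n (pb l m x c)) := by
  induction d with
  | zero =>
    intro x _ _
    simp
  | succ d ih =>
    intro x hx hd
    by_cases hd0 : d = 0
    · subst hd0
      exact pb_adj hl hf hx c k hd
    · have hsw : ∀ j, Equiv.swap k (k + (d + 1)) j =
          Equiv.swap (k + d) (k + d + 1) (Equiv.swap k (k + d) (Equiv.swap (k + d) (k + d + 1) j)) := by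
        intro j
        have h := Equiv.swap_mul_swap_mul_swap (x := k) (y := k + d) (z := k + d + 1) (by omega) (by omega)
        rw [Equiv.swap_comm (k + d + 1) k] at h
        rw [show k + (d + 1) = k + d + 1 by ring, ← h]
        rfl
      have hsm : ∀ (a b : ℕ), a < m → b < m → ∀ j < m, Equiv.swap a b j < m := by
        intro a b ha hb j hj
        rw [Equiv.swap_apply_def]
        split_ifs <;> assumption
      have e1 : (fun j => x (Equiv.swap k (k + (d + 1)) j)) =
          fun j => (fun j' => x (Equiv.swap (k + d) (k + d + 1) (Equiv.swap k (k + d) j')))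
            (Equiv.swap (k + d) (k + d + 1) j) := by
        funext j
        rw [hsw]
      rw [e1, pb_adj hl hf (fun j hj => hx _ (hsm _ _ (by omega) (by omega) _ (hsm _ _ (by omega) (by omega) j hj)))
        c (k + d) (by omega)]
      have := ih (x := fun j => x (Equiv.swap (k + d) (k + d + 1) j))
        (fun j hj => hx _ (hsm _ _ (by omega) (by omega) j hj)) (by omega)
      rw [this]
      exact pb_adj hl hf hx c (k + d) (by omega)

/-- symmetry in the pairs, `x k` small (any sign) -/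
theorem pb_perm {n l m : ℕ} (hl : l + 2 * m ≤ 2 * n + 1) {f : M →ₗ[ℝ] ℝ}
    (hf : ∀ k < m, ∀ v ∈ Sup (W n), f (E (l + 2 * k) v) = f v) {x : ℕ → ℝ} (hx : ∀ k < m, |x k| < Real.pi / 12)
    (c : ℕ → ℝ) (k k' : ℕ) (hk : k < m) (hk' : k' < m) :
    f (V n (pb l m (fun j => x (Equiv.swap k k' j)) c)) = f (V n (pb l m x c)) := by
  rcases le_total k k' with h | h
  · obtain ⟨d, rfl⟩ := Nat.exists_eq_add_of_le h
    exact pairs_perm_up hl hf c k d hx hk'
  · obtain ⟨d, rfl⟩ := Nat.exists_eq_add_of_le h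
    rw [Equiv.swap_comm]
    exact pairs_perm_up hl hf c k' d hx hk

/-- evenness in `x k` -/
theorem pb_neg {n l m : ℕ} (hl : l + 2 * m ≤ 2 * n + 1) {f : M →ₗ[ℝ] ℝ}
    (hf : ∀ k < m, ∀ v ∈ Sup (W n), f (E (l + 2 * k) v) = f v) {x : ℕ → ℝ} (hx : ∀ k < m, |x k| < Real.pi / 12)
    (c : ℕ → ℝ) (k : ℕ) (hk : k < m) :
    f (V n (pb l m (Function.update x k (-x k)) c)) = f (V n (pb l m x c)) := by
  have e : pb l m (Function.update x k (-x k)) c = sw (l + 2 * k) (pb l m x c) := by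
    funext j
    show _ = pb l m x c (Equiv.swap (l + 2 * k) (l + 2 * k + 1) j)
    rcases pb_cases l m j with h | ⟨k', hk', rfl⟩ | ⟨k', hk', rfl⟩ | h
    · rw [Equiv.swap_apply_of_ne_of_ne (by omega) (by omega), pb_left _ _ h, pb_left _ _ h]
    · rw [pb_pair0 _ _ hk']
      by_cases h1 : k' = k
      · subst h1
        rw [Equiv.swap_apply_left, Function.update_self, pb_pair1 _ _ hk', neg_neg]
      · rw [Function.update_of_ne h1, Equiv.swap_apply_of_ne_of_ne (by omega) (by omega), pb_pair0 _ _ hk']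
    · rw [pb_pair1 _ _ hk']
      by_cases h1 : k' = k
      · subst h1
        rw [Equiv.swap_apply_right, Function.update_self, pb_pair0 _ _ hk']
      · rw [Function.update_of_ne h1, Equiv.swap_apply_of_ne_of_ne (by omega) (by omega), pb_pair1 _ _ hk']
    · rw [Equiv.swap_apply_of_ne_of_ne (by omega) (by omega), pb_right _ _ h, pb_right _ _ h]
  rw [e]
  have hx1 := abs_lt.1 (hx k hk)
  apply f_sw (by omega) (hf k hk)
  rw [pb_pair0 _ _ hk, pb_pair1 _ _ hk]
  exact ne_of_gt (pairs_s_pos (abs_lt.2 ⟨by linarith [hx1.1, hx1.2], by linarith [hx1.1, hx1.2]⟩))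
end IPK
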