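import Pool.Agent.Helper78.K.Gd1
/-! MODULE K.Node: trigonometric polynomials of the form `Q(2 cos 2y)`, nodes, comparison. -/
namespace IPK
open IP Finset

theorem node_XX : TP 2 (fun y => XX y) := by
  have h := (TP.cos_mul 2).smul 2
  refine h.tb_congr (fun y => ?_)
  unfold XX
  norm_num

theorem node_XX_pow (k : ℕ) : TP (2 * k) (fun y => XX y ^ k) := by
  induction k with
  | zero => simpa using TP.const 1
  | succ k ih =>
    have h := ih.mul node_XX
    rw [show 2 * (k + 1) = 2 * k + 2 by ring]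
    exact h.tb_congr (fun y => by ring)

theorem tp_of_poly {m : ℕ} {Q : Polynomial ℝ} (hQ : Q.natDegree ≤ m) : TP (2 * m) (fun y => Q.eval (XX y)) := by
  have h : ∀ i ∈ range (m + 1), TP (2 * m) (fun y => Q.coeff i * XX y ^ i) := by
    intro i hi
    have hi' : i ≤ m := Nat.lt_succ_iff.1 (mem_range.1 hi)
    have h1 := ((node_XX_pow i).smul (Q.coeff i)).mono (m - i)
    rwa [show 2 * i + 2 * (m - i) = 2 * m by omega] at h1
  refine (TP.sum (range (m + 1)) h).tb_congr (fun y => ?_)
  rw [Polynomial.eval_eq_sum_range' (Nat.lt_succ_iff.2 hQ)]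

theorem node_sin_ne {x : ℝ} (h0 : x ≠ 0) (h1 : -Real.pi < x) (h2 : x < Real.pi) : Real.sin x ≠ 0 :=
  tb_sin_ne_zero_aux h0 h1 h2

/-- an even trigonometric polynomial of degree `2m` is a polynomial of degree `≤ m` in `2 cos 2y` -/
theorem poly_of_tp {m : ℕ} {F : ℝ → ℝ} (hF : TP (2 * m) F) (he : ∀ y, F (-y) = F y) :
    ∃ Q : Polynomial ℝ, Q.natDegree ≤ m ∧ ∀ y, F y = Q.eval (XX y) := by
  classical
  have hpi := Real.pi_gt_three
  have nd1 : ∀ k, 0 < tb_nd k := tb_nd_pos
  have nd2 : ∀ k, tb_nd k ≤ 1 := tb_nd_le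
  have hinj : Set.InjOn (fun k : ℕ => XX (tb_nd k)) (range (m + 1) : Finset ℕ) := by
    intro j _ k _ h
    have h' : Real.cos (2 * tb_nd j) = Real.cos (2 * tb_nd k) := by
      have h1 : 2 * Real.cos (2 * tb_nd j) = 2 * Real.cos (2 * tb_nd k) := h
      linarith
    have h2 := Real.injOn_cos ⟨by linarith [nd1 j], by linarith [nd2 j]⟩ ⟨by linarith [nd1 k], by linarith [nd2 k]⟩ h'
    exact tb_nd_inj (by linarith)
  set Q := Lagrange.interpolate (range (m + 1)) (fun k : ℕ => XX (tb_nd k)) (fun k => F (tb_nd k)) with hQ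
  have hdeg : Q.natDegree ≤ m := by
    have h := Lagrange.degree_interpolate_lt (r := fun k => F (tb_nd k)) hinj
    rw [card_range] at h
    by_cases h0 : Q = 0
    · rw [h0]; simp
    · exact Nat.lt_succ_iff.1 ((Polynomial.natDegree_lt_iff_degree_lt h0).2 h)
  refine ⟨Q, hdeg, ?_⟩
  have hH := hF.sub (tp_of_poly hdeg)
  have hXe : ∀ y, XX (-y) = XX y := fun y => by
    unfold XX; rw [show 2 * -y = -(2 * y) by ring, Real.cos_neg]
  have hz : ∀ k ∈ range (m + 1), F (tb_nd k) - Q.eval (XX (tb_nd k)) = 0 := by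
    intro k hk
    have h := Lagrange.eval_interpolate_at_node (r := fun k => F (tb_nd k)) hinj hk
    rw [sub_eq_zero]
    exact h.symm
  let T : Finset ℝ := (range (m + 1)).image tb_nd ∪ (range (m + 1)).image (fun k => -tb_nd k)
  have hT : ∀ y ∈ T, ∃ k ∈ range (m + 1), y = tb_nd k ∨ y = -tb_nd k := by
    intro y hy
    rcases Finset.mem_union.1 hy with h | h
    · obtain ⟨k, hk, rfl⟩ := Finset.mem_image.1 h
      exact ⟨k, hk, Or.inl rfl⟩
    · obtain ⟨k, hk, rfl⟩ := Finset.mem_image.1 h
      exact ⟨k, hk, Or.inr rfl⟩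
  have hb : ∀ y ∈ T, -1 ≤ y ∧ y ≤ 1 := by
    intro y hy
    obtain ⟨k, _, h | h⟩ := hT y hy
    · rw [h]; exact ⟨by linarith [nd1 k], nd2 k⟩
    · rw [h]; exact ⟨by linarith [nd2 k], by linarith [nd1 k]⟩
  have hc : 2 * m < T.card := by
    have h1 : T.card = (m + 1) + (m + 1) := by
      rw [Finset.card_union_of_disjoint, Finset.card_image_of_injective, Finset.card_image_of_injective, card_range]
      · intro j k h
        exact tb_nd_inj (neg_injective h)
      · intro j k h
        exact tb_nd_inj h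
      · rw [Finset.disjoint_left]
        intro y h1 h2
        obtain ⟨j, _, rfl⟩ := Finset.mem_image.1 h1
        obtain ⟨k, _, h⟩ := Finset.mem_image.1 h2
        linarith [nd1 j, nd1 k]
    omega
  have h := hH.eq_zero T hc (fun y hy z hz hne => node_sin_ne (sub_ne_zero.2 hne)
    (by linarith [(hb y hy).1, (hb z hz).2]) (by linarith [(hb y hy).2, (hb z hz).1])) (by
      intro y hy
      obtain ⟨k, hk, h | h⟩ := hT y hy
      · rw [h]; exact hz k hk
      · rw [h]
        show F (-tb_nd k) - Q.eval (XX (-tb_nd k)) = 0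
        rw [he, hXe]; exact hz k hk)
  intro y
  exact sub_eq_zero.1 (h y)

theorem tp_s_sub (c : ℝ) : TP 1 (fun y => s (y - c)) := by
  refine (TP.s_add (-c)).tb_congr (fun y => ?_)
  rw [sub_eq_add_neg]
theorem tp_s_sub' (c : ℝ) : TP 1 (fun y => s (c - y)) := TP.s_sub c
theorem tp_s_add (c : ℝ) : TP 1 (fun y => s (y + c)) := TP.s_add c
theorem tp_s_neg_sub (c : ℝ) : TP 1 (fun y => s (-y - c)) := by
  refine (TP.s_sub (-c)).tb_congr (fun y => ?_)
  congr 1; ring

/-- two trigonometric polynomials that agree at the `4 m` nodes `± x k ± π/3` and at the further nodes of `t`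
(all different modulo `π`) are equal -/
theorem node_eq {m M : ℕ} {F G : ℝ → ℝ} (hF : TP M F) (hG : TP M G) {x : ℕ → ℝ} (hx : Gp m x) (t : Finset ℝ)
    (ht : ∀ y ∈ t, ∀ z ∈ t, y ≠ z → Real.sin (y - z) ≠ 0)
    (htx : ∀ y ∈ t, ∀ k < m, Real.sin (y - (x k + Real.pi / 3)) ≠ 0 ∧ Real.sin (y - (-x k + Real.pi / 3)) ≠ 0 ∧
      Real.sin (y - (x k - Real.pi / 3)) ≠ 0 ∧ Real.sin (y - (-x k - Real.pi / 3)) ≠ 0)
    (hM : M < 4 * m + t.card)
    (h1 : ∀ k < m, F (x k + Real.pi / 3) = G (x k + Real.pi / 3) ∧ F (-x k + Real.pi / 3) = G (-x k + Real.pi / 3) ∧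
      F (x k - Real.pi / 3) = G (x k - Real.pi / 3) ∧ F (-x k - Real.pi / 3) = G (-x k - Real.pi / 3))
    (h2 : ∀ y ∈ t, F y = G y) : ∀ y, F y = G y := by
  classical
  have hpi := Real.pi_pos
  obtain ⟨hx1, hx2⟩ := hx
  let g : (Bool × Bool) × ℕ → ℝ := fun p =>
    (if p.1.1 then x p.2 else -x p.2) + (if p.1.2 then Real.pi / 3 else -(Real.pi / 3))
  let I : Finset ((Bool × Bool) × ℕ) := Finset.univ ×ˢ range m
  have hI : ∀ p ∈ I, p.2 < m := fun p hp => mem_range.1 (Finset.mem_product.1 hp).2
  have hg : ∀ p ∈ I, ∀ p' ∈ I, p ≠ p' → Real.sin (g p - g p') ≠ 0 := by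
    rintro ⟨⟨e1, e2⟩, k⟩ hp ⟨⟨e1', e2'⟩, k'⟩ hp' hne
    have hk : k < m := hI _ hp
    have hk' : k' < m := hI _ hp'
    obtain ⟨a1, a2⟩ := hx1 k hk
    obtain ⟨b1, b2⟩ := hx1 k' hk'
    by_cases h2 : e2 = e2'
    · subst h2
      have e : g ((e1, e2), k) - g ((e1', e2), k') = (if e1 then x k else -x k) - (if e1' then x k' else -x k') := by
        show (if e1 then x k else -x k) + _ - ((if e1' then x k' else -x k') + _) = _
        ring
      rw [e]
      have hd : (if e1 then x k else -x k) - (if e1' then x k' else -x k') ≠ 0 := by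
        intro h
        cases e1 <;> cases e1' <;> simp only [if_true, if_false, Bool.false_eq_true] at h
        · exact hne (by rw [hx2 k hk k' hk' (by linarith)])
        · linarith
        · linarith
        · exact hne (by rw [hx2 k hk k' hk' (by linarith)])
      refine node_sin_ne hd ?_ ?_ <;> cases e1 <;> cases e1' <;>
        simp only [if_true, if_false, Bool.false_eq_true] <;> linarith
    · have hy : |(if e1 then x k else -x k) - (if e1' then x k' else -x k')| < Real.pi / 6 := by
        rw [abs_lt]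
        constructor <;> cases e1 <;> cases e1' <;>
          simp only [if_true, if_false, Bool.false_eq_true] <;> linarith
      rw [abs_lt] at hy
      have e : g ((e1, e2), k) - g ((e1', e2'), k') = ((if e1 then x k else -x k) - (if e1' then x k' else -x k')) +
          ((if e2 then Real.pi / 3 else -(Real.pi / 3)) - (if e2' then Real.pi / 3 else -(Real.pi / 3))) := by
        show (if e1 then x k else -x k) + _ - ((if e1' then x k' else -x k') + _) = _
        ring
      rw [e]
      cases e2 <;> cases e2' <;> simp only [if_true, if_false, Bool.false_eq_true] at *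
      · exact (h2 trivial).elim
      · exact node_sin_ne (by linarith) (by linarith) (by linarith)
      · exact node_sin_ne (by linarith) (by linarith) (by linarith)
      · exact (h2 trivial).elim
  have hginj : Set.InjOn g I := by
    intro p hp p' hp' h
    by_contra hne
    exact hg p hp p' hp' hne (by rw [h, sub_self, Real.sin_zero])
  have hcard : (I.image g).card = 4 * m := by
    rw [Finset.card_image_of_injOn hginj, Finset.card_product, card_range]
    simp
  have hgx : ∀ p ∈ I, (g p = x p.2 + Real.pi / 3 ∨ g p = -x p.2 + Real.pi / 3 ∨ g p = x p.2 - Real.pi / 3 ∨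
      g p = -x p.2 - Real.pi / 3) := by
    rintro ⟨⟨e1, e2⟩, k⟩ _
    have hgv : g ((e1, e2), k) = (if e1 then x k else -x k) + (if e2 then Real.pi / 3 else -(Real.pi / 3)) := rfl
    rw [hgv]
    cases e1 <;> cases e2 <;> simp only [if_true, if_false, Bool.false_eq_true]
    · right; right; right; ring
    · right; left; trivial
    · right; right; left; ring
    · left; trivial
  have htg : ∀ y ∈ t, ∀ p ∈ I, Real.sin (y - g p) ≠ 0 := by
    intro y hy p hp
    obtain ⟨q1, q2, q3, q4⟩ := htx y hy p.2 (hI p hp)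
    rcases hgx p hp with h | h | h | h <;> rw [h] <;> assumption
  have hdis : Disjoint (I.image g) t := by
    rw [Finset.disjoint_left]
    intro y h3 h4
    obtain ⟨p, hp, rfl⟩ := Finset.mem_image.1 h3
    exact htg _ h4 p hp (by rw [sub_self, Real.sin_zero])
  have hH := (hF.sub hG).eq_zero (I.image g ∪ t) (by
      rw [Finset.card_union_of_disjoint hdis, hcard]; exact hM) (by
      intro y hy z hz hne
      rcases Finset.mem_union.1 hy with hy | hy <;> rcases Finset.mem_union.1 hz with hz | hz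
      · obtain ⟨p, hp, rfl⟩ := Finset.mem_image.1 hy
        obtain ⟨p', hp', rfl⟩ := Finset.mem_image.1 hz
        exact hg p hp p' hp' (fun h => hne (by rw [h]))
      · obtain ⟨p, hp, rfl⟩ := Finset.mem_image.1 hy
        have := htg z hz p hp
        rw [← neg_sub, Real.sin_neg]
        exact neg_ne_zero.2 this
      · obtain ⟨p, hp, rfl⟩ := Finset.mem_image.1 hz
        exact htg y hy p hp
      · exact ht y hy z hz hne) (by
      intro y hy
      show F y - G y = 0
      rcases Finset.mem_union.1 hy with hy | hy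
      · obtain ⟨p, hp, rfl⟩ := Finset.mem_image.1 hy
        obtain ⟨q1, q2, q3, q4⟩ := h1 p.2 (hI p hp)
        rcases hgx p hp with h | h | h | h <;> rw [h] <;> linarith
      · rw [h2 y hy, sub_self])
  intro y
  exact sub_eq_zero.1 (hH y)
end IPK
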