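import Pool.Agent.Lead.IP.Recur

/-!
PROJECT K (Cardy's constant from critical bond percolation on the square lattice), definitions.
Namespace `IPK`.  Framework: `Pool/Agent/Lead/IP` (states = partitions, `V n b` = polynomial stationary vector,
`L = 2n+1` strands).  Paper proof: team-store `MP_35f495_K.md`.
-/

namespace IPK
open IP Finset

noncomputable section

open Classical in
/-- sum of the entries at the states of `A` -/
def ind (A : Set St) : M →ₗ[ℝ] ℝ := Finsupp.lsum ℝ (fun σ => if σ ∈ A then LinearMap.id else 0)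

/-- site 0 is joined to the wall -/
def A3 (n : ℕ) : Set St := {σ | σ 0 n}
/-- site 0 is joined to the site `n-1` and not to the wall -/
def A5 (n : ℕ) : Set St := {σ | σ 0 (n - 1) ∧ ¬ σ 0 n}

/-- parameters `c 0, ..., c (l-1), -x 0, x 0, ..., -x (m-1), x (m-1), c l, c (l+1), ...` -/
def pb (l m : ℕ) (x c : ℕ → ℝ) : ℕ → ℝ := fun j =>
  if j < l then c j else
  if j < l + 2 * m then (if (j - l) % 2 = 0 then -x ((j - l) / 2) else x ((j - l) / 2))
  else c (j - 2 * m)

/-- `X = 2 cos 2x` -/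
def XX (x : ℝ) : ℝ := 2 * Real.cos (2 * x)
/-- the two partners `2 cos (2x ± 2π/3)` of `X` -/
def UU (p : Bool) (x : ℝ) : ℝ := 2 * Real.cos (2 * x + (if p then 1 else -1) * (2 * Real.pi / 3))
/-- `q(X,Y) = X² + XY + Y² - 3`, zero iff `Y` is a partner of `X` -/
def qq (x y : ℝ) : ℝ := x ^ 2 + x * y + y ^ 2 - 3
/-- `P(u) = ∏_{j<N} (t_j - u)` -/
def PU (N : ℕ) (t : ℕ → ℝ) (u : ℝ) : ℝ := ∏ j ∈ range N, (t j - u)
/-- matrix entry `(A(X) Y + B(X)) / q(X,Y)` -/
def Mx (N : ℕ) (t : ℕ → ℝ) (x y : ℝ) : ℝ :=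
  ((PU N t (UU false x) - PU N t (UU true x)) / (UU true x - UU false x) * XX y +
    (UU true x * PU N t (UU true x) - UU false x * PU N t (UU false x)) / (UU true x - UU false x)) /
  qq (XX x) (XX y)
/-- the closed formula -/
def Gd (N m : ℕ) (t x : ℕ → ℝ) : ℝ :=
  (∏ k ∈ range m, ∏ l ∈ range m, qq (XX (x k)) (XX (x l))) /
    (∏ k ∈ range m, ∏ l ∈ range k, (XX (x k) - XX (x l)) ^ 2) *
  Matrix.det (Matrix.of fun k l : Fin m => Mx N t (x k) (x l))

/-- generic parameters: small, positive, pairwise distinct -/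
def Gp (m : ℕ) (x : ℕ → ℝ) : Prop :=
  (∀ k < m, 0 < x k ∧ x k < Real.pi / 12) ∧ ∀ k < m, ∀ l < m, x k = x l → k = l

end
end IPK
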