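import Pool.Agent.Helper78.K.Defs
/-! MODULE K.Fun: the functionals `ind (A3 n)`, `ind (A5 n)`, `tot` and the generators. -/
namespace IPK
open IP Finset

theorem ind_single (A : Set St) (σ : St) (c : ℝ) [Decidable (σ ∈ A)] :
    ind A (Finsupp.single σ c) = if σ ∈ A then c else 0 := by
  classical
  unfold ind
  rw [Finsupp.lsum_single]
  by_cases h : σ ∈ A
  · simp [h]
  · simp [h]

theorem ind_univ (v : M) : ind Set.univ v = tot v := by
  classical
  induction v using Finsupp.induction_linear with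
  | zero => simp
  | add v w hv hw => rw [map_add, map_add, hv, hw]
  | single σ c => rw [ind_single, if_pos (Set.mem_univ _)]; simp [tot]

theorem fun_ind_eq (A : Set St) (v : M) [DecidablePred (· ∈ A)] :
    ind A v = v.sum fun σ x => if σ ∈ A then x else 0 := by
  classical
  unfold ind
  rw [Finsupp.lsum_apply]
  apply Finsupp.sum_congr
  intro σ _
  by_cases h : σ ∈ A
  · simp [h]
  · simp [h]

theorem ind_nonneg (A : Set St) {v : M} (hv : ∀ σ, 0 ≤ v σ) : 0 ≤ ind A v := by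
  classical
  rw [fun_ind_eq]
  apply Finset.sum_nonneg
  intro σ _
  dsimp only
  split_ifs
  · exact hv σ
  · exact le_rfl

/-- functionals on vectors supported in `B` -/
theorem ind_map {A A' B : Set St} {g : St → St} (h : ∀ σ ∈ B, g σ ∈ A ↔ σ ∈ A') {v : M} (hv : v ∈ Sup B) :
    ind A (Finsupp.lmapDomain ℝ ℝ g v) = ind A' v := by
  classical
  rw [Finsupp.lmapDomain_apply, fun_ind_eq A, fun_ind_eq A', Finsupp.sum_mapDomain_index]
  · apply Finsupp.sum_congr
    intro σ hσ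
    have : σ ∈ B := by
      have := (Finsupp.mem_supported ℝ v).1 hv
      exact this hσ
    by_cases h1 : σ ∈ A'
    · rw [if_pos ((h σ this).2 h1), if_pos h1]
    · rw [if_neg (fun h2 => h1 ((h σ this).1 h2)), if_neg h1]
  · intro σ
    simp
  · intro σ a b
    split_ifs
    · rfl
    · simp

theorem ind_map_zero {A B : Set St} {g : St → St} (h : ∀ σ ∈ B, g σ ∉ A) {v : M} (hv : v ∈ Sup B) :
    ind A (Finsupp.lmapDomain ℝ ℝ g v) = 0 := by
  classical
  rw [ind_map (A' := ∅) (fun σ hσ => ⟨fun h1 => absurd h1 (h σ hσ), fun h1 => absurd h1 (Set.notMem_empty _)⟩) hv,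
    fun_ind_eq]
  apply Finset.sum_eq_zero
  intro σ _
  simp

theorem fun_mem3 {n : ℕ} {σ : St} : σ ∈ A3 n ↔ σ 0 n := Iff.rfl
theorem fun_mem5 {n : ℕ} {σ : St} : σ ∈ A5 n ↔ σ 0 (n - 1) ∧ ¬ σ 0 n := Iff.rfl

theorem A3_E0 {n : ℕ} (hn : 1 ≤ n) {v : M} (hv : v ∈ Sup (W n)) : ind (A3 n) (E 0 v) = 0 := by
  apply ind_map_zero (B := W n) (g := act 0) _ hv
  intro σ _ h
  have h0 : act 0 σ = detach 0 σ := act_even 0 σ
  rw [h0, fun_mem3, detach_apply] at h
  omega

theorem A3_E {n k : ℕ} (h1 : 1 ≤ k) (hk : k < n) {v : M} (hv : v ∈ Sup (W n)) :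
    ind (A3 n) (E (2 * k) v) = ind (A3 n) v := by
  apply ind_map (B := W n) (g := act (2 * k)) _ hv
  intro σ _
  rw [act_even, fun_mem3, fun_mem3, detach_apply]
  constructor
  · rintro (h | ⟨_, _, h⟩)
    · omega
    · exact h
  · intro h
    exact Or.inr ⟨by omega, by omega, h⟩

theorem A3_In {n : ℕ} (hn : 1 ≤ n) {v : M} (hv : v ∈ Sup (W n)) : ind (A3 (n + 1)) (In 1 v) = ind (A3 n) v := by
  apply ind_map (B := W n) (g := ins 1) _ hv
  intro σ _
  rw [fun_mem3, fun_mem3]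
  have h0 : ins 1 σ = Setoid.comap (coll 0) σ := bb_ins_odd 0 σ
  rw [h0, comap_apply]
  have h1 : coll 0 0 = 0 := by unfold coll; simp
  have h2 : coll 0 (n + 1) = n := by
    unfold coll
    rw [if_neg (by omega)]
    omega
  rw [h1, h2]

theorem A5_E0 {n : ℕ} (hn : 2 ≤ n) {v : M} (hv : v ∈ Sup (W n)) : ind (A5 n) (E 0 v) = 0 := by
  apply ind_map_zero (B := W n) (g := act 0) _ hv
  intro σ _ h
  have h0 : act 0 σ = detach 0 σ := act_even 0 σ
  rw [h0, fun_mem5, detach_apply] at h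
  omega

theorem A5_E {n k : ℕ} (h1 : 1 ≤ k) (hk : k + 1 < n) {v : M} (hv : v ∈ Sup (W n)) :
    ind (A5 n) (E (2 * k) v) = ind (A5 n) v := by
  apply ind_map (B := W n) (g := act (2 * k)) _ hv
  intro σ _
  rw [act_even, fun_mem5, fun_mem5, detach_apply, detach_apply]
  constructor
  · rintro ⟨h2, h3⟩
    refine ⟨?_, fun h4 => h3 (Or.inr ⟨by omega, by omega, h4⟩)⟩
    rcases h2 with h2 | ⟨_, _, h2⟩
    · omega
    · exact h2
  · rintro ⟨h2, h3⟩
    refine ⟨Or.inr ⟨by omega, by omega, h2⟩, ?_⟩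
    rintro (h4 | ⟨_, _, h4⟩)
    · omega
    · exact h3 h4

theorem A5_Ea {n : ℕ} (hn : 2 ≤ n) {v : M} (hv : v ∈ Sup (W n)) : ind (A5 n) (E (2 * n - 2) v) = 0 := by
  apply ind_map_zero (B := W n) (g := act (2 * n - 2)) _ hv
  intro σ _ h
  have h0 : act (2 * n - 2) σ = detach (n - 1) σ := by
    rw [show 2 * n - 2 = 2 * (n - 1) by omega, act_even]
  rw [h0, fun_mem5, detach_apply] at h
  omega

theorem A5_Eb {n : ℕ} (hn : 2 ≤ n) {v : M} (hv : v ∈ Sup (W n)) : ind (A5 n) (E (2 * n - 1) v) = 0 := by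
  apply ind_map_zero (B := W n) (g := act (2 * n - 1)) _ hv
  intro σ _ h
  have h0 : act (2 * n - 1) σ = join (n - 1) n σ := by
    rw [show 2 * n - 1 = 2 * (n - 1) + 1 by omega, act_odd, show n - 1 + 1 = n by omega]
  rw [h0, fun_mem5] at h
  exact h.2 ((join (n - 1) n σ).trans h.1 (join_rel _ _ _))

theorem A5_In {n : ℕ} (hn : 2 ≤ n) {v : M} (hv : v ∈ Sup (W n)) :
    ind (A5 (n + 1)) (In (2 * n - 1) v) = ind (A5 n) v := by
  apply ind_map (B := W n) (g := ins (2 * n - 1)) _ hv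
  intro σ _
  rw [fun_mem5, fun_mem5]
  have h0 : ins (2 * n - 1) σ = Setoid.comap (coll (n - 1)) σ := by
    rw [show 2 * n - 1 = 2 * (n - 1) + 1 by omega]
    exact bb_ins_odd (n - 1) σ
  rw [h0, comap_apply, comap_apply (coll (n - 1)) σ 0 (n + 1)]
  have h1 : coll (n - 1) 0 = 0 := by unfold coll; simp
  have h2 : coll (n - 1) (n + 1 - 1) = n - 1 := by
    unfold coll
    rw [if_neg (by omega)]
    omega
  have h3 : coll (n - 1) (n + 1) = n := by
    unfold coll
    rw [if_neg (by omega)]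
    omega
  rw [h1, h2, h3]

theorem fun_ind_add {A B : Set St} (h : ∀ σ, σ ∈ A ↔ σ ∉ B) (v : M) : ind A v = tot v - ind B v := by
  classical
  induction v using Finsupp.induction_linear with
  | zero => simp
  | add v w hv hw => rw [map_add, map_add, map_add, hv, hw]; ring
  | single σ c =>
    rw [ind_single, ind_single]
    have h2 : tot (Finsupp.single σ c) = c := by simp [tot]
    rw [h2]
    by_cases h1 : σ ∈ B
    · rw [if_neg (fun h3 => (h σ).1 h3 h1), if_pos h1]; ring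
    · rw [if_pos ((h σ).2 h1), if_neg h1]; ring

/-- base case `n = 2`: `ins 1` in front -/
theorem A5_In_one {v : M} (hv : v ∈ Sup (W 1)) : ind (A5 2) (In 1 v) = tot v - ind (A3 1) v := by
  rw [← fun_ind_add (A := (A3 1)ᶜ) (fun σ => Iff.rfl) v]
  apply ind_map (B := W 1) (g := ins 1) _ hv
  intro σ _
  have h0 : ins 1 σ = Setoid.comap (coll 0) σ := bb_ins_odd 0 σ
  rw [h0, fun_mem5, comap_apply, comap_apply (coll 0) σ 0 2]
  have h1 : coll 0 0 = 0 := by unfold coll; simp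
  have h2 : coll 0 (2 - 1) = 0 := by unfold coll; simp
  have h3 : coll 0 2 = 1 := by unfold coll; simp
  rw [h1, h2, h3]
  constructor
  · intro h; exact h.2
  · intro h; exact ⟨σ.refl 0, h⟩

/-- killed functionals: exchange relation and zeros -/
theorem kill_sw {n i : ℕ} (hi : i + 1 ≤ 2 * n) {f : M →ₗ[ℝ] ℝ} (hf : ∀ v ∈ Sup (W n), f (E i v) = 0) (b : ℕ → ℝ) :
    s (b i - b (i + 1)) * f (V n (sw i b)) = s (b (i + 1) - b i) * f (V n b) := by
  have h := congrArg f (V_sw hi b)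
  rw [map_smul, Rt_apply, map_add, map_smul, map_smul, hf _ (V_Sup n b), smul_zero, add_zero, smul_eq_mul,
    smul_eq_mul, neg_sub] at h
  exact h
end IPK
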