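import Pool.Agent.Helper78.K.Node
import Pool.Agent.Helper78.K.Fun
/-! MODULE K.Even: the chain with `2n` strands (both walls free) as the limit `b (2n) → i ∞` of the odd chain.
`Tt n b = De 0 ∘ row 1 b (2n+1) ∘ row 0 b (2n+1)`, and on `Sup (W n)`
`Rt (2n+1) (a+π/6) (Rt (2n) (a+π/6) v) = (3/4) v + (cos² a - 3/4) E_{2n} v`; the factor of `a` in `nrm` is `cos² a`.
The top coefficients (in `2 cos 2a`) `w` of `V n b` give `TE w = w`. -/
namespace IPK
open IP Finset Filter Topology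

/-- transfer matrix of the even chain at the homogeneous point -/
noncomputable def TE (n : ℕ) : M →ₗ[ℝ] M := De 0 ∘ₗ row 1 (fun _ => 0) (2 * n) ∘ₗ row 0 (fun _ => 0) (2 * n) ∘ₗ E (2 * n)

/-- parameters `(0, ..., 0, a)` -/
noncomputable def ba (n : ℕ) (a : ℝ) : ℕ → ℝ := Function.update (fun _ => 0) (2 * n) a

theorem Even_ba_lt {n : ℕ} (a : ℝ) {j : ℕ} (h : j < 2 * n) : ba n a j = 0 := by
  unfold ba
  rw [Function.update_of_ne (by omega)]

theorem Even_ba_self (n : ℕ) (a : ℝ) : ba n a (2 * n) = a := by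
  unfold ba
  rw [Function.update_self]

theorem Even_s_pi_div_six (x : ℝ) : s (x + Real.pi / 6) = Real.cos x := by
  unfold s
  rw [show Real.pi / 3 + (x + Real.pi / 6) = x + Real.pi / 2 by ring, Real.sin_add_pi_div_two]

/-- `sin² (π/6-a) + sin (π/6-a) sin (π/6+a) + sin² (π/6+a) = 3/4` and the product -/
theorem Even_trig (a : ℝ) :
    s (-(a + Real.pi / 6)) * s (-(a + Real.pi / 6)) + s (-(a + Real.pi / 6)) * Real.sin (a + Real.pi / 6) +
      Real.sin (a + Real.pi / 6) * Real.sin (a + Real.pi / 6) = 3 / 4 ∧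
    s (-(a + Real.pi / 6)) * Real.sin (a + Real.pi / 6) = Real.cos a ^ 2 - 3 / 4 := by
  have h1 : s (-(a + Real.pi / 6)) = Real.sin (Real.pi / 6 - a) := by
    unfold s
    congr 1
    ring
  have h2 : Real.sin (Real.pi / 6 - a) = 1 / 2 * Real.cos a - Real.sqrt 3 / 2 * Real.sin a := by
    rw [Real.sin_sub, Real.sin_pi_div_six, Real.cos_pi_div_six]
  have h3 : Real.sin (a + Real.pi / 6) = Real.sin a * (Real.sqrt 3 / 2) + Real.cos a * (1 / 2) := by
    rw [Real.sin_add, Real.sin_pi_div_six, Real.cos_pi_div_six]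
  have h4 : Real.sqrt 3 ^ 2 = 3 := Real.sq_sqrt (by norm_num)
  have h5 := Real.sin_sq_add_cos_sq a
  rw [h1, h2, h3]
  constructor
  · nlinarith [h4, h5, sq_nonneg (Real.sqrt 3)]
  · have h6 : Real.sqrt 3 ^ 2 * Real.sin a ^ 2 = 3 * Real.sin a ^ 2 := by rw [h4]
    nlinarith [h4, h5, h6]

theorem Even_Rt_Rt {n : ℕ} (a : ℝ) {v : M} (hv : v ∈ Sup (W n)) :
    Rt (2 * n + 1) (a + Real.pi / 6) (Rt (2 * n) (a + Real.pi / 6) v) =
      (3 / 4 : ℝ) • v + (Real.cos a ^ 2 - 3 / 4) • E (2 * n) v := by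
  obtain ⟨h1, h2⟩ := Even_trig a
  rw [Rt_apply, Rt_apply, map_add, map_smul, map_smul, E_wall le_rfl hv, E_wall2 hv, ← h2, ← h1]
  simp only [smul_add, smul_smul, add_smul]
  rw [mul_comm (Real.sin (a + Real.pi / 6)) (s (-(a + Real.pi / 6)))]
  abel

theorem Tt_right {n : ℕ} (a : ℝ) {v : M} (hv : v ∈ Sup (W n)) : Tt n (ba n a) v =
    (3 / 4 : ℝ) • De 0 (row 1 (fun _ => 0) (2 * n) (row 0 (fun _ => 0) (2 * n) v)) +
      (Real.cos a ^ 2 - 3 / 4) • TE n v := by
  have key : ∀ c : ℕ → ℝ, Tt n c v = De 0 (row 1 c (2 * n) (row 0 c (2 * n)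
      (Rt (2 * n + 1) (c (2 * n) + Real.pi / 6) (Rt (2 * n) (c (2 * n) + Real.pi / 6) v)))) := by
    intro c
    rw [Tt_apply, row_succ 1, row_succ 0, Rt_row_right 0 c (2 * n) (by omega), Nat.zero_add,
      Nat.add_comm 1 (2 * n)]
  have h1 : ∀ off, row off (ba n a) (2 * n) = row off (fun _ => 0) (2 * n) := fun off =>
    row_congr off (2 * n) (fun j hj => Even_ba_lt a hj)
  rw [key, h1, h1, Even_ba_self, Even_Rt_Rt a hv]
  simp only [map_add, map_smul]
  rfl

theorem nrm_right (n : ℕ) (a : ℝ) : nrm n (ba n a) = Real.cos a ^ 2 := by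
  unfold nrm
  rw [prod_range_succ, Even_ba_self, Even_s_pi_div_six]
  rw [prod_eq_one, one_mul]
  intro j hj
  rw [Even_ba_lt a (mem_range.1 hj), Even_s_pi_div_six, Real.cos_zero, one_pow]

/-- functionals of the stationary vector as polynomials in `2 cos 2a` -/
theorem Even_poly (n : ℕ) (f : M →ₗ[ℝ] ℝ) : ∃ Q : Polynomial ℝ, Q.natDegree ≤ n ∧
    ∀ a, f (V n (ba n a)) = Q.eval (XX a) := by
  have h1 : TP (2 * n) (fun a => f (V n (ba n a))) := by
    have h := (vs_Sep_lin n f).1 (fun _ => 0) (2 * n) (by omega)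
    exact h
  have h2 : ∀ a, f (V n (ba n (-a))) = f (V n (ba n a)) := by
    intro a
    have h3 : ba n (-a) = ng (2 * n) (ba n a) := by
      unfold ng
      rw [Even_ba_self]
      unfold ba
      rw [Function.update_idem]
    rw [h3, V_ngR]
  exact poly_of_tp h1 h2

/-- the vector of the top coefficients -/
theorem exists_VE (n : ℕ) : ∃ w : M, w ∈ Sup (W n) ∧ ∀ f : M →ₗ[ℝ] ℝ, ∃ Q : Polynomial ℝ, Q.natDegree ≤ n ∧
    (∀ a, f (V n (ba n a)) = Q.eval (XX a)) ∧ Q.coeff n = f w := by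
  choose Q hQ1 hQ2 using fun σ : St => Even_poly n (Finsupp.lapply σ)
  refine ⟨∑ τ ∈ WF n, (Q τ).coeff n • (Finsupp.single τ (1 : ℝ) : M), ?_, ?_⟩
  · exact Submodule.sum_mem _ fun τ hτ => Submodule.smul_mem _ _ (single_Sup (mem_WF.mp hτ) 1)
  · intro f
    refine ⟨∑ τ ∈ WF n, Polynomial.C (f (Finsupp.single τ (1 : ℝ))) * Q τ, ?_, ?_, ?_⟩
    · refine Polynomial.natDegree_sum_le_of_forall_le _ _ fun τ _ => ?_
      exact (Polynomial.natDegree_C_mul_le _ _).trans (hQ1 τ)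
    · intro a
      rw [Polynomial.eval_finsetSum]
      conv_lhs => rw [expand (V_Sup n (ba n a))]
      rw [map_sum]
      refine Finset.sum_congr rfl fun τ _ => ?_
      rw [map_smul, smul_eq_mul, Polynomial.eval_mul, Polynomial.eval_C, ← hQ2 τ a, mul_comm]
      rfl
    · rw [Polynomial.finsetSum_coeff, map_sum]
      refine Finset.sum_congr rfl fun τ _ => ?_
      rw [Polynomial.coeff_C_mul, map_smul, smul_eq_mul, mul_comm]

noncomputable def VE (n : ℕ) : M := (exists_VE n).choose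
theorem VE_Sup (n : ℕ) : VE n ∈ Sup (W n) := (exists_VE n).choose_spec.1
theorem VE_coeff (n : ℕ) (f : M →ₗ[ℝ] ℝ) : ∃ Q : Polynomial ℝ, Q.natDegree ≤ n ∧
    (∀ a, f (V n (ba n a)) = Q.eval (XX a)) ∧ Q.coeff n = f (VE n) := (exists_VE n).choose_spec.2 f

theorem TE_Sup {n : ℕ} {v : M} (hv : v ∈ Sup (W n)) : TE n v ∈ Sup (W n) := by
  have h1 : E (2 * n) v ∈ Sup (W (n + 1)) := E_Sup (Or.inl (by omega)) (Sup_mono (by omega) hv)
  have h2 := row_Sup (m := n + 1) 0 (fun _ => 0) (2 * n) (by omega) h1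
  have h3 := row_Sup (m := n + 1) 1 (fun _ => 0) (2 * n) (by omega) h2
  exact De_Sup (by omega) h3

theorem Even_prod_one (k : ℕ) : ∏ j ∈ range k, s ((fun _ : ℕ => (0 : ℝ)) j + Real.pi / 6) = 1 := by
  refine prod_eq_one fun j _ => ?_
  rw [Even_s_pi_div_six, Real.cos_zero]

theorem tot_TE (n : ℕ) (v : M) : tot (TE n v) = tot v := by
  show tot (De 0 (row 1 (fun _ => 0) (2 * n) (row 0 (fun _ => 0) (2 * n) (E (2 * n) v)))) = tot v
  rw [tot_De, tot_row, tot_row, tot_E, Even_prod_one, one_mul, one_mul]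

theorem Even_XX_cos (a : ℝ) : Real.cos a ^ 2 = 1 / 2 + XX a / 4 := by
  unfold XX
  rw [Real.cos_sq]
  ring

/-- polynomials that agree at all `2 cos 2a` -/
theorem Even_poly_ext {P Q : Polynomial ℝ} (h : ∀ a, P.eval (XX a) = Q.eval (XX a)) : P = Q := by
  apply Polynomial.eq_of_infinite_eval_eq
  refine Set.Infinite.mono ?_ (Set.Icc_infinite (show (-2 : ℝ) < 2 by norm_num))
  intro x hx
  have h1 : XX (Real.arccos (x / 2) / 2) = x := by
    unfold XX
    rw [show 2 * (Real.arccos (x / 2) / 2) = Real.arccos (x / 2) by ring,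
      Real.cos_arccos (by linarith [hx.1]) (by linarith [hx.2])]
    ring
  have h2 := h (Real.arccos (x / 2) / 2)
  rw [h1] at h2
  exact h2

theorem TE_VE (n : ℕ) : TE n (VE n) = VE n := by
  have key : ∀ f : M →ₗ[ℝ] ℝ, f (TE n (VE n)) = f (VE n) := by
    intro f
    obtain ⟨Q1, h11, h12, -⟩ := VE_coeff n
      (f ∘ₗ De 0 ∘ₗ row 1 (fun _ => 0) (2 * n) ∘ₗ row 0 (fun _ => 0) (2 * n))
    obtain ⟨Q2, h21, h22, h23⟩ := VE_coeff n (f ∘ₗ TE n)
    obtain ⟨Q3, h31, h32, h33⟩ := VE_coeff n f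
    have hp : Polynomial.C (3 / 4 : ℝ) * Q1 + (Polynomial.C (1 / 4 : ℝ) * (Polynomial.X * Q2) -
        Polynomial.C (1 / 4 : ℝ) * Q2) = Polynomial.C (1 / 2 : ℝ) * Q3 +
          Polynomial.C (1 / 4 : ℝ) * (Polynomial.X * Q3) := by
      apply Even_poly_ext
      intro a
      have h1 := V_Tt n (ba n a)
      rw [Tt_right a (V_Sup n _), nrm_right] at h1
      have h2 := congrArg f h1
      rw [map_add, map_smul, map_smul, map_smul, smul_eq_mul, smul_eq_mul, smul_eq_mul] at h2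
      have h3 := h12 a
      have h4 := h22 a
      have h5 := h32 a
      simp only [LinearMap.comp_apply] at h3 h4
      rw [h3, h4, h5, Even_XX_cos] at h2
      simp only [Polynomial.eval_add, Polynomial.eval_sub, Polynomial.eval_mul, Polynomial.eval_C,
        Polynomial.eval_X]
      linarith
    have hc := congrArg (fun P : Polynomial ℝ => P.coeff (n + 1)) hp
    simp only [Polynomial.coeff_add, Polynomial.coeff_sub, Polynomial.coeff_C_mul,
      Polynomial.coeff_X_mul] at hc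
    rw [Polynomial.coeff_eq_zero_of_natDegree_lt (show Q1.natDegree < n + 1 by omega),
      Polynomial.coeff_eq_zero_of_natDegree_lt (show Q2.natDegree < n + 1 by omega),
      Polynomial.coeff_eq_zero_of_natDegree_lt (show Q3.natDegree < n + 1 by omega), h23, h33] at hc
    have h6 : f (TE n (VE n)) = (f ∘ₗ TE n) (VE n) := rfl
    rw [h6]
    linarith
  ext σ
  exact key (Finsupp.lapply σ)

/-! ### Doeblin's condition -/

theorem Even_zero_Cube : (fun _ : ℕ => (0 : ℝ)) ∈ Cube := by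
  intro j
  rw [abs_zero]
  positivity

theorem Even_TE_ge (n : ℕ) {σ : St} (hσ : σ ∈ W n) :
    Nng (TE n (Finsupp.single σ 1) - Finsupp.single (bot n)
      (iwt (fun _ => 0) (2 * n) * gwt (fun _ => 0) (2 * n))) := by
  have hb := Even_zero_Cube
  have hg : gst (2 * n) (act (2 * n) σ) = bot (n + 1) := by
    rw [← gst_bot n hσ]
    show _ = gst (2 * n) (if (2 * n) % 2 = 0 then act (2 * n) σ else σ)
    rw [if_pos (by omega)]
  have h0 := row0_ge hb (2 * n) (act (2 * n) σ) 1 zero_le_one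
  rw [hg, mul_one] at h0
  have h1 := NN_row 1 hb (2 * n) h0
  have h2 := row_ge 1 hb (2 * n) (NN_single (bot (n + 1)) (gwt_pos hb (2 * n)).le)
  have h3 := NN_map (del 0) (h1.add h2)
  convert h3 using 1
  have e : Finsupp.lmapDomain ℝ ℝ (del 0) = De 0 := rfl
  rw [e]
  simp only [TE, LinearMap.comp_apply, map_sub, map_add, E_single, De_single, del_bot, Finsupp.smul_single,
    smul_eq_mul]
  rw [sub_add_sub_cancel]

/-- the contraction, general form -/
theorem Even_contr (n : ℕ) {A : M →ₗ[ℝ] M} {δ : ℝ} (hS : ∀ v ∈ Sup (W n), A v ∈ Sup (W n))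
    (ht : ∀ v, tot (A v) = tot v) (hge : ∀ σ ∈ W n, Nng (A (Finsupp.single σ 1) - Finsupp.single (bot n) δ))
    {v : M} (hv : v ∈ Sup (W n)) (h0 : tot v = 0) : nm n (A v) ≤ (1 - δ) * nm n v := by
  classical
  set q : St → M := fun τ => A (Finsupp.single τ 1) - Finsupp.single (bot n) δ with hq
  have hqS : ∀ τ ∈ WF n, q τ ∈ Sup (W n) := fun τ hτ =>
    Submodule.sub_mem _ (hS _ (single_Sup (mem_WF.mp hτ) 1)) (single_Sup (bot_W n) _)
  have hqt : ∀ τ ∈ WF n, ∑ σ ∈ WF n, q τ σ = 1 - δ := by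
    intro τ hτ
    rw [← tot_eq (hqS τ hτ)]
    simp only [hq, map_sub, ht, tot_single]
  have hTv : A v = ∑ τ ∈ WF n, v τ • q τ := by
    have h1 : A v = ∑ τ ∈ WF n, v τ • A (Finsupp.single τ 1) := by
      conv_lhs => rw [expand hv]
      rw [map_sum]
      exact Finset.sum_congr rfl fun τ _ => map_smul _ _ _
    have h2 : ∑ τ ∈ WF n, v τ • q τ = ∑ τ ∈ WF n, v τ • A (Finsupp.single τ 1) -
        (∑ τ ∈ WF n, v τ) • Finsupp.single (bot n) δ := by
      rw [Finset.sum_smul, ← Finset.sum_sub_distrib]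
      exact Finset.sum_congr rfl fun τ _ => smul_sub _ _ _
    rw [h1, h2, ← tot_eq hv, h0, zero_smul, sub_zero]
  rw [nm, nm, hTv]
  calc ∑ σ ∈ WF n, |(∑ τ ∈ WF n, v τ • q τ) σ|
      ≤ ∑ σ ∈ WF n, ∑ τ ∈ WF n, |v τ| * q τ σ := by
        refine Finset.sum_le_sum fun σ _ => ?_
        rw [Finsupp.finsetSum_apply]
        refine (Finset.abs_sum_le_sum_abs _ _).trans (Finset.sum_le_sum fun τ hτ => ?_)
        rw [Finsupp.smul_apply, smul_eq_mul, abs_mul, abs_of_nonneg (hge τ (mem_WF.mp hτ) σ)]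
    _ = ∑ τ ∈ WF n, |v τ| * (1 - δ) := by
        rw [Finset.sum_comm]
        refine Finset.sum_congr rfl fun τ hτ => ?_
        rw [← Finset.mul_sum, hqt τ hτ]
    _ = (1 - δ) * ∑ τ ∈ WF n, |v τ| := by
        rw [← Finset.sum_mul, mul_comm]

theorem Even_pow_Sup (n : ℕ) {v : M} (hv : v ∈ Sup (W n)) (N : ℕ) :
    ((TE n) ^ N) v ∈ Sup (W n) := by
  induction N with
  | zero => simpa using hv
  | succ N ih => rw [pow_succ', Module.End.mul_apply]; exact TE_Sup ih

theorem Even_tot_pow (n : ℕ) (v : M) (N : ℕ) : tot (((TE n) ^ N) v) = tot v := by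
  induction N with
  | zero => simp
  | succ N ih => rw [pow_succ', Module.End.mul_apply, tot_TE, ih]

/-- convergence to the stationary vector (Doeblin: from every state `bot n` is reached in one step with positive weight) -/
theorem TE_tendsto {n : ℕ} {v w : M} (hv : v ∈ Sup (W n)) (hw : w ∈ Sup (W n)) (hTw : TE n w = w) (h : tot v = tot w)
    (f : M →ₗ[ℝ] ℝ) : Tendsto (fun N : ℕ => f (((TE n) ^ N) v)) atTop (𝓝 (f w)) := by
  classical
  have hb := Even_zero_Cube
  set δ : ℝ := iwt (fun _ => 0) (2 * n) * gwt (fun _ => 0) (2 * n) with hδ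
  have hδ0 : 0 < δ := mul_pos (iwt_pos hb _) (gwt_pos hb _)
  have hδ1 : δ ≤ 1 := by
    have h1 := Even_TE_ge n (bot_W n)
    have h2 : tot (TE n (Finsupp.single (bot n) 1) - Finsupp.single (bot n) δ) = 1 - δ := by
      rw [map_sub, tot_TE, tot_single, tot_single]
    have h3 : (TE n (Finsupp.single (bot n) 1) - Finsupp.single (bot n) δ) ∈ Sup (W n) :=
      Submodule.sub_mem _ (TE_Sup (single_Sup (bot_W n) 1)) (single_Sup (bot_W n) _)
    rw [tot_eq h3] at h2
    have h4 := Finset.sum_nonneg (s := WF n) fun τ _ => h1 τ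
    linarith
  have hfw : ∀ N : ℕ, ((TE n) ^ N) w = w := by
    intro N
    induction N with
    | zero => simp
    | succ N ih => rw [pow_succ', Module.End.mul_apply, ih, hTw]
  have hu : v - w ∈ Sup (W n) := Submodule.sub_mem _ hv hw
  have hu0 : tot (v - w) = 0 := by rw [map_sub, h, sub_self]
  have hnm : ∀ N : ℕ, nm n (((TE n) ^ N) (v - w)) ≤ (1 - δ) ^ N * nm n (v - w) := by
    intro N
    induction N with
    | zero => simp
    | succ N ih =>
      rw [pow_succ', Module.End.mul_apply]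
      refine (Even_contr n (fun v hv => TE_Sup hv) (tot_TE n) (fun σ hσ => Even_TE_ge n hσ)
        (Even_pow_Sup n hu N) (by rw [Even_tot_pow, hu0])).trans ?_
      rw [pow_succ', mul_assoc]
      exact mul_le_mul_of_nonneg_left ih (by linarith)
  have hσ : ∀ σ, Tendsto (fun N : ℕ => ((TE n) ^ N) (v - w) σ) atTop (𝓝 0) := by
    intro σ
    have h1 : Tendsto (fun N : ℕ => (1 - δ) ^ N * nm n (v - w)) atTop (𝓝 0) := by
      have := (tendsto_pow_atTop_nhds_zero_of_lt_one (r := 1 - δ)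
        (by linarith) (by linarith)).mul_const (nm n (v - w))
      simpa using this
    refine squeeze_zero_norm (fun N => ?_) h1
    rw [Real.norm_eq_abs]
    exact (abs_le_nm (Even_pow_Sup n hu N) σ).trans (hnm N)
  have hf : Tendsto (fun N : ℕ => f (((TE n) ^ N) (v - w))) atTop (𝓝 0) := by
    have h1 : ∀ N : ℕ, f (((TE n) ^ N) (v - w)) =
        ∑ τ ∈ WF n, ((TE n) ^ N) (v - w) τ * f (Finsupp.single τ 1) := by
      intro N
      conv_lhs => rw [expand (Even_pow_Sup n hu N)]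
      rw [map_sum]
      exact Finset.sum_congr rfl fun τ _ => by rw [map_smul, smul_eq_mul]
    simp only [h1]
    have h2 : Tendsto (fun N : ℕ => ∑ τ ∈ WF n, ((TE n) ^ N) (v - w) τ * f (Finsupp.single τ 1)) atTop
        (𝓝 (∑ τ ∈ WF n, 0 * f (Finsupp.single τ 1))) :=
      tendsto_finsetSum _ fun τ _ => (hσ τ).mul_const _
    simpa using h2
  have h3 := hf.add_const (f w)
  rw [zero_add] at h3
  refine h3.congr fun N => ?_
  rw [map_sub, map_sub, hfw]
  ring

/-! ### the isolated wall -/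

theorem Even_act_iso {m i : ℕ} (hi : i + 1 < 2 * m) {σ : St}
    (hσ : σ ∈ W m ∧ ∀ k < m, ¬ σ k m) : act i σ ∈ W m ∧ ∀ k < m, ¬ act i σ k m := by
  obtain ⟨h1, h2⟩ := hσ
  obtain ⟨k, hk | hk⟩ := parity i
  · subst hk
    rw [act_even]
    constructor
    · intro x y hx hy
      exact Or.inr ⟨by omega, by omega, h1 x y hx hy⟩
    · rintro x hx (h | ⟨-, -, h⟩)
      · omega
      · exact h2 x hx h
  · subst hk
    rw [act_odd]
    constructor
    · intro x y hx hy
      exact Or.inl (h1 x y hx hy)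
    · rintro x hx (h | ⟨-, h⟩ | ⟨-, h⟩)
      · exact h2 x hx h
      · exact h2 (k + 1) (by omega) h
      · exact h2 k (by omega) h

theorem Even_row_iso {m : ℕ} (off : ℕ) (b : ℕ → ℝ) (k : ℕ) (h : off + k < 2 * m) {v : M}
    (hv : v ∈ Sup {σ | σ ∈ W m ∧ ∀ k < m, ¬ σ k m}) :
    row off b k v ∈ Sup {σ | σ ∈ W m ∧ ∀ k < m, ¬ σ k m} := by
  induction k generalizing v with
  | zero => exact hv
  | succ k ih =>
    rw [row_succ]
    apply ih (by omega)
    rw [Rt_apply]
    refine Submodule.add_mem _ (Submodule.smul_mem _ _ hv) (Submodule.smul_mem _ _ ?_)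
    exact lmap_Sup (fun σ hσ => Even_act_iso (by omega) hσ) hv

/-- the wall stays isolated -/
theorem TE_iso {n : ℕ} {v : M} (hv : v ∈ Sup {σ | σ ∈ W n ∧ ∀ k < n, ¬ σ k n}) :
    TE n v ∈ Sup {σ | σ ∈ W n ∧ ∀ k < n, ¬ σ k n} := by
  have h1 : E (2 * n) v ∈ Sup {σ | σ ∈ W (n + 1) ∧ ∀ k < n + 1, ¬ σ k (n + 1)} := by
    refine lmap_Sup ?_ hv
    rintro σ ⟨h1, h2⟩
    rw [act_even]
    constructor
    · intro x y hx hy
      exact Or.inr ⟨by omega, by omega, h1 x y (by omega) (by omega)⟩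
    · rintro x hx (h | ⟨h3, -, h⟩)
      · omega
      · exact h2 x (by omega) (σ.trans h (h1 (n + 1) n (by omega) le_rfl))
  have h2 := Even_row_iso (m := n + 1) 0 (fun _ => 0) (2 * n) (by omega) h1
  have h3 := Even_row_iso (m := n + 1) 1 (fun _ => 0) (2 * n) (by omega) h2
  refine lmap_Sup ?_ h3
  rintro σ ⟨h1, h2⟩
  rw [show (0 : ℕ) = 2 * 0 by rfl, del_even]
  constructor
  · intro x y hx hy
    exact h1 _ _ (by unfold skip; split_ifs <;> omega) (by unfold skip; split_ifs <;> omega)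
  · intro k hk h
    have h4 : σ (k + 1) (n + 1) := h
    exact h2 (k + 1) (by omega) h4
end IPK
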