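import Pool.Agent.Helper78.K.Defs
/-! MODULE K.Gd1: the recursion of the closed formula `Gd` (pure algebra of determinants).

Proof (write `X_k = XX (x k)`, `u = UU p (x 0)`, `u' = UU (!p) (x 0)`, `u_k±` the partners of `X_k`).
`Mx N t x y = Σ_± P(u∓)/((u± - u∓)(Y - u±))`.  At `t_i = u` we have `P(u) = 0`, `P(v) = (u - v) P~(v)`
(`P~` = product over `j ≠ i`), so row `0` is `P~(u')/(X_l - u)`.  Subtract from the column `l ≥ 1` the column `0`
times `(X_0 - u)/(X_l - u)`: row `0` becomes `(P~(u')/(X_0 - u), 0, ..., 0)` and the entry `(k,l)` becomes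
`(X_l - X_0)/(X_l - u) * q(u,X_k)/q(X_0,X_k) * M'(X_k,X_l)` with `M'` the entry for `t_i := X_0`;
`q(u,X_k) = (X_k - X_0)(X_k - u')`, `q(X_0,X_k) = (X_k - u)(X_k - u')`, `q(X_0,X_0) = (X_0 - u)(X_0 - u')`. -/
namespace IPK
open IP Finset

theorem gd_cos : Real.cos (2 * Real.pi / 3) = -(1 / 2) := by
  rw [show 2 * Real.pi / 3 = Real.pi - Real.pi / 3 by ring, Real.cos_pi_sub, Real.cos_pi_div_three]
theorem gd_sin_sq : Real.sin (2 * Real.pi / 3) ^ 2 = 3 / 4 := by
  have h := Real.sin_sq_add_cos_sq (2 * Real.pi / 3)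
  rw [gd_cos] at h
  linarith

theorem gd_UUt (x : ℝ) : UU true x = 2 * Real.cos (2 * x + 2 * Real.pi / 3) := by
  unfold UU; simp
theorem gd_UUf (x : ℝ) : UU false x = 2 * Real.cos (2 * Real.pi / 3 - 2 * x) := by
  unfold UU
  simp only [Bool.false_eq_true, if_false]
  rw [show 2 * x + -1 * (2 * Real.pi / 3) = -(2 * Real.pi / 3 - 2 * x) by ring, Real.cos_neg]

theorem XX_range {x : ℝ} (h0 : 0 < x) (h1 : x < Real.pi / 12) : 1 < XX x ∧ XX x < 2 := by
  have hpi := Real.pi_pos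
  unfold XX
  constructor
  · have h := Real.cos_lt_cos_of_nonneg_of_le_pi (x := 2 * x) (y := Real.pi / 3) (by linarith) (by linarith)
      (by linarith)
    rw [Real.cos_pi_div_three] at h
    linarith
  · have h := Real.cos_lt_cos_of_nonneg_of_le_pi (x := 0) (y := 2 * x) (by linarith) (by linarith)
      (by linarith)
    rw [Real.cos_zero] at h
    linarith

theorem UUt_range {x : ℝ} (h0 : 0 < x) (h1 : x < Real.pi / 12) : -2 < UU true x ∧ UU true x < -1 := by
  have hpi := Real.pi_pos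
  rw [gd_UUt]
  constructor
  · have h := Real.cos_lt_cos_of_nonneg_of_le_pi (x := 2 * x + 2 * Real.pi / 3) (y := Real.pi) (by linarith)
      (by linarith) (by linarith)
    rw [Real.cos_pi] at h
    linarith
  · have h := Real.cos_lt_cos_of_nonneg_of_le_pi (x := 2 * Real.pi / 3) (y := 2 * x + 2 * Real.pi / 3) (by linarith)
      (by linarith) (by linarith)
    rw [gd_cos] at h
    linarith

theorem UUf_range {x : ℝ} (h0 : 0 < x) (h1 : x < Real.pi / 12) : -1 < UU false x ∧ UU false x < 0 := by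
  have hpi := Real.pi_pos
  rw [gd_UUf]
  constructor
  · have h := Real.cos_lt_cos_of_nonneg_of_le_pi (x := 2 * Real.pi / 3 - 2 * x) (y := 2 * Real.pi / 3) (by linarith)
      (by linarith) (by linarith)
    rw [gd_cos] at h
    linarith
  · have h := Real.cos_lt_cos_of_nonneg_of_le_pi (x := Real.pi / 2) (y := 2 * Real.pi / 3 - 2 * x) (by linarith)
      (by linarith) (by linarith)
    rw [Real.cos_pi_div_two] at h
    linarith

theorem XX_inj {x y : ℝ} (h0 : 0 < x) (h1 : x < Real.pi / 12) (h2 : 0 < y) (h3 : y < Real.pi / 12)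
    (h : XX x = XX y) : x = y := by
  have hpi := Real.pi_pos
  unfold XX at h
  have h' := Real.injOn_cos (x₁ := 2 * x) (x₂ := 2 * y) ⟨by linarith, by linarith⟩ ⟨by linarith, by linarith⟩
    (by linarith)
  linarith

theorem UU_inj {p p' : Bool} {x y : ℝ} (h0 : 0 < x) (h1 : x < Real.pi / 12) (h2 : 0 < y) (h3 : y < Real.pi / 12)
    (h : UU p x = UU p' y) : x = y ∧ p = p' := by
  have hpi := Real.pi_pos
  have a1 := UUt_range h0 h1
  have a2 := UUf_range h0 h1
  have a3 := UUt_range h2 h3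
  have a4 := UUf_range h2 h3
  cases p <;> cases p'
  · rw [gd_UUf, gd_UUf] at h
    have h' := Real.injOn_cos (x₁ := 2 * Real.pi / 3 - 2 * x) (x₂ := 2 * Real.pi / 3 - 2 * y)
      ⟨by linarith, by linarith⟩ ⟨by linarith, by linarith⟩ (by linarith)
    exact ⟨by linarith, rfl⟩
  · exfalso; linarith [a2.1, a3.2]
  · exfalso; linarith [a4.1, a1.2]
  · rw [gd_UUt, gd_UUt] at h
    have h' := Real.injOn_cos (x₁ := 2 * x + 2 * Real.pi / 3) (x₂ := 2 * y + 2 * Real.pi / 3)
      ⟨by linarith, by linarith⟩ ⟨by linarith, by linarith⟩ (by linarith)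
    exact ⟨by linarith, rfl⟩

theorem UU_sum (x : ℝ) : XX x + UU true x + UU false x = 0 := by
  rw [gd_UUt, gd_UUf, XX, Real.cos_add, Real.cos_sub, gd_cos]
  ring

theorem UU_prod (x : ℝ) : UU true x * UU false x = XX x ^ 2 - 3 := by
  rw [gd_UUt, gd_UUf, XX, Real.cos_add, Real.cos_sub, gd_cos]
  have h1 := gd_sin_sq
  have h2 := Real.sin_sq_add_cos_sq (2 * x)
  have h3 : Real.sin (2 * x) ^ 2 = 1 - Real.cos (2 * x) ^ 2 := by linarith
  have h4 : (2 * (Real.cos (2 * x) * -(1 / 2) - Real.sin (2 * x) * Real.sin (2 * Real.pi / 3))) *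
      (2 * (-(1 / 2) * Real.cos (2 * x) + Real.sin (2 * Real.pi / 3) * Real.sin (2 * x))) =
      Real.cos (2 * x) ^ 2 - 4 * (Real.sin (2 * x) ^ 2 * Real.sin (2 * Real.pi / 3) ^ 2) := by ring
  rw [h4, h1, h3]
  ring

theorem qq_fac (x Y : ℝ) : qq (XX x) Y = (Y - UU true x) * (Y - UU false x) := by
  unfold qq
  linear_combination Y * UU_sum x - UU_prod x

theorem gd_qq_fac (p : Bool) (x Y : ℝ) : qq (XX x) Y = (Y - UU p x) * (Y - UU (!p) x) := by
  cases p
  · rw [qq_fac, Bool.not_false]; ring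
  · rw [qq_fac, Bool.not_true]

theorem qq_UU (p : Bool) (x Y : ℝ) : qq (UU p x) Y = (Y - XX x) * (Y - UU (!p) x) := by
  unfold qq
  have h1 := UU_sum x
  have h2 := UU_prod x
  cases p
  · rw [Bool.not_false]
    linear_combination (Y + UU false x - XX x) * h1 - h2
  · rw [Bool.not_true]
    linear_combination (Y + UU true x - XX x) * h1 - h2

theorem gd_qq_comm (X Y : ℝ) : qq X Y = qq Y X := by unfold qq; ring

theorem gd_XU {x y : ℝ} (h0 : 0 < x) (h1 : x < Real.pi / 12) (h2 : 0 < y) (h3 : y < Real.pi / 12) (p : Bool) :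
    XX x - UU p y ≠ 0 := by
  have a1 := XX_range h0 h1
  have a3 := UUt_range h2 h3
  have a4 := UUf_range h2 h3
  cases p
  · intro h; linarith [a1.1, a4.2]
  · intro h; linarith [a1.1, a3.2]

theorem gd_UtUf {x : ℝ} (h0 : 0 < x) (h1 : x < Real.pi / 12) : UU true x - UU false x ≠ 0 := by
  have a3 := UUt_range h0 h1
  have a4 := UUf_range h0 h1
  intro h; linarith [a4.1, a3.2]

/-- partial fractions -/
theorem gd_Mx {x y : ℝ} (h0 : 0 < x) (h1 : x < Real.pi / 12) (h2 : 0 < y) (h3 : y < Real.pi / 12)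
    (N : ℕ) (t : ℕ → ℝ) : Mx N t x y = (PU N t (UU false x) / (XX y - UU true x) -
      PU N t (UU true x) / (XX y - UU false x)) / (UU true x - UU false x) := by
  have b1 := gd_XU h2 h3 h0 h1 true
  have b2 := gd_XU h2 h3 h0 h1 false
  have b3 := gd_UtUf h0 h1
  unfold Mx
  rw [qq_fac]
  field_simp
  ring

/-- product over `j ≠ i` -/
noncomputable def Pt (N i : ℕ) (t : ℕ → ℝ) (v : ℝ) : ℝ := ∏ j ∈ (range N).erase i, (t j - v)

theorem gd_PU {N i : ℕ} (hi : i < N) (t : ℕ → ℝ) (v : ℝ) : PU N t v = (t i - v) * Pt N i t v := by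
  unfold PU Pt
  rw [← Finset.mul_prod_erase (range N) (fun j => t j - v) (mem_range.2 hi)]

theorem gd_Pt_update (N i : ℕ) (t : ℕ → ℝ) (y v : ℝ) : Pt N i (Function.update t i y) v = Pt N i t v := by
  unfold Pt
  apply Finset.prod_congr rfl
  intro j hj
  rw [Function.update_of_ne (Finset.ne_of_mem_erase hj)]

theorem gd_row0 {N i : ℕ} (hi : i < N) {x y : ℝ} (h0 : 0 < x) (h1 : x < Real.pi / 12) (h2 : 0 < y)
    (h3 : y < Real.pi / 12) (p : Bool) (t : ℕ → ℝ) (ht : t i = UU p x) :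
    Mx N t x y = Pt N i t (UU (!p) x) / (XX y - UU p x) := by
  have b1 := gd_XU h2 h3 h0 h1 true
  have b2 := gd_XU h2 h3 h0 h1 false
  have b3 := gd_UtUf h0 h1
  rw [gd_Mx h0 h1 h2 h3, gd_PU hi, gd_PU hi, ht]
  cases p
  · rw [Bool.not_false]
    field_simp
    ring
  · rw [Bool.not_true]
    field_simp
    ring

theorem gd_rowk {N i : ℕ} (hi : i < N) {x0 x y : ℝ} (g0 : 0 < x0) (g1 : x0 < Real.pi / 12)
    (h0 : 0 < x) (h1 : x < Real.pi / 12) (h2 : 0 < y) (h3 : y < Real.pi / 12) (p : Bool) (t : ℕ → ℝ)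
    (ht : t i = UU p x0) :
    Mx N t x y - (XX x0 - UU p x0) / (XX y - UU p x0) * Mx N t x x0 =
      (XX x - XX x0) / (XX x - UU p x0) * ((XX y - XX x0) / (XX y - UU p x0) *
        Mx N (Function.update t i (XX x0)) x y) := by
  have b1 := gd_XU h2 h3 h0 h1 true
  have b2 := gd_XU h2 h3 h0 h1 false
  have b3 := gd_UtUf h0 h1
  have b4 := gd_XU g0 g1 h0 h1 true
  have b5 := gd_XU g0 g1 h0 h1 false
  have b6 := gd_XU h2 h3 g0 g1 p
  have b7 := gd_XU h0 h1 g0 g1 p
  have b8 := gd_XU h0 h1 g0 g1 (!p)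
  have e1 : (UU p x0 - UU true x) * (UU p x0 - UU false x) = (XX x - XX x0) * (XX x - UU (!p) x0) := by
    rw [← qq_fac, gd_qq_comm, qq_UU]
  have e2 : (XX x0 - UU true x) * (XX x0 - UU false x) = (XX x - UU p x0) * (XX x - UU (!p) x0) := by
    rw [← qq_fac, gd_qq_comm, gd_qq_fac p]
  have e3 : (XX x - XX x0) / (XX x - UU p x0) = (UU p x0 - UU true x) * (UU p x0 - UU false x) /
      ((XX x0 - UU true x) * (XX x0 - UU false x)) := by
    rw [e1, e2]
    field_simp
  rw [e3, gd_Mx h0 h1 h2 h3, gd_Mx h0 h1 g0 g1, gd_Mx h0 h1 h2 h3, gd_PU hi, gd_PU hi, gd_PU hi, gd_PU hi,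
    Function.update_self, gd_Pt_update, gd_Pt_update, ht]
  generalize Pt N i t (UU true x) = A
  generalize Pt N i t (UU false x) = B
  generalize UU true x = ut at *
  generalize UU false x = uf at *
  generalize UU p x0 = U at *
  generalize XX x0 = X0 at *
  generalize XX y = Y at *
  field_simp
  ring

theorem gd_det {N m i : ℕ} (hi : i < N) {x : ℕ → ℝ} (hx : Gp (m + 1) x) (p : Bool) (t : ℕ → ℝ)
    (ht : t i = UU p (x 0)) :
    Matrix.det (Matrix.of fun k l : Fin (m + 1) => Mx N t (x k) (x l)) =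
      Pt N i t (UU (!p) (x 0)) / (XX (x 0) - UU p (x 0)) *
      ((∏ l ∈ range m, (XX (x (l + 1)) - XX (x 0)) / (XX (x (l + 1)) - UU p (x 0))) ^ 2 *
      Matrix.det (Matrix.of fun k l : Fin m => Mx N (Function.update t i (XX (x 0))) (x (k + 1)) (x (l + 1)))) := by
  have g : ∀ k, k < m + 1 → 0 < x k ∧ x k < Real.pi / 12 := hx.1
  have g0 := g 0 (by omega)
  set U := UU p (x 0) with hU
  set c : Fin (m + 1) → ℝ := fun l => if l = 0 then 0 else (XX (x 0) - U) / (XX (x l) - U) with hc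
  set B : Matrix (Fin (m + 1)) (Fin (m + 1)) ℝ := Matrix.of fun k l =>
    Mx N t (x k) (x l) - c l * Mx N t (x k) (x 0) with hB
  have h1 : Matrix.det (Matrix.of fun k l : Fin (m + 1) => Mx N t (x k) (x l)) = B.det := by
    rw [← Matrix.det_transpose, ← Matrix.det_transpose B]
    apply Matrix.det_eq_of_forall_row_eq_smul_add_const c 0 (by simp [hc])
    intro l k
    simp only [Matrix.transpose_apply, Matrix.of_apply, hB, Fin.val_zero]
    have : c 0 = 0 := by simp [hc]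
    rw [this]; ring
  rw [h1, Matrix.det_succ_row_zero, Fin.sum_univ_succ]
  have h2 : ∀ l : Fin m, B 0 l.succ = 0 := by
    intro l
    have gl := g (l + 1) (by omega)
    have b1 := gd_XU gl.1 gl.2 g0.1 g0.2 p
    have b2 := gd_XU g0.1 g0.2 g0.1 g0.2 p
    simp only [hB, Matrix.of_apply, hc, Fin.succ_ne_zero, if_false, Fin.val_zero, Fin.val_succ]
    rw [gd_row0 hi g0.1 g0.2 gl.1 gl.2 p t ht, gd_row0 hi g0.1 g0.2 g0.1 g0.2 p t ht, ← hU]
    rw [← hU] at b1 b2
    field_simp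
    ring
  have h3 : ∑ l : Fin m, (-1) ^ ((l.succ : Fin (m + 1)) : ℕ) * B 0 l.succ *
      (B.submatrix Fin.succ (l.succ).succAbove).det = 0 := by
    apply Finset.sum_eq_zero
    intro l _
    rw [h2]; ring
  rw [h3, add_zero]
  have h4 : B 0 0 = Pt N i t (UU (!p) (x 0)) / (XX (x 0) - U) := by
    simp only [hB, Matrix.of_apply, hc, if_true, Fin.val_zero, zero_mul, sub_zero]
    exact gd_row0 hi g0.1 g0.2 g0.1 g0.2 p t ht
  have h5 : B.submatrix Fin.succ (Fin.succAbove 0) = Matrix.of fun k l : Fin m =>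
      ((XX (x (k + 1)) - XX (x 0)) / (XX (x (k + 1)) - U)) * (Matrix.of fun k l : Fin m =>
        ((XX (x (l + 1)) - XX (x 0)) / (XX (x (l + 1)) - U)) *
        (Matrix.of fun k l : Fin m => Mx N (Function.update t i (XX (x 0))) (x (k + 1)) (x (l + 1))) k l) k l := by
    ext k l
    have gk := g (k + 1) (by omega)
    have gl := g (l + 1) (by omega)
    simp only [hB, Matrix.submatrix_apply, Matrix.of_apply, hc, Fin.succAbove_zero, Fin.succ_ne_zero, if_false,
      Fin.val_succ]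
    exact gd_rowk hi g0.1 g0.2 gk.1 gk.2 gl.1 gl.2 p t ht
  rw [h4, h5, Matrix.det_mul_column, Matrix.det_mul_row]
  simp only [Fin.val_zero, pow_zero, one_mul]
  rw [Fin.prod_univ_eq_prod_range (fun l => (XX (x (l + 1)) - XX (x 0)) / (XX (x (l + 1)) - U)) m]
  ring

theorem Gd_rec {N m i : ℕ} (hi : i < N) {x : ℕ → ℝ} (hx : Gp (m + 1) x) (p : Bool) (t : ℕ → ℝ)
    (ht : t i = UU p (x 0)) :
    Gd N (m + 1) t x = (XX (x 0) - UU (!p) (x 0)) * (∏ j ∈ (range N).erase i, (t j - UU (!p) (x 0))) *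
      (∏ l ∈ range m, (XX (x (l + 1)) - UU (!p) (x 0)) ^ 2) *
      Gd N m (Function.update t i (XX (x 0))) (fun k => x (k + 1)) := by
  have g : ∀ k, k < m + 1 → 0 < x k ∧ x k < Real.pi / 12 := hx.1
  have g0 := g 0 (by omega)
  unfold Gd
  rw [gd_det hi hx p t ht]
  have hPt : (∏ j ∈ (range N).erase i, (t j - UU (!p) (x 0))) = Pt N i t (UU (!p) (x 0)) := rfl
  rw [hPt]
  have q1 : ∏ k ∈ range (m + 1), ∏ l ∈ range (m + 1), qq (XX (x k)) (XX (x l)) =
      (XX (x 0) - UU p (x 0)) * (XX (x 0) - UU (!p) (x 0)) *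
      (∏ l ∈ range m, (XX (x (l + 1)) - UU p (x 0)) * (XX (x (l + 1)) - UU (!p) (x 0))) ^ 2 *
      ∏ k ∈ range m, ∏ l ∈ range m, qq (XX (x (k + 1))) (XX (x (l + 1))) := by
    rw [Finset.prod_range_succ', Finset.prod_range_succ']
    have a1 : ∀ k ∈ range m, ∏ l ∈ range (m + 1), qq (XX (x (k + 1))) (XX (x l)) =
        (∏ l ∈ range m, qq (XX (x (k + 1))) (XX (x (l + 1)))) *
          ((XX (x (k + 1)) - UU p (x 0)) * (XX (x (k + 1)) - UU (!p) (x 0))) := by
      intro k _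
      rw [Finset.prod_range_succ', gd_qq_comm (XX (x (k + 1))) (XX (x 0)), gd_qq_fac p]
    rw [Finset.prod_congr rfl a1, Finset.prod_mul_distrib, gd_qq_fac p]
    have a2 : ∏ l ∈ range m, qq (XX (x 0)) (XX (x (l + 1))) =
        ∏ l ∈ range m, (XX (x (l + 1)) - UU p (x 0)) * (XX (x (l + 1)) - UU (!p) (x 0)) :=
      Finset.prod_congr rfl (fun l _ => gd_qq_fac p _ _)
    rw [a2]
    ring
  have q2 : ∏ k ∈ range (m + 1), ∏ l ∈ range k, (XX (x k) - XX (x l)) ^ 2 =
      (∏ k ∈ range m, (XX (x (k + 1)) - XX (x 0))) ^ 2 *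
      ∏ k ∈ range m, ∏ l ∈ range k, (XX (x (k + 1)) - XX (x (l + 1))) ^ 2 := by
    rw [Finset.prod_range_succ', Finset.prod_range_zero, mul_one]
    have a1 : ∀ k ∈ range m, ∏ l ∈ range (k + 1), (XX (x (k + 1)) - XX (x l)) ^ 2 =
        (∏ l ∈ range k, (XX (x (k + 1)) - XX (x (l + 1))) ^ 2) * (XX (x (k + 1)) - XX (x 0)) ^ 2 := by
      intro k _
      rw [Finset.prod_range_succ']
    rw [Finset.prod_congr rfl a1, Finset.prod_mul_distrib, Finset.prod_pow]
    ring
  rw [q1, q2]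
  have n1 : XX (x 0) - UU p (x 0) ≠ 0 := gd_XU g0.1 g0.2 g0.1 g0.2 p
  have n2 : ∏ l ∈ range m, (XX (x (l + 1)) - UU p (x 0)) ≠ 0 := by
    rw [Finset.prod_ne_zero_iff]
    intro l hl
    have gl := g (l + 1) (by have := mem_range.1 hl; omega)
    exact gd_XU gl.1 gl.2 g0.1 g0.2 p
  have n3 : ∏ l ∈ range m, (XX (x (l + 1)) - XX (x 0)) ≠ 0 := by
    rw [Finset.prod_ne_zero_iff]
    intro l hl
    have hl' := mem_range.1 hl
    have gl := g (l + 1) (by omega)
    intro h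
    have h5 := XX_inj gl.1 gl.2 g0.1 g0.2 (sub_eq_zero.1 h)
    have h6 := hx.2 (l + 1) (by omega) 0 (by omega) h5
    omega
  have n4 : ∏ k ∈ range m, ∏ l ∈ range k, (XX (x (k + 1)) - XX (x (l + 1))) ^ 2 ≠ 0 := by
    rw [Finset.prod_ne_zero_iff]
    intro k hk
    rw [Finset.prod_ne_zero_iff]
    intro l hl
    have hk' := mem_range.1 hk
    have hl' := mem_range.1 hl
    have gk := g (k + 1) (by omega)
    have gl := g (l + 1) (by omega)
    apply pow_ne_zero
    intro h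
    have h5 := XX_inj gk.1 gk.2 gl.1 gl.2 (sub_eq_zero.1 h)
    have h6 := hx.2 (k + 1) (by omega) (l + 1) (by omega) h5
    omega
  rw [Finset.prod_mul_distrib, Finset.prod_div_distrib, Finset.prod_pow]
  generalize (∏ l ∈ range m, (XX (x (l + 1)) - UU p (x 0))) = P1 at *
  generalize (∏ l ∈ range m, (XX (x (l + 1)) - UU (!p) (x 0))) = P2 at *
  generalize (∏ l ∈ range m, (XX (x (l + 1)) - XX (x 0))) = P3 at *
  generalize (∏ k ∈ range m, ∏ l ∈ range k, (XX (x (k + 1)) - XX (x (l + 1))) ^ 2) = P4 at *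
  generalize (∏ k ∈ range m, ∏ l ∈ range m, qq (XX (x (k + 1))) (XX (x (l + 1)))) = P5 at *
  field_simp
end IPK
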