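import Pool.Agent.Helper78.K.Gd1
/-! MODULE K.Gd2: symmetry, sign, polynomiality and top coefficient of the closed formula `Gd`. -/
namespace IPK
open IP Finset

theorem Gd_zero (N : ℕ) (t x : ℕ → ℝ) : Gd N 0 t x = 1 := by
  simp [Gd]

theorem Gd2_PU_congr {N : ℕ} {t t' : ℕ → ℝ} (ht : ∀ j < N, t j = t' j) (u : ℝ) : PU N t u = PU N t' u := by
  unfold PU
  exact Finset.prod_congr rfl fun j hj => by rw [ht j (mem_range.1 hj)]

theorem Gd2_Mx_congr {N : ℕ} {t t' : ℕ → ℝ} (ht : ∀ j < N, t j = t' j) (x y : ℝ) : Mx N t x y = Mx N t' x y := by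
  unfold Mx
  rw [Gd2_PU_congr ht, Gd2_PU_congr ht]

theorem Gd_congr {N m : ℕ} {t t' x x' : ℕ → ℝ} (ht : ∀ j < N, t j = t' j) (hx : ∀ k < m, x k = x' k) :
    Gd N m t x = Gd N m t' x' := by
  unfold Gd
  congr 1
  · congr 1
    · refine Finset.prod_congr rfl fun k hk => Finset.prod_congr rfl fun l hl => ?_
      rw [hx k (mem_range.1 hk), hx l (mem_range.1 hl)]
    · refine Finset.prod_congr rfl fun k hk => Finset.prod_congr rfl fun l hl => ?_
      rw [hx k (mem_range.1 hk), hx l ((mem_range.1 hl).trans (mem_range.1 hk))]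
  · congr 1
    ext k l
    simp only [Matrix.of_apply]
    rw [hx k k.2, hx l l.2, Gd2_Mx_congr ht]

/-- restriction of a permutation of `ℕ` fixing everything above `m` -/
theorem Gd2_lt {m : ℕ} {e : Equiv.Perm ℕ} (he : ∀ j, m ≤ j → e j = j) {k : ℕ} (hk : k < m) : e k < m := by
  by_contra h
  have h1 := he (e k) (not_lt.1 h)
  have h2 := e.injective h1
  omega

theorem Gd2_fixsymm {m : ℕ} {e : Equiv.Perm ℕ} (he : ∀ j, m ≤ j → e j = j) : ∀ j, m ≤ j → e.symm j = j := by
  intro j hj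
  rw [Equiv.symm_apply_eq, he j hj]

/-- the permutation of `Fin m` -/
def Gd2_fin {m : ℕ} (e : Equiv.Perm ℕ) (he : ∀ j, m ≤ j → e j = j) : Equiv.Perm (Fin m) where
  toFun k := ⟨e k, Gd2_lt he k.2⟩
  invFun k := ⟨e.symm k, Gd2_lt (Gd2_fixsymm he) k.2⟩
  left_inv k := by ext; simp
  right_inv k := by ext; simp

theorem Gd2_prod {m : ℕ} (e : Equiv.Perm ℕ) (he : ∀ j, m ≤ j → e j = j) (f : ℕ → ℝ) :
    ∏ k ∈ range m, f (e k) = ∏ k ∈ range m, f k := by
  rw [← Fin.prod_univ_eq_prod_range, ← Fin.prod_univ_eq_prod_range]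
  exact Fintype.prod_equiv (Gd2_fin e he) _ _ fun k => rfl

/-- the Vandermonde-like product through all ordered pairs -/
theorem Gd2_pairs (m : ℕ) (g : ℕ → ℕ → ℝ) (hg : ∀ k l, g k l = g l k) :
    ∏ k ∈ range m, ∏ l ∈ range k, g k l ^ 2 = ∏ k ∈ range m, ∏ l ∈ range m, if k = l then 1 else g k l := by
  induction m with
  | zero => simp
  | succ m ih =>
    rw [Finset.prod_range_succ, ih]
    conv_rhs => rw [Finset.prod_range_succ]
    have h1 : ∀ k ∈ range m, (∏ l ∈ range (m + 1), if k = l then 1 else g k l) =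
        (∏ l ∈ range m, if k = l then 1 else g k l) * g k m := by
      intro k hk
      rw [Finset.prod_range_succ, if_neg (mem_range.1 hk).ne]
    rw [Finset.prod_congr rfl h1, Finset.prod_mul_distrib, Finset.prod_range_succ, if_pos rfl, mul_one]
    have h2 : (∏ l ∈ range m, if m = l then 1 else g m l) = ∏ l ∈ range m, g m l :=
      Finset.prod_congr rfl fun l hl => by rw [if_neg (mem_range.1 hl).ne']
    have h3 : (∏ k ∈ range m, g k m) = ∏ l ∈ range m, g m l :=
      Finset.prod_congr rfl fun l _ => hg l m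
    rw [h2, h3, Finset.prod_pow]
    ring

theorem Gd_perm (N m : ℕ) (e : Equiv.Perm ℕ) (he : ∀ j, m ≤ j → e j = j) (t x : ℕ → ℝ) :
    Gd N m t (fun k => x (e k)) = Gd N m t x := by
  unfold Gd
  have h1 : ∏ k ∈ range m, ∏ l ∈ range m, qq (XX (x (e k))) (XX (x (e l))) =
      ∏ k ∈ range m, ∏ l ∈ range m, qq (XX (x k)) (XX (x l)) := by
    rw [Gd2_prod e he (fun k => ∏ l ∈ range m, qq (XX (x k)) (XX (x (e l))))]
    exact Finset.prod_congr rfl fun k _ => Gd2_prod e he (fun l => qq (XX (x k)) (XX (x l)))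
  have h2 : ∏ k ∈ range m, ∏ l ∈ range k, (XX (x (e k)) - XX (x (e l))) ^ 2 =
      ∏ k ∈ range m, ∏ l ∈ range k, (XX (x k) - XX (x l)) ^ 2 := by
    have key : ∀ y : ℕ → ℝ, ∏ k ∈ range m, ∏ l ∈ range k, (XX (y k) - XX (y l)) ^ 2 =
        ∏ k ∈ range m, ∏ l ∈ range m, (if k = l then (1:ℝ) else |XX (y k) - XX (y l)|) := by
      intro y
      rw [← Gd2_pairs m (fun k l => |XX (y k) - XX (y l)|) (fun k l => abs_sub_comm _ _)]
      exact Finset.prod_congr rfl fun k _ => Finset.prod_congr rfl fun l _ => (sq_abs _).symm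
    rw [key (fun k => x (e k)), key x]
    have h3 : ∀ k l : ℕ, (if k = l then (1:ℝ) else |XX (x (e k)) - XX (x (e l))|) =
        (if e k = e l then (1:ℝ) else |XX (x (e k)) - XX (x (e l))|) := by
      intro k l
      simp only [e.injective.eq_iff]
    simp only [h3]
    rw [Gd2_prod e he (fun k => ∏ l ∈ range m, if k = e l then (1:ℝ) else |XX (x k) - XX (x (e l))|)]
    exact Finset.prod_congr rfl fun k _ => Gd2_prod e he (fun l => if k = l then (1:ℝ) else |XX (x k) - XX (x l)|)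
  rw [h1, h2]
  congr 1
  have h4 : (Matrix.of fun k l : Fin m => Mx N t (x (e k)) (x (e l))) =
      (Matrix.of fun k l : Fin m => Mx N t (x k) (x l)).submatrix (Gd2_fin e he) (Gd2_fin e he) := by
    ext k l
    rfl
  rw [h4, Matrix.det_submatrix_equiv_self]

theorem Gd_perm_t (N m : ℕ) (e : Equiv.Perm ℕ) (he : ∀ j, N ≤ j → e j = j) (t x : ℕ → ℝ) :
    Gd N m (fun k => t (e k)) x = Gd N m t x := by
  have h : ∀ u, PU N (fun k => t (e k)) u = PU N t u := fun u => Gd2_prod e he (fun j => t j - u)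
  unfold Gd
  congr 3
  ext k l
  unfold Mx
  rw [h, h]

/-- polynomial of degree `≤ m` in each `t i` -/
theorem Gd2_poly (m : ℕ) (K : ℝ) (A B : Matrix (Fin m) (Fin m) ℝ) :
    ∃ Q : Polynomial ℝ, Q.natDegree ≤ m ∧ (∀ y, K * Matrix.det (y • A + B) = Q.eval y) ∧
      Q.coeff m = K * A.det := by
  refine ⟨Polynomial.C K * (Matrix.det ((Polynomial.X : Polynomial ℝ) • A.map Polynomial.C + B.map Polynomial.C)), ?_, ?_, ?_⟩
  · refine (Polynomial.natDegree_C_mul_le _ _).trans ?_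
    simpa using Polynomial.natDegree_det_X_add_C_le A B
  · intro y
    rw [Polynomial.eval_mul, Polynomial.eval_C]
    congr 1
    rw [← Polynomial.coe_evalRingHom, RingHom.map_det]
    congr 1
    ext i j
    simp
    ring
  · rw [Polynomial.coeff_C_mul]
    congr 1
    simpa using Polynomial.coeff_det_X_add_C_card A B

/-- the matrix entry as a linear function of `P` -/
noncomputable def Gd2_Me (P : ℝ → ℝ) (x y : ℝ) : ℝ :=
  ((P (UU false x) - P (UU true x)) / (UU true x - UU false x) * XX y +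
    (UU true x * P (UU true x) - UU false x * P (UU false x)) / (UU true x - UU false x)) /
  qq (XX x) (XX y)

theorem Gd2_Me_lin (P : ℝ → ℝ) (z x y : ℝ) :
    Gd2_Me (fun u => (z - u) * P u) x y = z * Gd2_Me P x y + Gd2_Me (fun u => -u * P u) x y := by
  unfold Gd2_Me
  simp only [div_eq_mul_inv]
  ring

theorem Gd2_PU_update {N i : ℕ} (hi : i < N) (t : ℕ → ℝ) (y u : ℝ) :
    PU N (Function.update t i y) u = (y - u) * ∏ j ∈ (range N).erase i, (t j - u) := by
  unfold PU
  rw [← Finset.mul_prod_erase _ _ (mem_range.2 hi), Function.update_self]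
  congr 1
  exact Finset.prod_congr rfl fun j hj => by rw [Function.update_of_ne (Finset.ne_of_mem_erase hj)]

theorem Gd_poly {N m i : ℕ} (hi : i < N) (t x : ℕ → ℝ) :
    ∃ Q : Polynomial ℝ, Q.natDegree ≤ m ∧ ∀ y, Gd N m (Function.update t i y) x = Q.eval y := by
  obtain ⟨Q, h1, h2, -⟩ := Gd2_poly m
    ((∏ k ∈ range m, ∏ l ∈ range m, qq (XX (x k)) (XX (x l))) /
      (∏ k ∈ range m, ∏ l ∈ range k, (XX (x k) - XX (x l)) ^ 2))
    (Matrix.of fun k l : Fin m => Gd2_Me (fun u => ∏ j ∈ (range N).erase i, (t j - u)) (x k) (x l))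
    (Matrix.of fun k l : Fin m => Gd2_Me (fun u => -u * ∏ j ∈ (range N).erase i, (t j - u)) (x k) (x l))
  refine ⟨Q, h1, fun y => ?_⟩
  rw [← h2 y]
  unfold Gd
  congr 2
  ext k l
  have h : PU N (Function.update t i y) = fun u => (y - u) * ∏ j ∈ (range N).erase i, (t j - u) :=
    funext fun u => Gd2_PU_update hi t y u
  have h3 := Gd2_Me_lin (fun u => ∏ j ∈ (range N).erase i, (t j - u)) y (x k) (x l)
  simp only [Matrix.of_apply, Matrix.add_apply, Matrix.smul_apply, smul_eq_mul]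
  rw [← h3, ← h]
  rfl

/-- the coefficient of `t_N^m` in `Gd (N+1) m` is `Gd N m` -/
theorem Gd_top (N m : ℕ) (t x : ℕ → ℝ) :
    ∃ Q : Polynomial ℝ, Q.natDegree ≤ m ∧ (∀ y, Gd (N + 1) m (Function.update t N y) x = Q.eval y) ∧
      Q.coeff m = Gd N m t x := by
  obtain ⟨Q, h1, h2, h4⟩ := Gd2_poly m
    ((∏ k ∈ range m, ∏ l ∈ range m, qq (XX (x k)) (XX (x l))) /
      (∏ k ∈ range m, ∏ l ∈ range k, (XX (x k) - XX (x l)) ^ 2))
    (Matrix.of fun k l : Fin m => Gd2_Me (fun u => ∏ j ∈ range N, (t j - u)) (x k) (x l))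
    (Matrix.of fun k l : Fin m => Gd2_Me (fun u => -u * ∏ j ∈ range N, (t j - u)) (x k) (x l))
  refine ⟨Q, h1, fun y => ?_, ?_⟩
  · rw [← h2 y]
    unfold Gd
    congr 2
    ext k l
    have h : PU (N + 1) (Function.update t N y) = fun u => (y - u) * ∏ j ∈ range N, (t j - u) := by
      funext u
      rw [Gd2_PU_update (Nat.lt_succ_self N), Finset.range_add_one, Finset.erase_insert (by simp)]
    have h3 := Gd2_Me_lin (fun u => ∏ j ∈ range N, (t j - u)) y (x k) (x l)
    simp only [Matrix.of_apply, Matrix.add_apply, Matrix.smul_apply, smul_eq_mul]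
    rw [← h3, ← h]
    rfl
  · rw [h4]
    rfl

/-- general position of the node: recursion at the partner of `x k`; `e` exchanges `0` and `k` -/
theorem Gd_rec' {N m i k : ℕ} (hi : i < N) (hk : k ≤ m) {x : ℕ → ℝ} (hx : Gp (m + 1) x) (p : Bool) (t : ℕ → ℝ)
    (ht : t i = UU p (x k)) :
    Gd N (m + 1) t x = (XX (x k) - UU (!p) (x k)) * (∏ j ∈ (range N).erase i, (t j - UU (!p) (x k))) *
      (∏ l ∈ (range (m + 1)).erase k, (XX (x l) - UU (!p) (x k)) ^ 2) *
      Gd N m (Function.update t i (XX (x k))) (fun j => x (Equiv.swap 0 k (j + 1))) := by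
  have hs : ∀ j, m + 1 ≤ j → Equiv.swap 0 k j = j := fun j hj =>
    Equiv.swap_apply_of_ne_of_ne (by omega) (by omega)
  have hlt : ∀ j, j < m + 1 → Equiv.swap 0 k j < m + 1 := fun j hj => Gd2_lt hs hj
  have hx' : Gp (m + 1) (fun j => x (Equiv.swap 0 k j)) := by
    refine ⟨fun j hj => hx.1 _ (hlt j hj), fun a ha b hb hab => ?_⟩
    have := hx.2 _ (hlt a ha) _ (hlt b hb) hab
    exact (Equiv.swap 0 k).injective this
  have h1 := Gd_rec (N := N) (m := m) (i := i) hi hx' p t (by rw [Equiv.swap_apply_left]; exact ht)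
  rw [Gd_perm N (m + 1) (Equiv.swap 0 k) hs] at h1
  rw [h1]
  simp only [Equiv.swap_apply_left]
  congr 2
  have h2 : ∏ l ∈ range (m + 1), (if l = k then (1 : ℝ) else (XX (x l) - UU (!p) (x k)) ^ 2) =
      ∏ l ∈ (range (m + 1)).erase k, (XX (x l) - UU (!p) (x k)) ^ 2 := by
    rw [← Finset.mul_prod_erase _ _ (mem_range.2 (Nat.lt_succ_of_le hk)), if_pos rfl, one_mul]
    exact Finset.prod_congr rfl fun l hl => by rw [if_neg (Finset.ne_of_mem_erase hl)]
  rw [← h2, ← Gd2_prod (Equiv.swap 0 k) hs (fun l => if l = k then (1 : ℝ) else (XX (x l) - UU (!p) (x k)) ^ 2),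
    Finset.prod_range_succ', Equiv.swap_apply_left, if_pos rfl, mul_one]
  refine Finset.prod_congr rfl fun l _ => ?_
  rw [if_neg]
  intro h
  have := (Equiv.swap 0 k).injective (h.trans (Equiv.swap_apply_left 0 k).symm)
  omega
end IPK
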