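import Pool.Agent.Helper78.K.Defs
/-! MODULE K.RecP: the recursion `V_rec` in the reflecting specialisation. -/
namespace IPK
open IP Finset

/-- `s(y - x) s(-y - x) = (2 cos 2y - 2 cos (2x - 2π/3)) / 4` -/
theorem ss_eq (x y : ℝ) : s (y - x) * s (-y - x) = (XX y - UU false x) / 4 := by
  unfold s XX UU
  have h1 : Real.sin (Real.pi / 3 + (y - x)) * Real.sin (Real.pi / 3 + (-y - x)) =
      (Real.cos (2 * y) - Real.cos (2 * x - 2 * Real.pi / 3)) / 2 := by
    have h2 : (2 : ℝ) * y = (Real.pi / 3 + (y - x)) - (Real.pi / 3 + (-y - x)) := by ring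
    have h3 : 2 * x - 2 * Real.pi / 3 = -((Real.pi / 3 + (y - x)) + (Real.pi / 3 + (-y - x))) := by ring
    rw [h3, Real.cos_neg, h2]
    generalize Real.pi / 3 + (y - x) = A
    generalize Real.pi / 3 + (-y - x) = B
    rw [Real.cos_sub, Real.cos_add]
    ring
  rw [h1]
  have h4 : 2 * x + (if (false : Bool) then (1 : ℝ) else -1) * (2 * Real.pi / 3) = 2 * x - 2 * Real.pi / 3 := by
    simp; ring
  rw [h4]
  ring

theorem rp_XX_neg (x : ℝ) : XX (-x) = XX x := by
  unfold XX
  rw [show 2 * -x = -(2 * x) by ring, Real.cos_neg]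

theorem rp_pb_left {l m j : ℕ} (x c : ℕ → ℝ) (h : j < l) : pb l m x c j = c j := by
  unfold pb
  rw [if_pos h]

theorem rp_pb_0 {l m k : ℕ} (x c : ℕ → ℝ) (h : k < m) : pb l m x c (l + 2 * k) = -x k := by
  unfold pb
  rw [if_neg (by omega), if_pos (by omega), if_pos (by omega)]
  congr 2
  omega

theorem rp_pb_1 {l m k : ℕ} (x c : ℕ → ℝ) (h : k < m) : pb l m x c (l + 2 * k + 1) = x k := by
  unfold pb
  rw [if_neg (by omega), if_pos (by omega), if_neg (by omega)]
  congr 1
  omega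

theorem rp_pb_right {l m : ℕ} (x c : ℕ → ℝ) (r : ℕ) : pb l m x c (l + 2 * m + r) = c (l + r) := by
  unfold pb
  rw [if_neg (by omega), if_neg (by omega)]
  congr 1
  omega

theorem rp_cases (l m j : ℕ) : j < l ∨ (∃ k < m, j = l + 2 * k) ∨ (∃ k < m, j = l + 2 * k + 1) ∨
    ∃ r, j = l + 2 * m + r := by
  rcases lt_or_ge j l with h | h
  · exact Or.inl h
  · rcases lt_or_ge j (l + 2 * m) with h2 | h2
    · rcases Nat.even_or_odd (j - l) with ⟨k, hk⟩ | ⟨k, hk⟩
      · exact Or.inr (Or.inl ⟨k, by omega, by omega⟩)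
      · exact Or.inr (Or.inr (Or.inl ⟨k, by omega, by omega⟩))
    · exact Or.inr (Or.inr (Or.inr ⟨j - (l + 2 * m), by omega⟩))

theorem rp_prod_pairs (l m : ℕ) (x c : ℕ → ℝ) (F : ℝ → ℝ) (k : ℕ) (hk : k ≤ m) :
    ∏ j ∈ range (2 * k), F (pb l m x c (l + j)) = ∏ i ∈ range k, (F (-x i) * F (x i)) := by
  induction k with
  | zero => simp
  | succ k ih =>
    rw [show 2 * (k + 1) = 2 * k + 1 + 1 by ring, prod_range_succ, prod_range_succ, ih (by omega),
      prod_range_succ, rp_pb_0 x c (by omega), show l + (2 * k + 1) = l + 2 * k + 1 by ring,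
      rp_pb_1 x c (by omega), mul_assoc]

theorem rp_prod (l r m : ℕ) (x c : ℕ → ℝ) (F : ℝ → ℝ) :
    ∏ j ∈ range (l + r + 2 * m), F (pb l m x c j) =
      (∏ j ∈ range (l + r), F (c j)) * ∏ i ∈ range m, (F (-x i) * F (x i)) := by
  rw [show l + r + 2 * m = l + (2 * m + r) by ring, prod_range_add, prod_range_add, prod_range_add,
    rp_prod_pairs l m x c F m le_rfl]
  have h1 : ∏ j ∈ range l, F (pb l m x c j) = ∏ j ∈ range l, F (c j) :=
    prod_congr rfl fun j hj => by rw [rp_pb_left x c (mem_range.1 hj)]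
  have h2 : ∏ j ∈ range r, F (pb l m x c (l + (2 * m + j))) = ∏ j ∈ range r, F (c (l + j)) :=
    prod_congr rfl fun j _ => by rw [← add_assoc, rp_pb_right x c j]
  rw [h1, h2]
  ring

theorem rp_K {n l m N i : ℕ} (hN : N + 2 * m = 2 * n + 1) (hl : l ≤ N) (hi : i + 1 ≤ 2 * n + 2) (b x c : ℕ → ℝ)
    (y : ℝ) (hb : ∀ z, s (z - b i) * s (-z - b i) = (XX z - UU false y) / 4)
    (hr : rem i b = pb l m x c) :
    K (n + 1) i b = (∏ j ∈ range N, ((XX (c j) - UU false y) / 4)) *
      ∏ k ∈ range m, ((XX (x k) - UU false y) / 4) ^ 2 := by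
  rw [K_eq hi, KK, ← hN, hr]
  obtain ⟨r, rfl⟩ : ∃ r, N = l + r := ⟨N - l, by omega⟩
  rw [rp_prod l r m x c (fun z => s (z - b i) * s (-z - b i))]
  congr 1
  · exact prod_congr rfl fun j _ => hb _
  · refine prod_congr rfl fun j _ => ?_
    rw [hb, hb, rp_XX_neg]
    ring

theorem rp_erase {N l : ℕ} (hl : l < N) (c : ℕ → ℝ) (z y : ℝ) :
    (∏ j ∈ range N, ((XX (Function.update c l z j) - UU false y) / 4)) =
      (XX z - UU false y) / 4 * ∏ j ∈ (range N).erase l, ((XX (c j) - UU false y) / 4) := by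
  rw [← mul_prod_erase (range N) _ (mem_range.2 hl), Function.update_self]
  congr 1
  refine prod_congr rfl fun j hj => ?_
  rw [Function.update_of_ne (ne_of_mem_erase hj)]

/-- right: the special strand `c l` next to the last pair, `c l = x m + π/3`.  `N` = number of special strands,
`2 n + 1 = N + 2 m`. -/
theorem rec_right {n l m N : ℕ} (hN : N + 2 * m = 2 * n + 1) (hl : l < N) {f f' : M →ₗ[ℝ] ℝ}
    (hf : ∀ v ∈ Sup (W n), f (In (l + 2 * m + 1) v) = f' v) (x c : ℕ → ℝ) (h : c l = x m + Real.pi / 3) :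
    f (V (n + 1) (pb l (m + 1) x c)) =
      ((XX (x m) - UU false (x m)) / 4 * (∏ j ∈ (range N).erase l, ((XX (c j) - UU false (x m)) / 4)) *
        ∏ k ∈ range m, ((XX (x k) - UU false (x m)) / 4) ^ 2) *
      f' (V n (pb l m x (Function.update c l (-x m)))) := by
  set b := pb l (m + 1) x c with hbd
  have hb0 : b (l + 2 * m + 1) = x m := rp_pb_1 x c (by omega)
  have hb1 : b (l + 2 * m + 1 + 1) = c l := by
    have := rp_pb_right (l := l) (m := m + 1) x c 0
    rw [show l + 2 * (m + 1) + 0 = l + 2 * m + 1 + 1 by ring] at this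
    exact this
  have hi : l + 2 * m + 1 + 1 ≤ 2 * n + 2 := by omega
  have hrem : rem (l + 2 * m + 1) b = pb l m x (Function.update c l (-x m)) := by
    funext j
    rcases rp_cases l m j with h1 | ⟨k, hk, rfl⟩ | ⟨k, hk, rfl⟩ | ⟨r, rfl⟩
    · unfold rem
      rw [if_pos (by omega), rp_pb_left x _ h1, hbd, rp_pb_left x c h1, Function.update_of_ne (by omega)]
    · unfold rem
      rw [if_pos (by omega), rp_pb_0 x _ hk, hbd, rp_pb_0 x c (by omega)]
    · unfold rem
      rw [if_pos (by omega), rp_pb_1 x _ hk, hbd, rp_pb_1 x c (by omega)]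
    · rw [rp_pb_right]
      unfold rem
      rcases Nat.eq_zero_or_pos r with h0 | h0
      · subst h0
        rw [if_pos (by omega), hbd, add_zero, add_zero, rp_pb_0 x c (by omega), Function.update_self]
      · rw [if_neg (by omega), hbd, Function.update_of_ne (by omega),
          show l + 2 * m + r + 2 = l + 2 * (m + 1) + r by ring, rp_pb_right]
  rw [V_rec hi b (by rw [hb1, hb0, h]), map_smul, smul_eq_mul, hf _ (V_Sup n _), hrem]
  congr 1
  rw [rp_K hN hl.le hi b x (Function.update c l (-x m)) (x m) (fun z => by rw [hb0]; exact ss_eq _ _) hrem,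
    rp_erase hl, rp_XX_neg]

/-- left: the special strand `c l` (now `l + 1` special strands on the left) next to the first pair,
`c l = -x 0 - π/3` -/
theorem rec_left {n l m N : ℕ} (hN : N + 2 * m = 2 * n + 1) (hl : l < N) {f f' : M →ₗ[ℝ] ℝ}
    (hf : ∀ v ∈ Sup (W n), f (In l v) = f' v) (x c : ℕ → ℝ) (h : c l = -x 0 - Real.pi / 3) :
    f (V (n + 1) (pb (l + 1) (m + 1) x c)) =
      ((XX (x 0) - UU false (x 0)) / 4 * (∏ j ∈ (range N).erase l, ((XX (c j) - UU false (x 0)) / 4)) *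
        ∏ k ∈ range m, ((XX (x (k + 1)) - UU false (x 0)) / 4) ^ 2) *
      f' (V n (pb (l + 1) m (fun k => x (k + 1)) (Function.update c l (x 0)))) := by
  set b := pb (l + 1) (m + 1) x c with hbd
  have hb0 : b l = c l := rp_pb_left x c (by omega)
  have hb1 : b (l + 1) = -x 0 := rp_pb_0 (k := 0) x c (by omega)
  have hi : l + 1 ≤ 2 * n + 2 := by omega
  have hrem : rem l b = pb (l + 1) m (fun k => x (k + 1)) (Function.update c l (x 0)) := by
    funext j
    rcases rp_cases (l + 1) m j with h1 | ⟨k, hk, rfl⟩ | ⟨k, hk, rfl⟩ | ⟨r, rfl⟩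
    · rw [rp_pb_left _ _ h1]
      unfold rem
      rcases eq_or_lt_of_le (Nat.lt_succ_iff.1 h1) with h0 | h0
      · subst h0
        rw [if_neg (by omega), Function.update_self, hbd]
        exact rp_pb_1 (k := 0) x c (by omega)
      · rw [if_pos h0, Function.update_of_ne (by omega), hbd, rp_pb_left x c (by omega)]
    · rw [rp_pb_0 _ _ hk]
      unfold rem
      rw [if_neg (by omega), hbd, show l + 1 + 2 * k + 2 = l + 1 + 2 * (k + 1) by ring,
        rp_pb_0 x c (by omega)]
    · rw [rp_pb_1 _ _ hk]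
      unfold rem
      rw [if_neg (by omega), hbd, show l + 1 + 2 * k + 1 + 2 = l + 1 + 2 * (k + 1) + 1 by ring,
        rp_pb_1 x c (by omega)]
    · rw [rp_pb_right, Function.update_of_ne (by omega)]
      unfold rem
      rw [if_neg (by omega), hbd, show l + 1 + 2 * m + r + 2 = l + 1 + 2 * (m + 1) + r by ring,
        rp_pb_right]
  rw [V_rec hi b (by rw [hb1, hb0, h]; ring), map_smul, smul_eq_mul, hf _ (V_Sup n _), hrem]
  congr 1
  rw [rp_K hN (Nat.succ_le_of_lt hl) hi b (fun k => x (k + 1)) (Function.update c l (x 0)) (x 0) (fun z => by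
      rw [hb0, h, ← ss_eq, show z - (-x 0 - Real.pi / 3) = (z + x 0) + Real.pi / 3 by ring,
        show -z - (-x 0 - Real.pi / 3) = (-z + x 0) + Real.pi / 3 by ring, s_add_pi_third, s_add_pi_third,
        mul_comm]
      congr 2 <;> ring) hrem,
    rp_erase hl]
end IPK
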