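import Pool.Agent.Helper78.K.Gd2
import Pool.Agent.Helper78.K.Pairs
import Pool.Agent.Helper78.K.RecP
import Pool.Agent.Helper78.K.Fun
import Pool.Agent.Helper78.K.Node
/-! MODULE K.N3: corner - opposite side, three special strands: `c 0 = 0`, `c 1` on the left, `c 2` on the right.
Induction on `m` (`m = 0`: `V_top`, the set `A3 1 ∩ W 1` is `{top 1}`).  Both sides are trigonometric polynomials of
degree `2 m + 2` in `c 1` (`F` = left side: `V_Sep`; right side: `s (-c 1) ^ 2` times `tp_of_poly`).  Nodes: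
`c 1 = π/3`: both sides vanish (`kill_sw` with `E_0`; `s (-π/3) = 0`);
`c 1 = ∓ x k - π/3`: `rec_left` (after `pb_perm`, `pb_neg`) and `Gd_rec'`;
`c 1 = ± x k + π/3`: from `F(-c 1) s(-c 1)^2 = F(c 1) s(c 1)^2` (`kill_sw`, `V_ngL`).  `4 m + 1 > 2 m + 2` nodes for `m ≥ 1`. -/
namespace IPK
open IP Finset

theorem N3_top {σ : St} (h1 : σ ∈ W 1) (h2 : σ 0 1) : σ = top 1 := by
  have h3 : ∀ i, σ 0 i := by
    intro i
    rcases Nat.eq_zero_or_pos i with rfl | hi
    · exact σ.refl 0
    · exact σ.trans h2 (h1 1 i le_rfl hi)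
  ext i j
  constructor
  · intro _
    show i = j ∨ min i 1 + min j 1 = 1 ∨ (1 ≤ i ∧ 1 ≤ j)
    omega
  · intro _
    exact σ.trans (σ.symm (h3 i)) (h3 j)

theorem N3_base (c : ℕ → ℝ) : ind (A3 1) (V 1 c) = s (c 0 - c 1) * s (-c 0 - c 1) := by
  classical
  have h0 : f0 1 c = s (c 0 - c 1) * s (-c 0 - c 1) := by
    unfold f0
    simp [Finset.prod_range_succ]
  rw [← h0, ← V_top, fun_ind_eq, Finsupp.sum]
  have key : ∀ σ ∈ (V 1 c).support, (if σ ∈ A3 1 then V 1 c σ else 0) = if σ = top 1 then V 1 c σ else 0 := by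
    intro σ hσ
    have hW : σ ∈ W 1 := (Finsupp.mem_supported ℝ (V 1 c)).1 (V_Sup 1 c) hσ
    by_cases h : σ ∈ A3 1
    · rw [if_pos h, if_pos (N3_top hW h)]
    · rw [if_neg h, if_neg]
      rintro rfl
      apply h
      show 0 = 1 ∨ min 0 1 + min 1 1 = 1 ∨ (1 ≤ 0 ∧ 1 ≤ 1)
      omega
  rw [Finset.sum_congr rfl key, Finset.sum_ite_eq']
  split_ifs with h
  · rfl
  · exact (Finsupp.notMem_support_iff.1 h).symm

theorem N3_pb_update {l m : ℕ} (x c : ℕ → ℝ) {j : ℕ} (h : j < l) (y : ℝ) :
    pb l m x (Function.update c j y) = Function.update (pb l m x c) j y := by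
  funext i
  by_cases hi : i = j
  · subst hi; rw [pb_left _ _ h, Function.update_self, Function.update_self]
  · rw [Function.update_of_ne hi]
    rcases pb_cases l m i with h' | ⟨k, hk, rfl⟩ | ⟨k, hk, rfl⟩ | h'
    · rw [pb_left _ _ h', pb_left _ _ h', Function.update_of_ne hi]
    · rw [pb_pair0 _ _ hk, pb_pair0 _ _ hk]
    · rw [pb_pair1 _ _ hk, pb_pair1 _ _ hk]
    · rw [pb_right _ _ h', pb_right _ _ h', Function.update_of_ne]; omega

theorem N3_abs {m : ℕ} {x : ℕ → ℝ} (hx : Gp m x) : ∀ k < m, |x k| < Real.pi / 12 := fun k hk =>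
  abs_lt.2 ⟨by have := hx.1 k hk; have := Real.pi_pos; linarith, (hx.1 k hk).2⟩

theorem N3_swap_succ {m k : ℕ} (hk : k ≤ m) (j : ℕ) (hj : j < m) : Equiv.swap 0 k (j + 1) < m + 1 ∧
    Equiv.swap 0 k (j + 1) ≠ k := by
  constructor
  · rw [Equiv.swap_apply_def]; split_ifs <;> omega
  · intro h
    have := (Equiv.swap 0 k).injective (h.trans (Equiv.swap_apply_left 0 k).symm)
    omega

theorem N3_Gp {m k : ℕ} (hk : k ≤ m) {x : ℕ → ℝ} (hx : Gp (m + 1) x) :
    Gp m (fun j => x (Equiv.swap 0 k (j + 1))) := by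
  refine ⟨fun j hj => hx.1 _ (N3_swap_succ hk j hj).1, fun a ha b hb hab => ?_⟩
  have := hx.2 _ (N3_swap_succ hk a ha).1 _ (N3_swap_succ hk b hb).1 hab
  have := (Equiv.swap 0 k).injective this
  omega

theorem N3_UU_neg (p : Bool) (x : ℝ) : UU p (-x) = UU (!p) x := by
  unfold UU
  congr 1
  rw [← Real.cos_neg]
  congr 1
  cases p <;> simp <;> ring

/-- general position of the special strand at the left: `c l = ∓ x k - π/3` (`p = true`: `-x k`) -/
theorem N3_rec {n l m N k : ℕ} (hN : N + 2 * m = 2 * n + 1) (hl : l < N) (hk : k ≤ m) {f f' : M →ₗ[ℝ] ℝ}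
    (hf : ∀ v ∈ Sup (W n), f (In l v) = f' v)
    (hf2 : ∀ k < m + 1, ∀ v ∈ Sup (W (n + 1)), f (E (l + 1 + 2 * k) v) = f v) {x : ℕ → ℝ} (hx : Gp (m + 1) x)
    (c : ℕ → ℝ) (p : Bool) (h : c l = (if p then -x k else x k) - Real.pi / 3) :
    f (V (n + 1) (pb (l + 1) (m + 1) x c)) =
      ((XX (x k) - UU (!p) (x k)) / 4 * (∏ j ∈ (range N).erase l, ((XX (c j) - UU (!p) (x k)) / 4)) *
        ∏ l ∈ (range (m + 1)).erase k, ((XX (x l) - UU (!p) (x k)) / 4) ^ 2) *
      f' (V n (pb (l + 1) m (fun j => x (Equiv.swap 0 k (j + 1)))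
        (Function.update c l (if p then x k else -x k)))) := by
  set x1 : ℕ → ℝ := Function.update x k (if p then x k else -x k) with hx1
  have hle : l + 1 + 2 * (m + 1) ≤ 2 * (n + 1) + 1 := by omega
  have e1 : f (V (n + 1) (pb (l + 1) (m + 1) x1 c)) = f (V (n + 1) (pb (l + 1) (m + 1) x c)) := by
    cases p with
    | true => simp [hx1]
    | false =>
      simp only [hx1, Bool.false_eq_true, if_false]
      exact pb_neg hle hf2 (N3_abs hx) c k (by omega)
  have hx1a : ∀ j < m + 1, |x1 j| < Real.pi / 12 := by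
    intro j hj
    by_cases hjk : j = k
    · subst hjk
      rw [hx1, Function.update_self]
      have := N3_abs hx j hj
      cases p <;> simpa using this
    · rw [hx1, Function.update_of_ne hjk]
      exact N3_abs hx j hj
  have e2 := pb_perm hle hf2 hx1a c 0 k (by omega) (by omega)
  rw [← e1, ← e2]
  have h0 : x1 (Equiv.swap 0 k 0) = (if p then x k else -x k) := by
    rw [Equiv.swap_apply_left, hx1, Function.update_self]
  have hj : ∀ j < m, x1 (Equiv.swap 0 k (j + 1)) = x (Equiv.swap 0 k (j + 1)) := fun j hj => by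
    rw [hx1, Function.update_of_ne (N3_swap_succ hk j hj).2]
  have e3 := rec_left hN hl hf (fun j => x1 (Equiv.swap 0 k j)) c (by
    simp only [h0]; rw [h]; cases p <;> simp)
  rw [e3]
  simp only [h0]
  have hXX : XX (if p then x k else -x k) = XX (x k) := by
    cases p
    · simp [rp_XX_neg]
    · simp
  have hUU : UU false (if p then x k else -x k) = UU (!p) (x k) := by
    cases p
    · simp [N3_UU_neg]
    · simp
  rw [hXX, hUU]
  congr 1
  · congr 1
    have h2 : ∏ l ∈ range (m + 1), (if l = k then (1 : ℝ) else ((XX (x l) - UU (!p) (x k)) / 4) ^ 2) =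
        ∏ l ∈ (range (m + 1)).erase k, ((XX (x l) - UU (!p) (x k)) / 4) ^ 2 := by
      rw [← Finset.mul_prod_erase _ _ (mem_range.2 (Nat.lt_succ_of_le hk)), if_pos rfl, one_mul]
      exact Finset.prod_congr rfl fun l hl => by rw [if_neg (Finset.ne_of_mem_erase hl)]
    have hs : ∀ j, m + 1 ≤ j → Equiv.swap 0 k j = j := fun j hj =>
      Equiv.swap_apply_of_ne_of_ne (by omega) (by omega)
    rw [← h2, ← Gd2_prod (Equiv.swap 0 k) hs (fun l => if l = k then (1 : ℝ) else
      ((XX (x l) - UU (!p) (x k)) / 4) ^ 2), Finset.prod_range_succ', Equiv.swap_apply_left, if_pos rfl, mul_one]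
    refine Finset.prod_congr rfl fun j hj' => ?_
    rw [if_neg (N3_swap_succ hk j (mem_range.1 hj')).2, hj j (mem_range.1 hj')]
  · congr 2
    funext i
    rcases pb_cases (l + 1) m i with h' | ⟨k, hk, rfl⟩ | ⟨k, hk, rfl⟩ | h'
    · rw [pb_left _ _ h', pb_left _ _ h']
    · rw [pb_pair0 _ _ hk, pb_pair0 _ _ hk, hj _ hk]
    · rw [pb_pair1 _ _ hk, pb_pair1 _ _ hk, hj _ hk]
    · rw [pb_right _ _ h', pb_right _ _ h']

theorem N3_XX_node (p : Bool) (x : ℝ) : XX ((if p then -x else x) - Real.pi / 3) = UU p x := by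
  unfold XX UU
  cases p
  · simp only [Bool.false_eq_true, if_false]
    congr 2; ring
  · simp only [if_true]
    rw [← Real.cos_neg]
    congr 2; ring

theorem N3_prod_const {N m k : ℕ} (hN : 1 < N) (hk : k ≤ m) (a : ℕ → ℝ) (b : ℕ → ℝ) :
    (∏ j ∈ (range N).erase 1, (a j / 4)) * (∏ l ∈ (range (m + 1)).erase k, (b l / 4) ^ 2) =
      (4 ^ (N - 1 + 2 * m))⁻¹ * ((∏ j ∈ (range N).erase 1, a j) * ∏ l ∈ (range (m + 1)).erase k, b l ^ 2) := by
  have h1 : ((range N).erase 1).card = N - 1 := by
    rw [Finset.card_erase_of_mem (mem_range.2 hN), Finset.card_range]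
  have h2 : ((range (m + 1)).erase k).card = m := by
    rw [Finset.card_erase_of_mem (mem_range.2 (Nat.lt_succ_of_le hk)), Finset.card_range]; rfl
  rw [Finset.prod_div_distrib, Finset.prod_const, h1]
  simp only [div_pow]
  rw [Finset.prod_div_distrib, Finset.prod_const, h2, pow_add, pow_mul]
  field_simp

/-- a node on the left -/
theorem N3_node {m k : ℕ} (hk : k ≤ m) {x : ℕ → ℝ} (hx : Gp (m + 1) x)
    (ih : ∀ {x : ℕ → ℝ}, Gp m x → ∀ c : ℕ → ℝ, c 0 = 0 → ind (A3 (m + 1)) (V (m + 1) (pb 2 m x c)) =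
      s (-c 1) ^ 2 * (4 ^ (m ^ 2 + 2 * m))⁻¹ * Gd 3 m (fun j => XX (c j)) x)
    (c : ℕ → ℝ) (h0 : c 0 = 0) (p : Bool) (h : c 1 = (if p then -x k else x k) - Real.pi / 3) :
    ind (A3 (m + 1 + 1)) (V (m + 1 + 1) (pb 2 (m + 1) x c)) =
      s (-c 1) ^ 2 * (4 ^ ((m + 1) ^ 2 + 2 * (m + 1)))⁻¹ * Gd 3 (m + 1) (fun j => XX (c j)) x := by
  have e1 := N3_rec (n := m + 1) (l := 1) (m := m) (N := 3) (k := k) (by ring) (by norm_num) hk
    (f := ind (A3 (m + 1 + 1))) (f' := ind (A3 (m + 1))) (fun v hv => A3_In (by omega) hv)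
    (fun j hj v hv => by
      rw [show 1 + 1 + 2 * j = 2 * (j + 1) by ring]
      exact A3_E (by omega) (by omega) hv) hx c p h
  rw [show (1 : ℕ) + 1 = 2 by norm_num] at e1
  have e2 := ih (N3_Gp hk hx) (Function.update c 1 (if p then x k else -x k)) (by
    rw [Function.update_of_ne (by norm_num)]; exact h0)
  rw [Function.update_self] at e2
  have hz : (if p then x k else -x k) = -(c 1 + Real.pi / 3) := by rw [h]; cases p <;> simp
  have e3 : s (-(if p then x k else -x k)) = s (-c 1) := by
    rw [hz, neg_neg, s_add_pi_third]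
  have e4 := Gd_rec' (N := 3) (m := m) (i := 1) (k := k) (by norm_num) hk hx p (fun j => XX (c j)) (by
    rw [h, N3_XX_node])
  have e5 : Gd 3 m (fun j => XX (Function.update c 1 (if p then x k else -x k) j))
      (fun j => x (Equiv.swap 0 k (j + 1))) =
      Gd 3 m (Function.update (fun j => XX (c j)) 1 (XX (x k))) (fun j => x (Equiv.swap 0 k (j + 1))) := by
    congr 1
    funext j
    by_cases hj : j = 1
    · subst hj
      rw [Function.update_self, Function.update_self]
      cases p
      · simp [rp_XX_neg]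
      · simp
    · rw [Function.update_of_ne hj, Function.update_of_ne hj]
  rw [e1, e2, e3, e4, e5, mul_assoc ((XX (x k) - UU (!p) (x k)) / 4),
    N3_prod_const (N := 3) (by norm_num) hk (fun j => XX (c j) - UU (!p) (x k)) (fun l => XX (x l) - UU (!p) (x k))]
  have h4 : (4 : ℝ) ^ ((m + 1) ^ 2 + 2 * (m + 1)) = 4 ^ (m ^ 2 + 2 * m) * (4 * 4 ^ (3 - 1 + 2 * m)) := by
    rw [← pow_succ', ← pow_add]
    congr 1
    ring
  rw [h4]
  have h5 : (4 : ℝ) ^ (m ^ 2 + 2 * m) ≠ 0 := by positivity
  have h6 : (4 : ℝ) ^ (3 - 1 + 2 * m) ≠ 0 := by positivity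
  rw [mul_inv, mul_inv]
  ring

theorem N3_ref {m : ℕ} (x c : ℕ → ℝ) (h0 : c 0 = 0) (y : ℝ) :
    ind (A3 (m + 1)) (V (m + 1) (pb 2 m x (Function.update c 1 y))) * s y ^ 2 =
      ind (A3 (m + 1)) (V (m + 1) (pb 2 m x (Function.update c 1 (-y)))) * s (-y) ^ 2 := by
  have hE : ∀ v ∈ Sup (W (m + 1)), ind (A3 (m + 1)) (E 0 v) = 0 := fun v hv => A3_E0 (by omega) hv
  have k1 : ∀ z, s (-z) * ind (A3 (m + 1)) (V (m + 1) (sw 0 (pb 2 m x (Function.update c 1 z)))) =
      s z * ind (A3 (m + 1)) (V (m + 1) (pb 2 m x (Function.update c 1 z))) := by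
    intro z
    have h := kill_sw (n := m + 1) (i := 0) (by omega) hE (pb 2 m x (Function.update c 1 z))
    have a0 : pb 2 m x (Function.update c 1 z) 0 = 0 := by
      rw [pb_left _ _ (by norm_num), Function.update_of_ne (by norm_num), h0]
    have a1 : pb 2 m x (Function.update c 1 z) (0 + 1) = z := by
      rw [pb_left _ _ (by norm_num), Function.update_self]
    rw [a0, a1, zero_sub, sub_zero] at h
    exact h
  have k2 : V (m + 1) (sw 0 (pb 2 m x (Function.update c 1 (-y)))) =
      V (m + 1) (sw 0 (pb 2 m x (Function.update c 1 y))) := by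
    rw [← V_ngL]
    congr 1
    funext j
    unfold ng
    by_cases hj : j = 0
    · subst hj
      rw [Function.update_self]
      show -(pb 2 m x (Function.update c 1 (-y)) (Equiv.swap 0 1 0)) =
        pb 2 m x (Function.update c 1 y) (Equiv.swap 0 1 0)
      rw [Equiv.swap_apply_left, pb_left _ _ (by norm_num), pb_left _ _ (by norm_num), Function.update_self,
        Function.update_self, neg_neg]
    · rw [Function.update_of_ne hj]
      show pb 2 m x (Function.update c 1 (-y)) (Equiv.swap 0 1 j) = pb 2 m x (Function.update c 1 y) (Equiv.swap 0 1 j)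
      have hj' : Equiv.swap 0 1 j ≠ 1 := by
        intro h
        apply hj
        rw [← Equiv.swap_apply_left 0 1] at h
        exact (Equiv.swap 0 1).injective h
      rw [N3_pb_update _ _ (by norm_num), N3_pb_update _ _ (by norm_num), Function.update_of_ne hj',
        Function.update_of_ne hj']
  have k3 := k1 y
  have k4 := k1 (-y)
  rw [k2, neg_neg] at k4
  linear_combination (-(s y)) * k3 + s (-y) * k4

theorem N3 (m : ℕ) {x : ℕ → ℝ} (hx : Gp m x) (c : ℕ → ℝ) (h0 : c 0 = 0) :
    ind (A3 (m + 1)) (V (m + 1) (pb 2 m x c)) =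
      s (-c 1) ^ 2 * (4 ^ (m ^ 2 + 2 * m))⁻¹ * Gd 3 m (fun j => XX (c j)) x := by
  induction m generalizing x c with
  | zero =>
    have e : pb 2 0 x c = c := by
      funext j
      rcases pb_cases 2 0 j with h | ⟨k, hk, _⟩ | ⟨k, hk, _⟩ | h
      · exact pb_left _ _ h
      · omega
      · omega
      · exact pb_right _ _ h
    rw [Gd_zero, e]
    have := N3_base c
    rw [h0, neg_zero, zero_sub] at this
    rw [show 0 + 1 = 1 by norm_num, this]
    norm_num
    ring
  | succ m ih =>
    -- the two functions of `y = c 1`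
    have hF : TP (2 * (m + 1 + 1)) (fun y => ind (A3 (m + 1 + 1)) (V (m + 1 + 1)
        (pb 2 (m + 1) x (Function.update c 1 y)))) := by
      have := (vs_Sep_lin (m + 1 + 1) (ind (A3 (m + 1 + 1)))).1 (pb 2 (m + 1) x c) 1 (by omega)
      simpa only [N3_pb_update x c (show 1 < 2 by norm_num)] using this
    obtain ⟨Q, hQ, hQ2⟩ := Gd_poly (N := 3) (m := m + 1) (i := 1) (by norm_num) (fun j => XX (c j)) x
    have hG : TP (2 * (m + 1 + 1)) (fun y => s (-y) ^ 2 * (4 ^ ((m + 1) ^ 2 + 2 * (m + 1)))⁻¹ *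
        Gd 3 (m + 1) (fun j => XX (Function.update c 1 y j)) x) := by
      have h1 := ((TP.s_sub 0).mul (TP.s_sub 0)).mul (TP.smul ((4 ^ ((m + 1) ^ 2 + 2 * (m + 1)))⁻¹) (tp_of_poly hQ))
      rw [show 1 + 1 + 2 * (m + 1) = 2 * (m + 1 + 1) by ring] at h1
      refine TP.tb_congr h1 fun y => ?_
      have h2 : (fun j => XX (Function.update c 1 y j)) = Function.update (fun j => XX (c j)) 1 (XX y) := by
        funext j
        by_cases hj : j = 1
        · subst hj; rw [Function.update_self, Function.update_self]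
        · rw [Function.update_of_ne hj, Function.update_of_ne hj]
      rw [h2, hQ2, zero_sub]
      ring
    have hpi := Real.pi_pos
    have node1 : ∀ k ≤ m, ∀ p : Bool, ind (A3 (m + 1 + 1)) (V (m + 1 + 1)
        (pb 2 (m + 1) x (Function.update c 1 ((if p then -x k else x k) - Real.pi / 3)))) =
        s (-((if p then -x k else x k) - Real.pi / 3)) ^ 2 * (4 ^ ((m + 1) ^ 2 + 2 * (m + 1)))⁻¹ *
        Gd 3 (m + 1) (fun j => XX (Function.update c 1 ((if p then -x k else x k) - Real.pi / 3) j)) x := by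
      intro k hk p
      have := N3_node hk hx ih (Function.update c 1 ((if p then -x k else x k) - Real.pi / 3))
        (by rw [Function.update_of_ne (by norm_num)]; exact h0) p (by rw [Function.update_self])
      rw [Function.update_self] at this
      exact this
    have node2 : ∀ k ≤ m, ∀ p : Bool, ind (A3 (m + 1 + 1)) (V (m + 1 + 1)
        (pb 2 (m + 1) x (Function.update c 1 ((if p then x k else -x k) + Real.pi / 3)))) =
        s (-((if p then x k else -x k) + Real.pi / 3)) ^ 2 * (4 ^ ((m + 1) ^ 2 + 2 * (m + 1)))⁻¹ *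
        Gd 3 (m + 1) (fun j => XX (Function.update c 1 ((if p then x k else -x k) + Real.pi / 3) j)) x := by
      intro k hk p
      set y := (if p then x k else -x k) + Real.pi / 3 with hy
      have hy' : -y = (if p then -x k else x k) - Real.pi / 3 := by rw [hy]; cases p <;> simp <;> ring
      have h1 := node1 k hk p
      rw [← hy', neg_neg] at h1
      have h2 := N3_ref (m := m + 1) x c h0 y
      rw [h1] at h2
      have h3 : XX (-y) = XX y := rp_XX_neg y
      have h4 : (fun j => XX (Function.update c 1 (-y) j)) = fun j => XX (Function.update c 1 y j) := by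
        funext j
        by_cases hj : j = 1
        · subst hj; rw [Function.update_self, Function.update_self, h3]
        · rw [Function.update_of_ne hj, Function.update_of_ne hj]
      rw [h4] at h2
      have hxk := hx.1 k (by omega)
      have h5 : s y ≠ 0 := by
        rw [hy, s_add_pi_third]
        apply ne_of_gt
        apply pairs_s_pos
        rw [abs_neg]
        cases p
        · simp only [Bool.false_eq_true, if_false, abs_neg]
          exact abs_lt.2 ⟨by linarith, by linarith⟩
        · simp only [if_true]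
          exact abs_lt.2 ⟨by linarith, by linarith⟩
      have h6 : s y ^ 2 ≠ 0 := pow_ne_zero 2 h5
      apply mul_right_cancel₀ h6
      rw [h2]
      ring
    have hsin : ∀ z : ℝ, 0 < z → z < Real.pi → Real.sin z ≠ 0 := fun z h1 h2 =>
      ne_of_gt (Real.sin_pos_of_pos_of_lt_pi h1 h2)
    have key := node_eq (m := m + 1) hF hG hx {Real.pi / 3} (by
        intro y hy z hz hne
        rw [Finset.mem_singleton] at hy hz
        exact absurd (hy.trans hz.symm) hne)
      (by
        intro y hy k hk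
        rw [Finset.mem_singleton] at hy
        subst hy
        have hxk := hx.1 k hk
        refine ⟨?_, ?_, ?_, ?_⟩
        · rw [show Real.pi / 3 - (x k + Real.pi / 3) = -(x k) by ring, Real.sin_neg]
          exact neg_ne_zero.2 (hsin _ (by linarith) (by linarith))
        · rw [show Real.pi / 3 - (-x k + Real.pi / 3) = x k by ring]
          exact hsin _ (by linarith) (by linarith)
        · exact hsin _ (by linarith) (by linarith)
        · exact hsin _ (by linarith) (by linarith))
      (by rw [Finset.card_singleton]; omega)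
      (by
        intro k hk
        refine ⟨?_, ?_, ?_, ?_⟩
        · simpa using node2 k (by omega) true
        · simpa using node2 k (by omega) false
        · simpa using node1 k (by omega) false
        · simpa using node1 k (by omega) true)
      (by
        intro y hy
        rw [Finset.mem_singleton] at hy
        subst hy
        have hE : ∀ v ∈ Sup (W (m + 1 + 1)), ind (A3 (m + 1 + 1)) (E 0 v) = 0 := fun v hv => A3_E0 (by omega) hv
        have h := kill_sw (n := m + 1 + 1) (i := 0) (by omega) hE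
          (pb 2 (m + 1) x (Function.update c 1 (Real.pi / 3)))
        have a0 : pb 2 (m + 1) x (Function.update c 1 (Real.pi / 3)) 0 = 0 := by
          rw [pb_left _ _ (by norm_num), Function.update_of_ne (by norm_num), h0]
        have a1 : pb 2 (m + 1) x (Function.update c 1 (Real.pi / 3)) (0 + 1) = Real.pi / 3 := by
          rw [pb_left _ _ (by norm_num), Function.update_self]
        have a2 : s (-(Real.pi / 3)) = 0 := by unfold s; simp
        rw [a0, a1, zero_sub, sub_zero, a2, zero_mul, rc_s_pi_third] at h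
        have h3 := (mul_eq_zero.1 h.symm).resolve_left (ne_of_gt rc_sin_pi_third_pos)
        rw [h3, a2]
        ring)
    have := key (c 1)
    rw [Function.update_eq_self] at this
    exact this

end IPK
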