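import Pool.Agent.Helper78.K.Pairs
import Pool.Agent.Helper78.K.RecP
import Pool.Agent.Helper78.K.Fun
import Pool.Agent.Helper78.K.Node
import Pool.Agent.Lead.IP.TrigC
/-! MODULE K.N5b: prefactor and base case (`n = 2`) for corner - corner. -/
namespace IPK
open IP Finset

/-- prefactor on the right -/
noncomputable def pre5 (c : ℕ → ℝ) : ℝ := s (c 2 - c 3) * s (c 2 + c 3) * (s (c 2 - c 4) * s (c 2 + c 4)) *
  (s (c 3 - c 4) * s (c 3 + c 4))

theorem n5_s_pi : s (Real.pi / 3) ≠ 0 := by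
  rw [rc_s_pi_third]; exact rc_sin_pi_third_pos.ne'
theorem n5_s_neg_pi : s (-(Real.pi / 3)) = 0 := by unfold s; simp

theorem n5_tp1 (y : ℝ) : TP 1 (fun x => s (x - y)) := by
  have := TP.s_add (-y)
  simpa [sub_eq_add_neg] using this
theorem n5_tp4 (y : ℝ) : TP 1 (fun x => s (y + x)) := by
  have := TP.s_add y
  simpa [add_comm] using this
theorem n5_tp5 (y : ℝ) : TP 1 (fun x => s (-x - y)) := by
  have := TP.s_sub (-y)
  have e : (fun x => s (-y - x)) = fun x => s (-x - y) := by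
    funext x; congr 1; ring
  rwa [e] at this

theorem n5_sepA {L i j : ℕ} (hi : i < L) (hj : j < L) (hij : i ≠ j) :
    Sep L 2 (fun b => s (b i - b j) * s (b i + b j)) :=
  Sep.of_TP2 (m := 1) hi hj hij (g := fun x y => s (x - y) * s (x + y))
    (fun y => (n5_tp1 y).mul (TP.s_add y)) (fun x => (TP.s_sub x).mul (n5_tp4 x))
theorem n5_sepB {L i j : ℕ} (hi : i < L) (hj : j < L) (hij : i ≠ j) :
    Sep L 2 (fun b => s (b i - b j) * s (-b i - b j)) :=
  Sep.of_TP2 (m := 1) hi hj hij (g := fun x y => s (x - y) * s (-x - y))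
    (fun y => (n5_tp1 y).mul (n5_tp5 y)) (fun x => (TP.s_sub x).mul (TP.s_sub (-x)))

/-- sums of the entries at the states in which 0 is not joined to the wall, one column -/
noncomputable def g1 : M →ₗ[ℝ] ℝ := tot - ind (A3 1)

theorem g1_apply (v : M) : g1 v = tot v - ind (A3 1) v := rfl

theorem g1_E1 {v : M} (hv : v ∈ Sup (W 1)) : g1 (E 1 v) = 0 := by
  classical
  have h : ind (A3 1) (E 1 v) = ind Set.univ v := by
    apply ind_map (B := W 1) (g := act 1) _ hv
    intro σ _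
    have h0 : act 1 σ = join 0 1 σ := act_odd 0 σ
    rw [h0, fun_mem3]
    exact ⟨fun _ => Set.mem_univ _, fun _ => join_rel _ _ _⟩
  rw [g1_apply, h, ind_univ, tot_E, sub_self]

theorem g1_In0 {v : M} (hv : v ∈ Sup (W 0)) : g1 (In 0 v) = tot v := by
  have h : ind (A3 1) (In 0 v) = 0 := by
    apply ind_map_zero (B := W 0) (g := ins 0) _ hv
    intro σ _ h
    have h0 : ins 0 σ = insS 0 σ := bb_ins_even 0 σ
    rw [h0, fun_mem3, bb_insS_iff] at h
    omega
  rw [g1_apply, h, sub_zero, tot_In]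

theorem n5_abs {x y : ℝ} (h : |x| < y) : -y < x ∧ x < y := abs_lt.1 h

theorem base1_node1 (b : ℕ → ℝ) (h : b 1 = b 2 - Real.pi / 3) : g1 (V 1 b) = 0 := by
  have h1 := kill_sw (n := 1) (i := 1) (by omega) (f := g1) (fun v hv => g1_E1 hv) b
  rw [show b 1 - b (1 + 1) = -(Real.pi / 3) by show b 1 - b 2 = _; rw [h]; ring, n5_s_neg_pi, zero_mul,
    show b (1 + 1) - b 1 = Real.pi / 3 by show b 2 - b 1 = _; rw [h]; ring] at h1
  exact (mul_eq_zero.1 h1.symm).resolve_left n5_s_pi

theorem base1_node2 (b : ℕ → ℝ) (h : b 1 = -b 2 - Real.pi / 3) : g1 (V 1 b) = 0 := by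
  have h1 := V_ngR 1 b
  rw [← h1]
  apply base1_node1
  unfold ng
  rw [show 2 * 1 = 2 by ring, Function.update_of_ne (by omega), Function.update_self, h]

theorem base1_node3 (b : ℕ → ℝ) (h : b 1 = b 0 + Real.pi / 3) :
    g1 (V 1 b) = s (b 1 - b 2) * s (b 1 + b 2) := by
  have h1 := V_rec (n := 0) (i := 0) (by omega) b h
  rw [zero_add] at h1
  rw [h1, map_smul, smul_eq_mul, g1_In0 (V_Sup 0 _), V_zero, tot_single, mul_one]
  have h2 := K_eq (n := 0) (i := 0) (by omega) b
  rw [zero_add] at h2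
  rw [h2]
  unfold KK
  have h3 : rem 0 b 0 = b 2 := by unfold rem; simp
  rw [show 2 * 0 + 1 = 1 by ring, prod_range_one, h3,
    show b 0 = b 1 - Real.pi / 3 by rw [h]; ring,
    show b 2 - (b 1 - Real.pi / 3) = (b 2 - b 1) + Real.pi / 3 by ring,
    show -b 2 - (b 1 - Real.pi / 3) = (-b 2 - b 1) + Real.pi / 3 by ring, s_add_pi_third, s_add_pi_third]
  congr 2 <;> ring

/-- `L = 3`: `Z 1 - f0 1 = s (b 1 - b 2) s (b 1 + b 2)` -/
theorem base1 (b : ℕ → ℝ) : tot (V 1 b) - ind (A3 1) (V 1 b) = s (b 1 - b 2) * s (b 1 + b 2) := by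
  have hpi := Real.pi_gt_three
  have hpi4 := Real.pi_lt_four
  have hS : Sep 3 2 (fun b => g1 (V 1 b) - s (b 1 - b 2) * s (b 1 + b 2)) :=
    (vs_Sep_lin 1 g1).sub (n5_sepA (by omega) (by omega) (by omega))
  have key := hS.eq_zero_box (fun j => if j = 2 then 1 / 10 else 0) (ε := 1 / 100) (by norm_num) ?_ b
  · have := sub_eq_zero.1 key
    rw [← g1_apply]; exact this
  intro c hc
  have c0 := n5_abs (hc 0)
  have c2 := n5_abs (hc 2)
  simp only [if_neg (show ¬ (0 = 2) by omega), if_true] at c0 c2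
  have hTP : TP 2 (fun y => g1 (V 1 (Function.update c 1 y)) -
      s (Function.update c 1 y 1 - Function.update c 1 y 2) * s (Function.update c 1 y 1 + Function.update c 1 y 2)) :=
    hS.1 c 1 (by omega)
  have hz := hTP.eq_zero {c 2 - Real.pi / 3, -c 2 - Real.pi / 3, c 0 + Real.pi / 3} ?_ ?_ ?_ (c 1)
  · rw [Function.update_eq_self] at hz
    exact hz
  · rw [card_insert_of_notMem, card_insert_of_notMem, card_singleton]
    · norm_num
    · rw [mem_singleton]; intro h; linarith [c0.1, c0.2, c2.1, c2.2]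
    · rw [mem_insert, mem_singleton]; rintro (h | h) <;> linarith [c0.1, c0.2, c2.1, c2.2]
  · intro x hx y hy hxy
    simp only [mem_insert, mem_singleton] at hx hy
    apply tb_sin_ne_zero_aux (sub_ne_zero.2 hxy)
    · rcases hx with rfl | rfl | rfl <;> rcases hy with rfl | rfl | rfl <;> linarith [c0.1, c0.2, c2.1, c2.2]
    · rcases hx with rfl | rfl | rfl <;> rcases hy with rfl | rfl | rfl <;> linarith [c0.1, c0.2, c2.1, c2.2]
  · intro y hy
    simp only [mem_insert, mem_singleton] at hy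
    have e2 : Function.update c 1 y 2 = c 2 := Function.update_of_ne (by omega) _ _
    have e1 : Function.update c 1 y 1 = y := Function.update_self _ _ _
    have e0 : Function.update c 1 y 0 = c 0 := Function.update_of_ne (by omega) _ _
    rcases hy with h | h | h
    · rw [base1_node1 _ (by rw [e1, e2, h]), e1, e2, h,
        show c 2 - Real.pi / 3 - c 2 = -(Real.pi / 3) by ring, n5_s_neg_pi]
      ring
    · rw [base1_node2 _ (by rw [e1, e2, h]), e1, e2, h,
        show -c 2 - Real.pi / 3 + c 2 = -(Real.pi / 3) by ring, n5_s_neg_pi]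
      ring
    · rw [base1_node3 _ (by rw [e1, e0, h])]
      ring

/-! ### right end -/

theorem n5_pb_sw (l m r : ℕ) (x c : ℕ → ℝ) : sw (l + 2 * m + r) (pb l m x c) = pb l m x (sw (l + r) c) := by
  funext j
  unfold sw
  rcases rp_cases l m j with h | ⟨k, hk, rfl⟩ | ⟨k, hk, rfl⟩ | ⟨q, rfl⟩
  · rw [Equiv.swap_apply_of_ne_of_ne (by omega) (by omega), rp_pb_left x _ h, rp_pb_left x _ h,
      Equiv.swap_apply_of_ne_of_ne (by omega) (by omega)]
  · rw [Equiv.swap_apply_of_ne_of_ne (by omega) (by omega), rp_pb_0 x _ hk, rp_pb_0 x _ hk]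
  · rw [Equiv.swap_apply_of_ne_of_ne (by omega) (by omega), rp_pb_1 x _ hk, rp_pb_1 x _ hk]
  · rw [rp_pb_right]
    by_cases h1 : q = r
    · subst h1
      rw [Equiv.swap_apply_left, Equiv.swap_apply_left, show l + 2 * m + q + 1 = l + 2 * m + (q + 1) by ring,
        rp_pb_right, show l + (q + 1) = l + q + 1 by ring]
    · by_cases h2 : q = r + 1
      · subst h2
        rw [show l + 2 * m + (r + 1) = l + 2 * m + r + 1 by ring, Equiv.swap_apply_right,
          show l + (r + 1) = l + r + 1 by ring, Equiv.swap_apply_right, rp_pb_right]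
      · rw [Equiv.swap_apply_of_ne_of_ne (by omega) (by omega), rp_pb_right,
          Equiv.swap_apply_of_ne_of_ne (by omega) (by omega)]

theorem n5_pb_ng (l m r : ℕ) (x c : ℕ → ℝ) : ng (l + 2 * m + r) (pb l m x c) = pb l m x (ng (l + r) c) := by
  funext j
  unfold ng
  rcases rp_cases l m j with h | ⟨k, hk, rfl⟩ | ⟨k, hk, rfl⟩ | ⟨q, rfl⟩
  · rw [Function.update_of_ne (by omega), rp_pb_left x _ h, rp_pb_left x _ h, Function.update_of_ne (by omega)]
  · rw [Function.update_of_ne (by omega), rp_pb_0 x _ hk, rp_pb_0 x _ hk]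
  · rw [Function.update_of_ne (by omega), rp_pb_1 x _ hk, rp_pb_1 x _ hk]
  · rw [rp_pb_right x _ q]
    by_cases h1 : q = r
    · subst h1
      rw [Function.update_self, Function.update_self, rp_pb_right]
    · rw [Function.update_of_ne (by omega), Function.update_of_ne (by omega), rp_pb_right]

theorem n5_chain (c : ℕ → ℝ) : sw 2 (sw 3 (ng 4 (sw 3 (sw 2 c)))) = Function.update c 2 (-c 2) := by
  funext j
  unfold sw ng
  by_cases h2 : j = 2
  · subst h2
    simp [Equiv.swap_apply_def, Function.update]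
  · by_cases h3 : j = 3
    · subst h3
      simp [Equiv.swap_apply_def, Function.update]
    · by_cases h4 : j = 4
      · subst h4
        simp [Equiv.swap_apply_def, Function.update]
      · rw [Equiv.swap_apply_of_ne_of_ne h2 (by omega), Equiv.swap_apply_of_ne_of_ne h3 (by omega),
          Function.update_of_ne h4, Equiv.swap_apply_of_ne_of_ne h3 (by omega),
          Equiv.swap_apply_of_ne_of_ne h2 (by omega), Function.update_of_ne h2]

theorem n5_kill {m : ℕ} (x c : ℕ → ℝ) (r : ℕ) (hr : r < 2) :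
    s (c (2 + r) - c (2 + r + 1)) * ind (A5 (m + 2)) (V (m + 2) (pb 2 m x (sw (2 + r) c))) =
      s (c (2 + r + 1) - c (2 + r)) * ind (A5 (m + 2)) (V (m + 2) (pb 2 m x c)) := by
  have h := kill_sw (n := m + 2) (i := 2 + 2 * m + r) (by omega) (f := ind (A5 (m + 2))) (fun v hv => by
    interval_cases r
    · have := A5_Ea (n := m + 2) (by omega) hv
      rwa [show 2 * (m + 2) - 2 = 2 + 2 * m + 0 by omega] at this
    · have := A5_Eb (n := m + 2) (by omega) hv
      rwa [show 2 * (m + 2) - 1 = 2 + 2 * m + 1 by omega] at this) (pb 2 m x c)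
  rw [n5_pb_sw, show 2 + 2 * m + r + 1 = 2 + 2 * m + (r + 1) by ring, rp_pb_right, rp_pb_right] at h
  exact h

/-- exchange and reflection relations of `ind (A5 n)`, `n = m + 2`, in the coordinates `c 2, c 3, c 4` -/
theorem A5_neg {m : ℕ} (x c : ℕ → ℝ) :
    ind (A5 (m + 2)) (V (m + 2) (pb 2 m x (Function.update c 2 (-c 2)))) *
        (s (c 2 - c 3) * s (c 2 + c 3) * (s (c 2 - c 4) * s (c 2 + c 4))) =
      ind (A5 (m + 2)) (V (m + 2) (pb 2 m x c)) *
        (s (-c 2 - c 3) * s (-c 2 + c 3) * (s (-c 2 - c 4) * s (-c 2 + c 4))) := by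
  have h1 := n5_kill (m := m) x c 0 (by omega)
  have h2 := n5_kill (m := m) x (sw 2 c) 1 (by omega)
  have h3 := n5_kill (m := m) x (ng 4 (sw 3 (sw 2 c))) 1 (by omega)
  have h4 := n5_kill (m := m) x (sw 3 (ng 4 (sw 3 (sw 2 c)))) 0 (by omega)
  have h5 : V (m + 2) (pb 2 m x (ng 4 (sw 3 (sw 2 c)))) = V (m + 2) (pb 2 m x (sw 3 (sw 2 c))) := by
    have := V_ngR (m + 2) (pb 2 m x (sw 3 (sw 2 c)))
    rw [show 2 * (m + 2) = 2 + 2 * m + 2 by ring, n5_pb_ng] at this
    exact this
  have h6 := n5_chain c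
  have a1 : sw 2 c 3 = c 2 := by unfold sw; simp [Equiv.swap_apply_def]
  have a2 : sw 2 c 4 = c 4 := by unfold sw; simp [Equiv.swap_apply_def]
  have a3 : ng 4 (sw 3 (sw 2 c)) 3 = c 4 := by unfold ng sw; simp [Equiv.swap_apply_def, Function.update]
  have a4 : ng 4 (sw 3 (sw 2 c)) 4 = -c 2 := by unfold ng sw; simp [Equiv.swap_apply_def, Function.update]
  have a5 : sw 3 (ng 4 (sw 3 (sw 2 c))) 2 = c 3 := by unfold ng sw; simp [Equiv.swap_apply_def, Function.update]
  have a6 : sw 3 (ng 4 (sw 3 (sw 2 c))) 3 = -c 2 := by unfold ng sw; simp [Equiv.swap_apply_def, Function.update]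
  simp only [show (2 : ℕ) + 0 = 2 by rfl, show (2 : ℕ) + 1 = 3 by rfl, show (2 : ℕ) + 0 + 1 = 3 by rfl,
    show (2 : ℕ) + 1 + 1 = 4 by rfl, a1, a2, a3, a4, a5, a6, h5, h6] at h1 h2 h3 h4
  have r1 : c 4 - -c 2 = c 2 + c 4 := by ring
  have r2 : c 3 - -c 2 = c 2 + c 3 := by ring
  have r3 : c 3 - c 2 = -c 2 + c 3 := by ring
  have r4 : c 4 - c 2 = -c 2 + c 4 := by ring
  rw [r1] at h3
  rw [r2] at h4
  rw [r3] at h1
  rw [r4] at h2
  generalize ind (A5 (m + 2)) (V (m + 2) (pb 2 m x (Function.update c 2 (-c 2)))) = F4 at *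
  generalize ind (A5 (m + 2)) (V (m + 2) (pb 2 m x c)) = F0 at *
  generalize ind (A5 (m + 2)) (V (m + 2) (pb 2 m x (sw 2 c))) = F1 at *
  generalize ind (A5 (m + 2)) (V (m + 2) (pb 2 m x (sw 3 (sw 2 c)))) = F2 at *
  generalize ind (A5 (m + 2)) (V (m + 2) (pb 2 m x (sw 3 (ng 4 (sw 3 (sw 2 c)))))) = F3 at *
  linear_combination (s (c 2 - c 3) * (s (c 2 - c 4) * s (c 2 + c 4))) * h4 +
    (s (-c 2 - c 3) * s (c 2 - c 3) * s (c 2 - c 4)) * h3 +
    (s (-c 2 - c 3) * s (-c 2 - c 4) * s (c 2 - c 3)) * h2 +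
    (s (-c 2 - c 3) * s (-c 2 - c 4) * s (-c 2 + c 4)) * h1

/-! ### base case -/

noncomputable def R2 (c : ℕ → ℝ) : ℝ := s (c 0 - c 1) * s (-c 0 - c 1) * pre5 c
noncomputable def Dm (c : ℕ → ℝ) : ℝ := s (-c 2 - c 3) * s (-c 2 + c 3) * (s (-c 2 - c 4) * s (-c 2 + c 4))

theorem n5_pb0 (l : ℕ) (x c : ℕ → ℝ) : pb l 0 x c = c := by
  funext j
  unfold pb
  by_cases h : j < l
  · rw [if_pos h]
  · rw [if_neg h, if_neg (by omega)]; simp

theorem base2_L (c : ℕ → ℝ) : ind (A5 2) (V 2 (Function.update c 1 (-c 1))) * (s (-c 0 - c 1) * s (c 0 - c 1)) =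
    ind (A5 2) (V 2 c) * (s (c 0 + c 1) * s (c 1 - c 0)) := by
  have h1 := kill_sw (n := 2) (i := 0) (by omega) (f := ind (A5 2)) (fun v hv => A5_E0 le_rfl hv) c
  have h2 := kill_sw (n := 2) (i := 0) (by omega) (f := ind (A5 2)) (fun v hv => A5_E0 le_rfl hv) (ng 0 (sw 0 c))
  have e : sw 0 (ng 0 (sw 0 c)) = Function.update c 1 (-c 1) := by
    funext j
    unfold sw ng
    by_cases h0 : j = 0
    · subst h0; simp [Equiv.swap_apply_def, Function.update]
    · by_cases h1 : j = 1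
      · subst h1; simp [Function.update]
      · rw [Equiv.swap_apply_of_ne_of_ne h0 (by omega), Function.update_of_ne h0,
          Equiv.swap_apply_of_ne_of_ne h0 (by omega), Function.update_of_ne h1]
  have a0 : ng 0 (sw 0 c) 0 = -c 1 := by unfold ng sw; simp
  have a1 : ng 0 (sw 0 c) (0 + 1) = c 0 := by unfold ng sw; simp
  rw [e, V_ngL, a0, a1, show -c 1 - c 0 = -c 0 - c 1 by ring, show c 0 - -c 1 = c 0 + c 1 by ring] at h2
  rw [show (0 : ℕ) + 1 = 1 by rfl] at h1
  linear_combination (s (c 0 - c 1)) * h2 + (s (c 0 + c 1)) * h1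

theorem base2_B (c : ℕ → ℝ) (h : c 1 = c 2 - Real.pi / 3) : ind (A5 2) (V 2 c) = R2 c := by
  have h1 := V_rec (n := 1) (i := 1) (by omega) c (by show c 2 = _; rw [h]; ring)
  have h2 := K_eq (n := 1) (i := 1) (by omega) c
  rw [show (1 : ℕ) + 1 = 2 by rfl] at h1 h2
  rw [h1, map_smul, smul_eq_mul, A5_In_one (V_Sup 1 _), base1, h2]
  unfold KK R2 pre5
  have r0 : rem 1 c 0 = c 0 := by unfold rem; simp
  have r1 : rem 1 c 1 = c 3 := by unfold rem; simp
  have r2 : rem 1 c 2 = c 4 := by unfold rem; simp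
  rw [show 2 * 1 + 1 = 3 by rfl, prod_range_succ, prod_range_succ, prod_range_one, r0, r1, r2]
  have e1 : s (c 3 - c 1) = s (c 2 - c 3) := by
    rw [h, show c 3 - (c 2 - Real.pi / 3) = (c 3 - c 2) + Real.pi / 3 by ring, s_add_pi_third]; congr 1; ring
  have e2 : s (-c 3 - c 1) = s (c 2 + c 3) := by
    rw [h, show -c 3 - (c 2 - Real.pi / 3) = (-c 3 - c 2) + Real.pi / 3 by ring, s_add_pi_third]; congr 1; ring
  have e3 : s (c 4 - c 1) = s (c 2 - c 4) := by
    rw [h, show c 4 - (c 2 - Real.pi / 3) = (c 4 - c 2) + Real.pi / 3 by ring, s_add_pi_third]; congr 1; ring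
  have e4 : s (-c 4 - c 1) = s (c 2 + c 4) := by
    rw [h, show -c 4 - (c 2 - Real.pi / 3) = (-c 4 - c 2) + Real.pi / 3 by ring, s_add_pi_third]; congr 1; ring
  rw [e1, e2, e3, e4]
  ring

theorem base2_C (c : ℕ → ℝ) (h : c 1 = -c 2 - Real.pi / 3) (hD : Dm c ≠ 0) : ind (A5 2) (V 2 c) = R2 c := by
  have h1 := A5_neg (m := 0) c c
  simp only [n5_pb0, zero_add] at h1
  have e2 : Function.update c 2 (-c 2) 2 = -c 2 := Function.update_self _ _ _
  have e1 : Function.update c 2 (-c 2) 1 = c 1 := Function.update_of_ne (by omega) _ _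
  have e0 : Function.update c 2 (-c 2) 0 = c 0 := Function.update_of_ne (by omega) _ _
  have e3 : Function.update c 2 (-c 2) 3 = c 3 := Function.update_of_ne (by omega) _ _
  have e4 : Function.update c 2 (-c 2) 4 = c 4 := Function.update_of_ne (by omega) _ _
  have h2 := base2_B (Function.update c 2 (-c 2)) (by rw [e1, e2, h])
  rw [h2] at h1
  unfold R2 pre5 at h1 ⊢
  unfold Dm at hD
  rw [e0, e1, e2, e3, e4] at h1
  apply mul_right_cancel₀ hD
  rw [← h1]
  ring

theorem base2_D (c : ℕ → ℝ) (hs : s (c 0 + c 1) * s (c 1 - c 0) ≠ 0)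
    (h : ind (A5 2) (V 2 (Function.update c 1 (-c 1))) = R2 (Function.update c 1 (-c 1))) :
    ind (A5 2) (V 2 c) = R2 c := by
  have h1 := base2_L c
  have e2 : Function.update c 1 (-c 1) 2 = c 2 := Function.update_of_ne (by omega) _ _
  have e1 : Function.update c 1 (-c 1) 1 = -c 1 := Function.update_self _ _ _
  have e0 : Function.update c 1 (-c 1) 0 = c 0 := Function.update_of_ne (by omega) _ _
  have e3 : Function.update c 1 (-c 1) 3 = c 3 := Function.update_of_ne (by omega) _ _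
  have e4 : Function.update c 1 (-c 1) 4 = c 4 := Function.update_of_ne (by omega) _ _
  rw [h] at h1
  unfold R2 pre5 at h1 ⊢
  rw [e0, e1, e2, e3, e4, sub_neg_eq_add, show -c 0 - -c 1 = c 1 - c 0 by ring] at h1
  apply mul_right_cancel₀ hs
  rw [← h1]
  ring

theorem n5_box {c : ℕ → ℝ} (hc : ∀ j, |c j - (if j = 2 then 1 / 10 else 0)| < 1 / 100) :
    (-(1 / 100) < c 0 ∧ c 0 < 1 / 100) ∧ (9 / 100 < c 2 ∧ c 2 < 11 / 100) ∧
      (-(1 / 100) < c 3 ∧ c 3 < 1 / 100) ∧ (-(1 / 100) < c 4 ∧ c 4 < 1 / 100) := by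
  have c0 := n5_abs (hc 0)
  have c2 := n5_abs (hc 2)
  have c3 := n5_abs (hc 3)
  have c4 := n5_abs (hc 4)
  simp only [if_neg (show ¬ (0 = 2) by omega), if_neg (show ¬ (3 = 2) by omega),
    if_neg (show ¬ (4 = 2) by omega), if_true] at c0 c2 c3 c4
  exact ⟨⟨by linarith [c0.1], by linarith [c0.2]⟩, ⟨by linarith [c2.1], by linarith [c2.2]⟩,
    ⟨by linarith [c3.1], by linarith [c3.2]⟩, ⟨by linarith [c4.1], by linarith [c4.2]⟩⟩

/-- base case: nodes `c 1 = ± c 2 - π/3` (`A5_In_one`, `base1`), `c 1 = ± c 2 + π/3` (evenness in `c 1` of the quotient by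
`s (c 0 - c 1) s (-c 0 - c 1)`), `c 1 = c 0 + π/3`; degree 4 in `c 1`; first for generic `c`, then `Sep.eq_zero_box`
or continuity. -/
theorem base2 (c : ℕ → ℝ) : ind (A5 2) (V 2 c) = s (c 0 - c 1) * s (-c 0 - c 1) * pre5 c := by
  have hpi := Real.pi_gt_three
  have hpi4 := Real.pi_lt_four
  have hS : Sep 5 8 (fun b => ind (A5 2) (V 2 b) - R2 b) := by
    refine ((vs_Sep_lin 2 (ind (A5 2))).mono 2).sub ?_
    exact (n5_sepB (L := 5) (i := 0) (j := 1) (by omega) (by omega) (by omega)).mul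
      (((n5_sepA (L := 5) (i := 2) (j := 3) (by omega) (by omega) (by omega)).mul
        (n5_sepA (L := 5) (i := 2) (j := 4) (by omega) (by omega) (by omega))).mul
        (n5_sepA (L := 5) (i := 3) (j := 4) (by omega) (by omega) (by omega)))
  have key := hS.eq_zero_box (fun j => if j = 2 then 1 / 10 else 0) (ε := 1 / 100) (by norm_num) ?_ c
  · exact sub_eq_zero.1 key
  clear c
  intro c hc
  obtain ⟨c0, c2, c3, c4⟩ := n5_box hc
  have hs : ∀ y : ℝ, -(1 / 2) < y → y < 1 / 2 → s y ≠ 0 := fun y h1 h2 =>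
    (s_pos_of_abs (abs_lt.2 ⟨by linarith, by linarith⟩)).ne'
  have hD : Dm c ≠ 0 := by
    unfold Dm
    refine mul_ne_zero (mul_ne_zero ?_ ?_) (mul_ne_zero ?_ ?_) <;> apply hs <;> linarith [c2.1, c2.2, c3.1, c3.2, c4.1, c4.2]
  have u2 : ∀ y, Function.update c 1 y 2 = c 2 := fun y => Function.update_of_ne (by omega) _ _
  have u1 : ∀ y, Function.update c 1 y 1 = y := fun y => Function.update_self _ _ _
  have u0 : ∀ y, Function.update c 1 y 0 = c 0 := fun y => Function.update_of_ne (by omega) _ _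
  have u3 : ∀ y, Function.update c 1 y 3 = c 3 := fun y => Function.update_of_ne (by omega) _ _
  have u4 : ∀ y, Function.update c 1 y 4 = c 4 := fun y => Function.update_of_ne (by omega) _ _
  have hDu : ∀ y, Dm (Function.update c 1 y) ≠ 0 := fun y => by
    unfold Dm at hD ⊢; rw [u2, u3, u4]; exact hD
  have hG : TP 4 (fun y => R2 (Function.update c 1 y)) := by
    have h1 : TP (1 + 1) (fun y => s (c 0 - y) * s (-c 0 - y)) := (TP.s_sub (c 0)).mul (TP.s_sub (-c 0))
    have h2 := (h1.smul (pre5 c)).mono 1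
    have e : (fun y => R2 (Function.update c 1 y)) = fun y => pre5 c * (s (c 0 - y) * s (-c 0 - y)) := by
      funext y
      unfold R2 pre5
      rw [u0, u1, u2, u3, u4]
      ring
    rw [e]; exact h2
  have hN : ∀ y, ind (A5 2) (V 2 (Function.update c 1 y)) = R2 (Function.update c 1 y) := by
    refine node_eq (m := 1) (M := 4) (F := fun y => ind (A5 2) (V 2 (Function.update c 1 y)))
      (G := fun y => R2 (Function.update c 1 y)) (x := fun _ => c 2) ?_ hG ?_ {c 0 + Real.pi / 3} ?_ ?_ ?_ ?_ ?_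
    · exact (vs_Sep_lin 2 (ind (A5 2))).1 c 1 (by omega)
    · exact ⟨fun k _ => ⟨by linarith [c2.1], by linarith [c2.2]⟩, fun k hk l hl _ => by omega⟩
    · intro y hy z hz hyz
      rw [mem_singleton] at hy hz
      exact absurd (hy.trans hz.symm) hyz
    · intro y hy k _
      rw [mem_singleton] at hy
      subst hy
      refine ⟨?_, ?_, ?_, ?_⟩
      · rw [show c 0 + Real.pi / 3 - (c 2 + Real.pi / 3) = c 0 - c 2 by ring]
        exact tb_sin_ne_zero_aux (by linarith [c0.2, c2.1]) (by linarith [c0.1, c2.2]) (by linarith [c0.2, c2.1])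
      · rw [show c 0 + Real.pi / 3 - (-c 2 + Real.pi / 3) = c 0 + c 2 by ring]
        exact tb_sin_ne_zero_aux (by linarith [c0.1, c2.1]) (by linarith [c0.1, c2.1]) (by linarith [c0.2, c2.2])
      · exact tb_sin_ne_zero_aux (by linarith [c0.1, c2.2]) (by linarith [c0.1, c2.2]) (by linarith [c0.2, c2.1])
      · exact tb_sin_ne_zero_aux (by linarith [c0.1, c2.1]) (by linarith [c0.1, c2.1]) (by linarith [c0.2, c2.2])
    · rw [card_singleton]; norm_num
    · intro k _
      refine ⟨?_, ?_, ?_, ?_⟩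
      · show ind (A5 2) (V 2 (Function.update c 1 (c 2 + Real.pi / 3))) = R2 (Function.update c 1 (c 2 + Real.pi / 3))
        apply base2_D
        · rw [u0, u1]
          refine mul_ne_zero ?_ ?_
          · rw [show c 0 + (c 2 + Real.pi / 3) = (c 0 + c 2) + Real.pi / 3 by ring, s_add_pi_third]
            apply hs <;> linarith [c0.1, c0.2, c2.1, c2.2]
          · rw [show c 2 + Real.pi / 3 - c 0 = (c 2 - c 0) + Real.pi / 3 by ring, s_add_pi_third]
            apply hs <;> linarith [c0.1, c0.2, c2.1, c2.2]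
        · rw [u1, Function.update_idem]
          exact base2_C _ (by rw [u1, u2]; ring) (hDu _)
      · show ind (A5 2) (V 2 (Function.update c 1 (-c 2 + Real.pi / 3))) = R2 (Function.update c 1 (-c 2 + Real.pi / 3))
        apply base2_D
        · rw [u0, u1]
          refine mul_ne_zero ?_ ?_
          · rw [show c 0 + (-c 2 + Real.pi / 3) = (c 0 - c 2) + Real.pi / 3 by ring, s_add_pi_third]
            apply hs <;> linarith [c0.1, c0.2, c2.1, c2.2]
          · rw [show -c 2 + Real.pi / 3 - c 0 = (-c 2 - c 0) + Real.pi / 3 by ring, s_add_pi_third]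
            apply hs <;> linarith [c0.1, c0.2, c2.1, c2.2]
        · rw [u1, Function.update_idem]
          exact base2_B _ (by rw [u1, u2]; ring)
      · exact base2_B _ (by rw [u1, u2])
      · exact base2_C _ (by rw [u1, u2]) (hDu _)
    · intro y hy
      rw [mem_singleton] at hy
      subst hy
      have h1 := kill_sw (n := 2) (i := 0) (by omega) (f := ind (A5 2)) (fun v hv => A5_E0 le_rfl hv)
        (Function.update c 1 (c 0 + Real.pi / 3))
      rw [show (0 : ℕ) + 1 = 1 by rfl, u0, u1, show c 0 - (c 0 + Real.pi / 3) = -(Real.pi / 3) by ring, n5_s_neg_pi,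
        show c 0 + Real.pi / 3 - c 0 = Real.pi / 3 by ring, zero_mul] at h1
      have h2 := (mul_eq_zero.1 h1.symm).resolve_left n5_s_pi
      show ind (A5 2) (V 2 (Function.update c 1 (c 0 + Real.pi / 3))) = R2 (Function.update c 1 (c 0 + Real.pi / 3))
      rw [h2]
      unfold R2
      rw [u0, u1, show c 0 - (c 0 + Real.pi / 3) = -(Real.pi / 3) by ring, n5_s_neg_pi]
      ring
  have := hN (c 1)
  rw [Function.update_eq_self] at this
  exact sub_eq_zero.2 this
end IPK
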