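import Pool.Agent.Helper78.K.N1
import Pool.Agent.Helper78.K.N5b
/-! MODULE K.N5: corner - corner with isolated wall, five special strands: `c 0`, `c 1` on the left, `c 2, c 3, c 4` on the
right, `c 3 = 0`.  Induction on `m` (`m = 0`: `base2`), trigonometric polynomials of degree `2 m + 4` in `c 2`.
Nodes: `c 2 = -π/3`, `c 2 = ± c 4 - π/3`: both sides vanish (`kill_sw` with `E (2n-2)`, `E (2n-1)`, `V_ngR`);
`c 2 = ± x k + π/3`: `rec_right` and `Gd_rec'`; `c 2 = ± x k - π/3`: `A5_neg`.  `4 m + 3 > 2 m + 4` nodes for `m ≥ 1`. -/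
namespace IPK
open IP Finset

/-- the part of the prefactor depending on `y = c 2` -/
noncomputable def n5D (a b y : ℝ) : ℝ := s (y - a) * s (y + a) * (s (y - b) * s (y + b))

theorem n5_pre_update (c : ℕ → ℝ) (y : ℝ) :
    pre5 (Function.update c 2 y) = n5D (c 3) (c 4) y * (s (c 3 - c 4) * s (c 3 + c 4)) := by
  unfold pre5 n5D
  rw [Function.update_self, Function.update_of_ne (by norm_num), Function.update_of_ne (by norm_num)]

theorem n5D_add_pi (a b y : ℝ) : n5D a b (y + Real.pi / 3) = n5D a b (-y) := by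
  unfold n5D
  rw [show y + Real.pi / 3 - a = (y - a) + Real.pi / 3 by ring, show y + Real.pi / 3 + a = (y + a) + Real.pi / 3 by ring,
    show y + Real.pi / 3 - b = (y - b) + Real.pi / 3 by ring, show y + Real.pi / 3 + b = (y + b) + Real.pi / 3 by ring,
    s_add_pi_third, s_add_pi_third, s_add_pi_third, s_add_pi_third,
    show -(y - a) = -y + a by ring, show -(y + a) = -y - a by ring, show -(y - b) = -y + b by ring,
    show -(y + b) = -y - b by ring]
  ring

theorem n5D_ne {a b y : ℝ} (ha : |a| < Real.pi / 12) (hb : |b| < Real.pi / 12) (hy : |y| < Real.pi / 12) :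
    n5D a b y ≠ 0 := by
  have h1 := abs_lt.1 ha
  have h2 := abs_lt.1 hb
  have h3 := abs_lt.1 hy
  unfold n5D
  refine mul_ne_zero (mul_ne_zero ?_ ?_) (mul_ne_zero ?_ ?_) <;>
    exact (s_pos_of_abs (abs_lt.2 ⟨by linarith [h1.1, h1.2, h2.1, h2.2, h3.1, h3.2],
      by linarith [h1.1, h1.2, h2.1, h2.2, h3.1, h3.2]⟩)).ne'

/-- the right side as a function of `y = c 2` -/
noncomputable def n5G (m : ℕ) (x c : ℕ → ℝ) (y : ℝ) : ℝ :=
  s (c 0 - c 1) * s (-c 0 - c 1) * pre5 (Function.update c 2 y) * (4 ^ (m ^ 2 + 4 * m))⁻¹ *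
    Gd 5 m (fun j => XX (Function.update c 2 y j)) x
noncomputable def n5F (m : ℕ) (x c : ℕ → ℝ) (y : ℝ) : ℝ :=
  ind (A5 (m + 2)) (V (m + 2) (pb 2 m x (Function.update c 2 y)))

theorem n5_refF (m : ℕ) (x c : ℕ → ℝ) (y : ℝ) :
    n5F m x c (-y) * n5D (c 3) (c 4) y = n5F m x c y * n5D (c 3) (c 4) (-y) := by
  have h := A5_neg (m := m) x (Function.update c 2 y)
  rw [Function.update_self, Function.update_idem, Function.update_of_ne (by norm_num),
    Function.update_of_ne (by norm_num)] at h
  exact h

theorem n5_refG (m : ℕ) (x c : ℕ → ℝ) (y : ℝ) :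
    n5G m x c (-y) * n5D (c 3) (c 4) y = n5G m x c y * n5D (c 3) (c 4) (-y) := by
  unfold n5G
  have e : (fun j => XX (Function.update c 2 (-y) j)) = fun j => XX (Function.update c 2 y j) := by
    rw [XX_update, XX_update, XX_neg]
  rw [e, n5_pre_update, n5_pre_update]
  ring

theorem n5_ref {m : ℕ} {x c : ℕ → ℝ} {y : ℝ} (h : n5F m x c (-y) = n5G m x c (-y))
    (hD : n5D (c 3) (c 4) (-y) ≠ 0) : n5F m x c y = n5G m x c y := by
  apply mul_right_cancel₀ hD
  rw [← n5_refF, ← n5_refG, h]

theorem n5_killF (m : ℕ) (x c : ℕ → ℝ) (h3 : c 3 = 0) {y : ℝ} (h : y = c 4 - Real.pi / 3) (h4 : |c 4| < Real.pi / 12) :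
    n5F m x c y = 0 := by
  have h1 := n5_kill (m := m) x (Function.update c 2 y) 0 (by omega)
  have h2 := n5_kill (m := m) x (sw 2 (Function.update c 2 y)) 1 (by omega)
  have a1 : sw 2 (Function.update c 2 y) 3 = y := by unfold sw; simp [Equiv.swap_apply_def]
  have a2 : sw 2 (Function.update c 2 y) 4 = c 4 := by unfold sw; simp [Equiv.swap_apply_def]
  have a3 : Function.update c 2 y 3 = c 3 := Function.update_of_ne (by norm_num) _ _
  simp only [show (2 : ℕ) + 0 = 2 by rfl, show (2 : ℕ) + 1 = 3 by rfl,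
    show (2 : ℕ) + 1 + 1 = 4 by rfl, a1, a2, a3, Function.update_self] at h1 h2
  rw [h, show c 4 - Real.pi / 3 - c 4 = -(Real.pi / 3) by ring, n5_s_neg_pi, zero_mul,
    show c 4 - (c 4 - Real.pi / 3) = Real.pi / 3 by ring] at h2
  have h5 := (mul_eq_zero.1 h2.symm).resolve_left n5_s_pi
  rw [← h] at h5
  rw [h5, mul_zero] at h1
  have h6 : s (c 3 - y) ≠ 0 := by
    rw [h3, h, show 0 - (c 4 - Real.pi / 3) = -c 4 + Real.pi / 3 by ring, s_add_pi_third, neg_neg]
    exact (s_pos_of_abs (by have := Real.pi_pos; linarith)).ne'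
  exact (mul_eq_zero.1 h1.symm).resolve_left h6

theorem n5_killF' (m : ℕ) (x c : ℕ → ℝ) (h3 : c 3 = 0) {y : ℝ} (h : y = -c 4 - Real.pi / 3) (h4 : |c 4| < Real.pi / 12) :
    n5F m x c y = 0 := by
  have h1 := n5_killF m x (Function.update c 4 (-c 4)) (y := y) (by rw [Function.update_of_ne (by norm_num), h3])
    (by rw [Function.update_self, h]) (by rw [Function.update_self, abs_neg]; exact h4)
  rw [← h1]
  unfold n5F
  have h2 := V_ngR (m + 2) (pb 2 m x (Function.update c 2 y))
  rw [show 2 * (m + 2) = 2 + 2 * m + 2 by ring, n5_pb_ng] at h2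
  rw [← h2]
  congr 3
  unfold ng
  rw [show 2 + 2 = 4 by rfl, Function.update_of_ne (by norm_num), Function.update_comm (by norm_num)]

theorem n5_kill0 (m : ℕ) (x c : ℕ → ℝ) (h3 : c 3 = 0) {y : ℝ} (h : y = -(Real.pi / 3)) : n5F m x c y = 0 := by
  have h1 := n5_kill (m := m) x (Function.update c 2 y) 0 (by omega)
  have a3 : Function.update c 2 y 3 = c 3 := Function.update_of_ne (by norm_num) _ _
  simp only [show (2 : ℕ) + 0 = 2 by rfl, show (2 : ℕ) + 1 = 3 by rfl, a3, Function.update_self] at h1
  rw [h3, h, sub_zero, n5_s_neg_pi, zero_mul, zero_sub, neg_neg] at h1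
  rw [← h] at h1
  exact (mul_eq_zero.1 h1.symm).resolve_left n5_s_pi

theorem n5_prod_four (g : ℕ → ℝ) :
    ∏ j ∈ (range 5).erase 2, (g j / 4) = (4 ^ 4)⁻¹ * ∏ j ∈ (range 5).erase 2, g j := by
  have h : ((range 5).erase 2).card = 4 := by decide
  rw [← h, ← Finset.prod_const, ← Finset.prod_inv_distrib, ← Finset.prod_mul_distrib]
  exact Finset.prod_congr rfl fun j _ => by ring

theorem n5_node {m k : ℕ} (hk : k ≤ m) {x : ℕ → ℝ} (hx : Gp (m + 1) x) (c : ℕ → ℝ) (p : Bool)
    (ih : n5F m (fun j => x (Equiv.swap k m j)) c (-sg p (x k)) = n5G m (fun j => x (Equiv.swap k m j)) c (-sg p (x k))) :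
    n5F (m + 1) x c (sg p (x k) + Real.pi / 3) = n5G (m + 1) x c (sg p (x k) + Real.pi / 3) := by
  have hr := right_node (N := 5) (n := m + 2) (l := 2) (k := k) (f := ind (A5 (m + 3))) (f' := ind (A5 (m + 2)))
    (by ring) (by omega) hk (fun j hj v hv => by
      have := A5_E (n := m + 3) (k := 1 + j) (by omega) (by omega) hv
      rwa [show 2 * (1 + j) = 2 + 2 * j by ring] at this)
    (fun v hv => by
      have := A5_In (n := m + 2) (by omega) hv
      rwa [show 2 * (m + 2) - 1 = 2 + 2 * m + 1 by omega] at this) hx p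
    (Function.update c 2 (sg p (x k) + Real.pi / 3)) (Function.update_self _ _ _)
  unfold n5F n5G at ih ⊢
  rw [show m + 1 + 2 = m + 2 + 1 by ring]
  rw [hr, Function.update_idem, ih]
  rw [Gd_rec' (i := 2) (k := k) (by omega) hk hx p (fun j => XX (Function.update c 2
    (sg p (x k) + Real.pi / 3) j)) (by rw [Function.update_self, XX_node])]
  have e1 : (fun j => XX (Function.update c 2 (-sg p (x k)) j)) =
      Function.update (fun j => XX (Function.update c 2 (sg p (x k) + Real.pi / 3) j)) 2 (XX (x k)) := by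
    rw [XX_update, XX_update, Function.update_idem, XX_neg, XX_sg]
  rw [e1, gd_enum hk, prod_div_four, n5_prod_four, Finset.card_erase_of_mem (mem_range.2 (by omega)), card_range]
  have e2 : (4 : ℝ) ^ ((m + 1) ^ 2 + 4 * (m + 1)) = 4 ^ (m ^ 2 + 4 * m) * (4 * 4 ^ 4 * 16 ^ m) := by
    rw [show (16 : ℝ) = 4 ^ 2 by norm_num, ← pow_mul, ← pow_succ', ← pow_add, ← pow_add]
    congr 1; ring
  rw [e2, show m + 1 - 1 = m by omega, n5_pre_update, n5_pre_update, n5D_add_pi]
  field_simp

theorem N5 (m : ℕ) {x : ℕ → ℝ} (hx : Gp m x) (c : ℕ → ℝ) (h3 : c 3 = 0) (h4 : 0 < c 4) (h4' : c 4 < Real.pi / 12)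
    (hx4 : ∀ k < m, c 4 ≠ x k) :
    ind (A5 (m + 2)) (V (m + 2) (pb 2 m x c)) =
      s (c 0 - c 1) * s (-c 0 - c 1) * pre5 c * (4 ^ (m ^ 2 + 4 * m))⁻¹ * Gd 5 m (fun j => XX (c j)) x := by
  induction m generalizing x c with
  | zero =>
    rw [Gd_zero, n5_pb0, base2]
    norm_num
  | succ m ih =>
    have hpi := Real.pi_pos
    have hc4 : |c 4| < Real.pi / 12 := abs_lt.2 ⟨by linarith, h4'⟩
    have hc3 : |c 3| < Real.pi / 12 := by rw [h3, abs_zero]; positivity
    have node1 : ∀ (p : Bool) (k : ℕ), k ≤ m →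
        n5F (m + 1) x c (sg p (x k) + Real.pi / 3) = n5G (m + 1) x c (sg p (x k) + Real.pi / 3) := by
      intro p k hk
      apply n5_node hk hx c p
      have e3 : Function.update c 2 (-sg p (x k)) 3 = c 3 := Function.update_of_ne (by norm_num) _ _
      have e4 : Function.update c 2 (-sg p (x k)) 4 = c 4 := Function.update_of_ne (by norm_num) _ _
      have e0 : Function.update c 2 (-sg p (x k)) 0 = c 0 := Function.update_of_ne (by norm_num) _ _
      have e1 : Function.update c 2 (-sg p (x k)) 1 = c 1 := Function.update_of_ne (by norm_num) _ _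
      have := ih (Gp_perm hx hk) (Function.update c 2 (-sg p (x k))) (by rw [e3, h3]) (by rw [e4]; exact h4)
        (by rw [e4]; exact h4') (fun j hj => by
          rw [e4]
          exact hx4 _ (by have := (nr_swap_m hk hj).1; omega))
      rw [e0, e1] at this
      exact this
    have node2 : ∀ (p : Bool) (k : ℕ), k ≤ m →
        n5F (m + 1) x c (-(sg p (x k) + Real.pi / 3)) = n5G (m + 1) x c (-(sg p (x k) + Real.pi / 3)) := by
      intro p k hk
      apply n5_ref
      · rw [neg_neg]; exact node1 p k hk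
      · rw [neg_neg, n5D_add_pi]
        apply n5D_ne hc3 hc4
        rw [abs_neg, sg_abs]
        exact nr_abs hx (by omega)
    have hF : TP (2 * (m + 1) + 4) (fun y => n5F (m + 1) x c y) := by
      have h := (vs_Sep_lin (m + 1 + 2) (ind (A5 (m + 1 + 2)))).1 (pb 2 (m + 1) x c) (2 + 2 * (m + 1)) (by omega)
      rw [show 2 * (m + 1 + 2) = 2 * (m + 1) + 4 by ring] at h
      refine h.tb_congr (fun y => ?_)
      unfold n5F
      rw [pb_update_right (le_refl 2)]
    have hG : TP (2 * (m + 1) + 4) (fun y => n5G (m + 1) x c y) := by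
      have h1 : TP (1 + 1 + (1 + 1)) (fun y => n5D (c 3) (c 4) y) :=
        ((tp_s_sub _).mul (tp_s_add _)).mul ((tp_s_sub _).mul (tp_s_add _))
      have h2 := ((Gd_TP (N := 5) (m := m + 1) (i := 2) (by omega) c x).mul h1).smul
        (s (c 0 - c 1) * s (-c 0 - c 1) * (s (c 3 - c 4) * s (c 3 + c 4)) * (4 ^ ((m + 1) ^ 2 + 4 * (m + 1)))⁻¹)
      refine h2.tb_congr (fun y => ?_)
      unfold n5G
      rw [n5_pre_update]
      ring
    have hsin : ∀ z : ℝ, z ≠ 0 → -Real.pi < z → z < Real.pi → Real.sin z ≠ 0 := fun z => tb_sin_ne_zero_aux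
    have key := node_eq (m := m + 1) hF hG hx {-(Real.pi / 3), c 4 - Real.pi / 3, -c 4 - Real.pi / 3} (by
        intro y hy z hz hne
        simp only [mem_insert, mem_singleton] at hy hz
        apply hsin _ (sub_ne_zero.2 hne) <;> rcases hy with rfl | rfl | rfl <;> rcases hz with rfl | rfl | rfl <;> linarith)
      (by
        intro y hy k hk
        have hxk := hx.1 k hk
        have hne := hx4 k hk
        simp only [mem_insert, mem_singleton] at hy
        rcases hy with rfl | rfl | rfl
        · refine ⟨hsin _ (by linarith) (by linarith) (by linarith), hsin _ (by linarith) (by linarith) (by linarith),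
            hsin _ ?_ (by linarith) (by linarith), hsin _ ?_ (by linarith) (by linarith)⟩
          · intro h; linarith
          · intro h; linarith
        · refine ⟨hsin _ (by linarith) (by linarith) (by linarith), hsin _ (by linarith) (by linarith) (by linarith),
            hsin _ ?_ (by linarith) (by linarith), hsin _ ?_ (by linarith) (by linarith)⟩
          · intro h; exact hne (by linarith)
          · intro h; linarith
        · refine ⟨hsin _ (by linarith) (by linarith) (by linarith), hsin _ (by linarith) (by linarith) (by linarith),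
            hsin _ ?_ (by linarith) (by linarith), hsin _ ?_ (by linarith) (by linarith)⟩
          · intro h; linarith
          · intro h; exact hne (by linarith))
      (by
        rw [card_insert_of_notMem, card_insert_of_notMem, card_singleton]
        · omega
        · rw [mem_singleton]; intro h; linarith
        · rw [mem_insert, mem_singleton]; rintro (h | h) <;> linarith)
      (by
        intro k hk
        have a1 := node1 true k (by omega)
        have a2 := node1 false k (by omega)
        have a3 := node2 false k (by omega)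
        have a4 := node2 true k (by omega)
        simp only [sg, if_true, Bool.false_eq_true, if_false] at a1 a2 a3 a4
        refine ⟨a1, a2, ?_, ?_⟩
        · rw [show x k - Real.pi / 3 = -(-x k + Real.pi / 3) by ring]; exact a3
        · rw [show -x k - Real.pi / 3 = -(x k + Real.pi / 3) by ring]; exact a4)
      (by
        intro y hy
        simp only [mem_insert, mem_singleton] at hy
        have hG0 : n5D (c 3) (c 4) y = 0 → n5G (m + 1) x c y = 0 := fun h => by
          unfold n5G
          rw [n5_pre_update, h]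
          ring
        rcases hy with h | h | h
        · rw [n5_kill0 (m + 1) x c h3 h, hG0]
          unfold n5D
          rw [h3, h, sub_zero, n5_s_neg_pi]; ring
        · rw [n5_killF (m + 1) x c h3 h hc4, hG0]
          unfold n5D
          rw [h, show c 4 - Real.pi / 3 - c 4 = -(Real.pi / 3) by ring, n5_s_neg_pi]; ring
        · rw [n5_killF' (m + 1) x c h3 h hc4, hG0]
          unfold n5D
          rw [h, show -c 4 - Real.pi / 3 + c 4 = -(Real.pi / 3) by ring, n5_s_neg_pi]; ring)
    have := key (c 2)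
    unfold n5F n5G at this
    rw [Function.update_eq_self] at this
    exact this
end IPK
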