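import Pool.Agent.Helper78.K.N1
import Pool.Agent.Helper78.K.N3
import Pool.Agent.Helper78.K.N5
import Pool.Agent.Helper78.K.Even
import Pool.Agent.Helper99.Cardy.GammaLim
import Pool.Agent.Helper28.Mrr2.Hom
/-! MODULE K.Hom: the homogeneous point and the product formulas.
Input (`Pool/Agent/Helper28/Mrr2`): the confluent limit of `Gd N m (fun _ => 2) x` for `x → 0`
(`XX (x k) = (2 - ε (k+1)) / (1 + ε (k+1))`, `ε → 0+`) is `3^(m^2+(N-1)m) * dh N m`, and the product formula for `dh`.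
`c` constant `0`: `pb l m x c → 0` and continuity of `V` (`Sep.continuous`). -/
namespace IPK
open IP Finset Filter Topology

/-- `det_{0 ≤ i,j < m} C(N+1+i+j, 2i+1-j)` -/
noncomputable def dh (N m : ℕ) : ℝ := Matrix.det (Matrix.of fun i j : Fin m =>
  if (j : ℕ) ≤ 2 * i + 1 then ((Nat.choose (N + 1 + i + j) (2 * i + 1 - j) : ℕ) : ℝ) else 0)

theorem Hom_dh_tmat (N m : ℕ) : (Pool.Agent.Helper28.Mrr2.tmat N m).det = dh N m := by
  unfold dh Pool.Agent.Helper28.Mrr2.tmat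
  congr 1
  ext i j
  simp only [Matrix.of_apply]
  rw [Pool.Agent.Helper28.Mrr2.tt_eq]

theorem Hom_dh (N m : ℕ) : dh N m = ∏ J ∈ range m, Pool.Agent.Helper28.Mrr2.rr N (J + 1) := by
  rw [← Hom_dh_tmat, Pool.Agent.Helper28.Mrr2.det_tmat]

theorem Hom_dh_pos (N m : ℕ) : 0 < dh N m := by
  rw [Hom_dh]
  exact prod_pos fun J _ => Pool.Agent.Helper28.Mrr2.rr_pos N _

/-! ### the approximating points -/

/-- the approximating points -/
noncomputable def Hom_x (ε : ℝ) (k : ℕ) : ℝ :=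
  Real.arccos (Pool.Agent.Helper28.Mrr2.Xx (ε * (k + 1)) / 2) / 2

theorem Hom_Xx_range {y : ℝ} (hy : 0 ≤ y) : -1 ≤ Pool.Agent.Helper28.Mrr2.Xx y / 2 ∧
    Pool.Agent.Helper28.Mrr2.Xx y / 2 ≤ 1 := by
  unfold Pool.Agent.Helper28.Mrr2.Xx
  have h1 : 0 < 1 + y := by linarith
  constructor
  · rw [le_div_iff₀ (by norm_num), le_div_iff₀ h1]; linarith
  · rw [div_le_iff₀ (by norm_num), div_le_iff₀ h1]; linarith

theorem Hom_XX {ε : ℝ} (h : 0 ≤ ε) (k : ℕ) :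
    XX (Hom_x ε k) = Pool.Agent.Helper28.Mrr2.Xx (ε * (k + 1)) := by
  have h1 := Hom_Xx_range (show 0 ≤ ε * ((k : ℝ) + 1) by positivity)
  unfold XX Hom_x
  rw [mul_div_cancel₀ _ (by norm_num), Real.cos_arccos h1.1 h1.2]
  ring

theorem Hom_x_tendsto (k : ℕ) : Tendsto (fun ε => Hom_x ε k) (𝓝[>] 0) (𝓝 0) := by
  have h1 : ContinuousAt (fun ε : ℝ => Hom_x ε k) 0 := by
    unfold Hom_x Pool.Agent.Helper28.Mrr2.Xx
    have h2 : ContinuousAt (fun ε : ℝ => (2 - ε * ((k : ℝ) + 1)) / (1 + ε * (k + 1)) / 2) 0 :=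
      (ContinuousAt.div (by fun_prop) (by fun_prop) (by norm_num)).div_const 2
    exact (Real.continuous_arccos.continuousAt.comp h2).div_const 2
  have h2 := h1.tendsto.mono_left (nhdsWithin_le_nhds (s := Set.Ioi (0 : ℝ)))
  have h3 : Hom_x 0 k = 0 := by
    unfold Hom_x Pool.Agent.Helper28.Mrr2.Xx
    rw [zero_mul]
    norm_num
  rwa [h3] at h2

theorem Hom_x_pos {ε : ℝ} (h : 0 < ε) (k : ℕ) : 0 < Hom_x ε k := by
  unfold Hom_x
  refine div_pos (Real.arccos_pos.2 ?_) (by norm_num)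
  unfold Pool.Agent.Helper28.Mrr2.Xx
  have h1 : 0 < ε * ((k : ℝ) + 1) := by positivity
  rw [div_lt_iff₀ (by norm_num), div_lt_iff₀ (by linarith)]
  linarith

theorem Hom_ev (m : ℕ) {δ : ℝ} (hδ : 0 < δ) : ∀ᶠ ε in 𝓝[>] (0 : ℝ), ∀ k < m, Hom_x ε k < δ := by
  have h1 : ∀ᶠ ε in 𝓝[>] (0 : ℝ), ∀ k ∈ range m, Hom_x ε k < δ := by
    rw [Filter.eventually_all_finset]
    intro k _
    exact (Hom_x_tendsto k).eventually (gt_mem_nhds hδ)
  filter_upwards [h1] with ε h k hk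
  exact h k (mem_range.2 hk)

theorem Hom_Gp (m : ℕ) : ∀ᶠ ε in 𝓝[>] (0 : ℝ), Gp m (Hom_x ε) := by
  have hpi := Real.pi_pos
  filter_upwards [Hom_ev m (show 0 < Real.pi / 12 by positivity), self_mem_nhdsWithin] with ε h1 h2
  have h2 : 0 < ε := h2
  refine ⟨fun k hk => ⟨Hom_x_pos h2 k, h1 k hk⟩, fun k _ l _ h => ?_⟩
  have h3 := congrArg XX h
  rw [Hom_XX h2.le, Hom_XX h2.le] at h3
  unfold Pool.Agent.Helper28.Mrr2.Xx at h3
  have hk : 0 < 1 + ε * ((k : ℝ) + 1) := by positivity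
  have hl : 0 < 1 + ε * ((l : ℝ) + 1) := by positivity
  rw [div_eq_div_iff hk.ne' hl.ne'] at h3
  have h4 : ε * ((k : ℝ) - l) = 0 := by linarith
  have h5 := (mul_eq_zero.1 h4).resolve_left h2.ne'
  have h6 : (k : ℝ) = l := by linarith
  exact_mod_cast h6

/-! ### the kernel -/

theorem Hom_ww {X v v' : ℝ} (h1 : v + v' = 4 + X) (h2 : v * v' = (X + 1) ^ 2) : ∀ n : ℕ,
    (v - v') * Pool.Agent.Helper28.Mrr2.ww X n = v ^ n - v' ^ n := by
  intro n
  induction n using Nat.strong_induction_on with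
  | _ n ih =>
    match n, ih with
    | 0, _ => simp [Pool.Agent.Helper28.Mrr2.ww]
    | 1, _ => simp [Pool.Agent.Helper28.Mrr2.ww]
    | n + 2, ih =>
      show (v - v') * ((4 + X) * Pool.Agent.Helper28.Mrr2.ww X (n + 1) -
        (X + 1) ^ 2 * Pool.Agent.Helper28.Mrr2.ww X n) = _
      rw [← h1, ← h2]
      linear_combination (v + v') * ih (n + 1) (by omega) - v * v' * ih n (by omega)

theorem Hom_PU (N : ℕ) (u : ℝ) : PU N (fun _ => 2) u = (2 - u) ^ N := by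
  unfold PU
  rw [prod_const, card_range]

theorem Hom_Mx {N : ℕ} {x y : ℝ} (h0 : 0 < x) (h1 : x < Real.pi / 12) :
    Mx N (fun _ => 2) x y = Pool.Agent.Helper28.Mrr2.kern N (XX x) (XX y) := by
  have ht := UUt_range h0 h1
  have hf := UUf_range h0 h1
  have hs := UU_sum x
  have hp := UU_prod x
  have hne : UU true x - UU false x ≠ 0 := by
    have : UU true x - UU false x < 0 := by linarith [ht.2, hf.1]
    exact this.ne
  have hw := Hom_ww (X := XX x) (v := 2 - UU true x) (v' := 2 - UU false x) (by linarith)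
    (by linear_combination hp - 2 * hs)
  have e1 := hw N
  have e2 := hw (N + 1)
  have hq : qq (XX x) (XX y) = Pool.Agent.Helper28.Mrr2.qq (XX x) (XX y) := rfl
  unfold Mx Pool.Agent.Helper28.Mrr2.kern
  rw [hq, Hom_PU, Hom_PU]
  congr 1
  rw [div_mul_eq_mul_div, ← add_div, div_eq_iff hne]
  rw [pow_succ, pow_succ] at e2
  linear_combination (XX y - 2) * e1 + e2

theorem Hom_vdm (m : ℕ) (X : ℕ → ℝ) : (Matrix.vandermonde fun k : Fin m => X k).det =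
    ∏ k ∈ range m, ∏ l ∈ range k, (X k - X l) := by
  rw [Matrix.det_vandermonde, Finset.prod_comm' (s := univ) (t := fun i => Ioi i)
    (t' := univ) (s' := fun j : Fin m => Iio j) (by simp), ← Fin.prod_univ_eq_prod_range]
  refine prod_congr rfl fun j _ => ?_
  have h1 : range (j : ℕ) = (Iio j).map Fin.valEmbedding := by
    rw [Fin.map_valEmbedding_Iio, Nat.Iio_eq_range]
  rw [h1, prod_map]
  rfl

theorem Hom_Gd {N m : ℕ} {x : ℕ → ℝ} (hx : Gp m x) : Gd N m (fun _ => 2) x =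
    Pool.Agent.Helper28.Mrr2.GG N m fun k : Fin m => XX (x k) := by
  unfold Gd Pool.Agent.Helper28.Mrr2.GG
  congr 1
  · congr 1
    · rw [← Fin.prod_univ_eq_prod_range]
      refine prod_congr rfl fun k _ => ?_
      rw [← Fin.prod_univ_eq_prod_range]
      rfl
    · rw [Hom_vdm m fun k => XX (x k), ← prod_pow]
      refine prod_congr rfl fun k _ => ?_
      rw [prod_pow]
  · congr 1
    ext k l
    exact Hom_Mx (hx.1 k k.2).1 (hx.1 k k.2).2

theorem Hom_tendsto (N m : ℕ) : Tendsto (fun ε => Gd N m (fun _ => 2) (Hom_x ε)) (𝓝[>] 0)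
    (𝓝 (3 ^ (m ^ 2 + N * m) / 3 ^ m * dh N m)) := by
  rw [← Hom_dh_tmat]
  refine (Pool.Agent.Helper28.Mrr2.GG_tendsto N m (fun k : Fin m => ((k : ℕ) : ℝ) + 1)
    (fun a b h => Fin.ext (by
      have h' : ((a : ℕ) : ℝ) + 1 = ((b : ℕ) : ℝ) + 1 := h
      have h2 : ((a : ℕ) : ℝ) = ((b : ℕ) : ℝ) := by linarith
      exact_mod_cast h2))).congr' ?_
  filter_upwards [Hom_Gp m, self_mem_nhdsWithin] with ε h1 h2
  have h2 : 0 < ε := h2
  rw [Hom_Gd h1]
  congr 1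
  funext k
  rw [Hom_XX h2.le]

/-! ### the parameters -/

theorem Hom_pb (l m : ℕ) (c : ℕ → ℝ) : Tendsto (fun ε => pb l m (Hom_x ε) c) (𝓝[>] 0)
    (𝓝 (pb l m (fun _ => 0) c)) := by
  rw [tendsto_pi_nhds]
  intro j
  unfold pb
  split_ifs with h1 h2 h3
  · exact tendsto_const_nhds
  · exact (Hom_x_tendsto _).neg
  · exact Hom_x_tendsto _
  · exact tendsto_const_nhds

theorem Hom_cont (n : ℕ) (f : M →ₗ[ℝ] ℝ) (l m : ℕ) (c : ℕ → ℝ) :
    Tendsto (fun ε => f (V n (pb l m (Hom_x ε) c))) (𝓝[>] 0)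
      (𝓝 (f (V n (pb l m (fun _ => 0) c)))) :=
  ((vs_Sep_lin n f).continuous.tendsto _).comp (Hom_pb l m c)

theorem Hom_pb_zero (l m : ℕ) : pb l m (fun _ => 0) (fun _ => 0) = fun _ => 0 := by
  funext j
  unfold pb
  split_ifs <;> simp

theorem Hom_XX_zero : XX 0 = 2 := by
  unfold XX
  rw [mul_zero, Real.cos_zero, mul_one]

theorem Hom_s_zero : s 0 * s 0 = 3 / 4 := by
  unfold s
  rw [add_zero, Real.sin_pi_div_three]
  have := Real.sq_sqrt (show (0 : ℝ) ≤ 3 by norm_num)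
  linear_combination this / 4

theorem hom1 (n : ℕ) : Z n (fun _ => 0) = (4 ^ (n ^ 2))⁻¹ * 3 ^ (n ^ 2) * dh 1 n := by
  have h1 := Hom_cont n tot 0 n (fun _ => 0)
  rw [Hom_pb_zero] at h1
  have h2 : Tendsto (fun ε => (4 ^ (n ^ 2))⁻¹ * Gd 1 n (fun _ => 2) (Hom_x ε)) (𝓝[>] 0)
      (𝓝 ((4 ^ (n ^ 2))⁻¹ * (3 ^ (n ^ 2 + 1 * n) / 3 ^ n * dh 1 n))) :=
    (Hom_tendsto 1 n).const_mul _
  have h3 : Tendsto (fun ε => tot (V n (pb 0 n (Hom_x ε) fun _ => 0))) (𝓝[>] 0)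
      (𝓝 ((4 ^ (n ^ 2))⁻¹ * (3 ^ (n ^ 2 + 1 * n) / 3 ^ n * dh 1 n))) := by
    refine h2.congr' ?_
    filter_upwards [Hom_Gp n] with ε h
    have h4 := N1 n h (fun _ => 0)
    unfold Z at h4
    rw [h4]
    simp only [Hom_XX_zero]
  have h5 := tendsto_nhds_unique h1 h3
  unfold Z
  rw [h5, one_mul, pow_add, mul_div_assoc, div_self (by positivity), mul_one]
  ring

theorem hom3 (m : ℕ) : ind (A3 (m + 1)) (V (m + 1) (fun _ => 0)) =
    3 / 4 * (4 ^ (m ^ 2 + 2 * m))⁻¹ * 3 ^ (m ^ 2 + 2 * m) * dh 3 m := by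
  have h1 := Hom_cont (m + 1) (ind (A3 (m + 1))) 2 m (fun _ => 0)
  rw [Hom_pb_zero] at h1
  have h2 : Tendsto (fun ε => s 0 * s 0 * (4 ^ (m ^ 2 + 2 * m))⁻¹ * Gd 3 m (fun _ => 2) (Hom_x ε))
      (𝓝[>] 0) (𝓝 (s 0 * s 0 * (4 ^ (m ^ 2 + 2 * m))⁻¹ *
        (3 ^ (m ^ 2 + 3 * m) / 3 ^ m * dh 3 m))) :=
    (Hom_tendsto 3 m).const_mul _
  have h3 : Tendsto (fun ε => ind (A3 (m + 1)) (V (m + 1) (pb 2 m (Hom_x ε) fun _ => 0))) (𝓝[>] 0)
      (𝓝 (s 0 * s 0 * (4 ^ (m ^ 2 + 2 * m))⁻¹ * (3 ^ (m ^ 2 + 3 * m) / 3 ^ m * dh 3 m))) := by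
    refine h2.congr' ?_
    filter_upwards [Hom_Gp m] with ε h
    rw [N3 m h (fun _ => 0) rfl]
    simp only [Hom_XX_zero, neg_zero]
    ring
  rw [tendsto_nhds_unique h1 h3, Hom_s_zero, show m ^ 2 + 3 * m = (m ^ 2 + 2 * m) + m by ring,
    pow_add _ (m ^ 2 + 2 * m) m, mul_div_assoc, div_self (by positivity), mul_one]
  ring

/-! ### top coefficients -/

theorem Hom_coeff (n : ℕ) (y : Fin (n + 1) → ℝ) (hy : Function.Injective y) :
    ∃ w : Fin (n + 1) → ℝ, ∀ Q : Polynomial ℝ, Q.natDegree ≤ n →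
      Q.coeff n = ∑ i, w i * Q.eval (y i) := by
  refine ⟨fun i => (Lagrange.basis univ y i).coeff n, fun Q hQ => ?_⟩
  have h1 : Q = Lagrange.interpolate univ y fun i => Q.eval (y i) := by
    refine Lagrange.eq_interpolate hy.injOn ?_
    rw [card_univ, Fintype.card_fin]
    exact lt_of_le_of_lt Polynomial.degree_le_natDegree (by exact_mod_cast Nat.lt_succ_of_le hQ)
  conv_lhs => rw [h1]
  rw [Lagrange.interpolate_apply, Polynomial.finsetSum_coeff]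
  refine sum_congr rfl fun i _ => ?_
  rw [Polynomial.coeff_C_mul, mul_comm]

/-- nodes -/
noncomputable def Hom_a (n : ℕ) (i : Fin (n + 1)) : ℝ := (i + 1) * (Real.pi / (12 * (n + 2)))

theorem Hom_a_range (n : ℕ) (i : Fin (n + 1)) : 0 < Hom_a n i ∧ Hom_a n i < Real.pi / 12 := by
  have hpi := Real.pi_pos
  unfold Hom_a
  refine ⟨by positivity, ?_⟩
  have h1 : ((i : ℕ) : ℝ) + 1 < n + 2 := by
    have : (i : ℕ) + 1 < n + 2 := by omega
    exact_mod_cast this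
  rw [show ((i : ℕ) + 1 : ℝ) * (Real.pi / (12 * (n + 2))) = (i + 1) / (n + 2) * (Real.pi / 12) by
    field_simp]
  have h2 : (((i : ℕ) : ℝ) + 1) / (n + 2) < 1 := by
    rw [div_lt_one (by positivity)]
    exact h1
  have h3 : 0 < Real.pi / 12 := by positivity
  nlinarith

theorem Hom_a_inj (n : ℕ) : Function.Injective fun i => XX (Hom_a n i) := by
  intro i j h
  have hi := Hom_a_range n i
  have hj := Hom_a_range n j
  have h1 := XX_inj hi.1 hi.2 hj.1 hj.2 h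
  have hpi := Real.pi_pos
  unfold Hom_a at h1
  have h2 : (Real.pi / (12 * ((n : ℝ) + 2))) ≠ 0 := by positivity
  have h3 := mul_right_cancel₀ h2 h1
  have h4 : ((i : ℕ) : ℝ) = ((j : ℕ) : ℝ) := by linarith
  exact Fin.ext (by exact_mod_cast h4)

/-- limits of polynomials: the top coefficient converges -/
theorem Hom_top {n : ℕ} {Q : Polynomial ℝ} (hQ : Q.natDegree ≤ n) {R : ℝ → Polynomial ℝ}
    (hR : ∀ ε, (R ε).natDegree ≤ n)
    (h : ∀ i : Fin (n + 1), Tendsto (fun ε => (R ε).eval (XX (Hom_a n i))) (𝓝[>] 0)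
      (𝓝 (Q.eval (XX (Hom_a n i))))) :
    Tendsto (fun ε => (R ε).coeff n) (𝓝[>] 0) (𝓝 (Q.coeff n)) := by
  obtain ⟨w, hw⟩ := Hom_coeff n (fun i => XX (Hom_a n i)) (Hom_a_inj n)
  rw [hw Q hQ]
  simp_rw [fun ε => hw (R ε) (hR ε)]
  exact tendsto_finsetSum _ fun i _ => (h i).const_mul _

theorem Hom_pb_ba0 (n : ℕ) (a : ℝ) :
    pb 0 n (fun _ => 0) (Function.update (fun _ => 0) 0 a) = ba n a := by
  funext j
  unfold pb ba
  by_cases h : j < 2 * n
  · rw [if_neg (by omega), if_pos (by omega), Function.update_of_ne (by omega)]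
    split_ifs <;> simp
  · rw [if_neg (by omega), if_neg (by omega)]
    by_cases h2 : j = 2 * n
    · subst h2
      rw [Nat.sub_self, Function.update_self, Function.update_self]
    · rw [Function.update_of_ne (by omega), Function.update_of_ne (by omega)]

theorem Hom_pb_ba5 (m : ℕ) (a : ℝ) :
    pb 2 m (fun _ => 0) (Function.update (fun _ => 0) 4 a) = ba (m + 2) a := by
  funext j
  unfold pb ba
  by_cases h0 : j < 2
  · rw [if_pos h0, Function.update_of_ne (by omega), Function.update_of_ne (by omega)]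
  by_cases h : j < 2 + 2 * m
  · rw [if_neg h0, if_pos h, Function.update_of_ne (by omega)]
    split_ifs <;> simp
  · rw [if_neg h0, if_neg h]
    by_cases h2 : j = 2 * (m + 2)
    · subst h2
      rw [show 2 * (m + 2) - 2 * m = 4 by omega, Function.update_self, Function.update_self]
    · rw [Function.update_of_ne (by omega), Function.update_of_ne (by omega)]

/-- top coefficients of `N1` and `N5` at the homogeneous point -/
theorem homE (n : ℕ) : tot (VE n) * 3 ^ n = (4 ^ (n ^ 2))⁻¹ * 3 ^ (n ^ 2) * dh 0 n := by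
  obtain ⟨Q, hQ1, hQ2, hQ3⟩ := VE_coeff n tot
  choose R hR1 hR2 hR3 using fun ε : ℝ => Gd_top 0 n (fun _ => 2) (Hom_x ε)
  have h1 : Tendsto (fun ε => (Polynomial.C (4 ^ (n ^ 2))⁻¹ * R ε).coeff n) (𝓝[>] 0)
      (𝓝 (Q.coeff n)) := by
    refine Hom_top hQ1 (fun ε => (Polynomial.natDegree_C_mul_le _ _).trans (hR1 ε)) fun i => ?_
    set a := Hom_a n i with ha
    have h2 := Hom_cont n tot 0 n (Function.update (fun _ => 0) 0 a)
    rw [Hom_pb_ba0, hQ2] at h2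
    refine h2.congr' ?_
    filter_upwards [Hom_Gp n] with ε h
    have h4 := N1 n h (Function.update (fun _ => 0) 0 a)
    unfold Z at h4
    rw [h4, XX_update, Polynomial.eval_mul, Polynomial.eval_C, ← hR2 ε]
    simp only [Hom_XX_zero]
  have h2 : Tendsto (fun ε => (Polynomial.C (4 ^ (n ^ 2))⁻¹ * R ε).coeff n) (𝓝[>] 0)
      (𝓝 ((4 ^ (n ^ 2))⁻¹ * (3 ^ (n ^ 2 + 0 * n) / 3 ^ n * dh 0 n))) := by
    refine ((Hom_tendsto 0 n).const_mul (4 ^ (n ^ 2))⁻¹).congr' ?_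
    filter_upwards with ε
    rw [Polynomial.coeff_C_mul, hR3]
  have h3 := tendsto_nhds_unique h1 h2
  rw [hQ3] at h3
  rw [h3, zero_mul, add_zero]
  have : (3 : ℝ) ^ n ≠ 0 := by positivity
  field_simp

theorem Hom_ss (a : ℝ) : s (-a) * s a = (XX a + 1) / 4 := by
  unfold s XX
  have h1 := Real.cos_sub (Real.pi / 3 + -a) (Real.pi / 3 + a)
  have h2 := Real.cos_add (Real.pi / 3 + -a) (Real.pi / 3 + a)
  rw [show Real.pi / 3 + -a - (Real.pi / 3 + a) = -(2 * a) by ring, Real.cos_neg] at h1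
  rw [show Real.pi / 3 + -a + (Real.pi / 3 + a) = Real.pi - Real.pi / 3 by ring, Real.cos_pi_sub,
    Real.cos_pi_div_three] at h2
  linear_combination (h2 - h1) / 2

theorem homE5 (m : ℕ) : ind (A5 (m + 2)) (VE (m + 2)) =
    9 / 256 * (4 ^ (m ^ 2 + 4 * m))⁻¹ * 3 ^ (m ^ 2 + 3 * m) * dh 4 m := by
  obtain ⟨Q, hQ1, hQ2, hQ3⟩ := VE_coeff (m + 2) (ind (A5 (m + 2)))
  choose R hR1 hR2 hR3 using fun ε : ℝ => Gd_top 4 m (fun _ => 2) (Hom_x ε)
  have hdeg : ((Polynomial.X + Polynomial.C (1 : ℝ)) ^ 2).natDegree ≤ 2 := by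
    rw [Polynomial.natDegree_pow, Polynomial.natDegree_X_add_C]
  have hco : ((Polynomial.X + Polynomial.C (1 : ℝ)) ^ 2).coeff 2 = 1 := by
    have h1 : ((Polynomial.X + Polynomial.C (1 : ℝ)) ^ 2).Monic := (Polynomial.monic_X_add_C _).pow 2
    have h2 := h1.coeff_natDegree
    rwa [Polynomial.natDegree_pow, Polynomial.natDegree_X_add_C] at h2
  set k : ℝ := 9 / 256 * (4 ^ (m ^ 2 + 4 * m))⁻¹ with hk
  have h1 : Tendsto (fun ε => (Polynomial.C k * (R ε * (Polynomial.X + Polynomial.C 1) ^ 2)).coeff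
      (m + 2)) (𝓝[>] 0) (𝓝 (Q.coeff (m + 2))) := by
    refine Hom_top hQ1 (fun ε => (Polynomial.natDegree_C_mul_le _ _).trans
      ((Polynomial.natDegree_mul_le).trans (add_le_add (hR1 ε) hdeg))) fun i => ?_
    set a := Hom_a (m + 2) i with ha
    have har := Hom_a_range (m + 2) i
    rw [← ha] at har
    have h2 := Hom_cont (m + 2) (ind (A5 (m + 2))) 2 m (Function.update (fun _ => 0) 4 a)
    rw [Hom_pb_ba5, hQ2] at h2
    refine h2.congr' ?_
    filter_upwards [Hom_Gp m, Hom_ev m har.1] with ε h h'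
    have h4 := N5 m h (Function.update (fun _ => 0) 4 a) (by rw [Function.update_of_ne (by norm_num)])
      (by rw [Function.update_self]; exact har.1) (by rw [Function.update_self]; exact har.2)
      (fun j hj => by rw [Function.update_self]; exact (h' j hj).ne')
    rw [h4, XX_update, Polynomial.eval_mul, Polynomial.eval_C, Polynomial.eval_mul,
      Polynomial.eval_pow, Polynomial.eval_add, Polynomial.eval_X, Polynomial.eval_C]
    have e1 : Gd 5 m (Function.update (fun j => XX ((fun _ => (0 : ℝ)) j)) 4 (XX a)) (Hom_x ε) =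
        (R ε).eval (XX a) := by
      rw [← hR2 ε]
      simp only [Hom_XX_zero]
    rw [e1]
    unfold pre5
    have u0 : Function.update (fun _ : ℕ => (0 : ℝ)) 4 a 0 = 0 := Function.update_of_ne (by norm_num) _ _
    have u1 : Function.update (fun _ : ℕ => (0 : ℝ)) 4 a 1 = 0 := Function.update_of_ne (by norm_num) _ _
    have u2 : Function.update (fun _ : ℕ => (0 : ℝ)) 4 a 2 = 0 := Function.update_of_ne (by norm_num) _ _
    have u3 : Function.update (fun _ : ℕ => (0 : ℝ)) 4 a 3 = 0 := Function.update_of_ne (by norm_num) _ _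
    have u4 : Function.update (fun _ : ℕ => (0 : ℝ)) 4 a 4 = a := Function.update_self _ _ _
    rw [u0, u1, u2, u3, u4, neg_zero, sub_zero, add_zero, zero_sub, zero_add, Hom_s_zero, Hom_ss, hk]
    ring
  have h2 : Tendsto (fun ε => (Polynomial.C k * (R ε * (Polynomial.X + Polynomial.C 1) ^ 2)).coeff
      (m + 2)) (𝓝[>] 0) (𝓝 (k * (3 ^ (m ^ 2 + 4 * m) / 3 ^ m * dh 4 m))) := by
    refine ((Hom_tendsto 4 m).const_mul k).congr' ?_
    filter_upwards with ε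
    rw [Polynomial.coeff_C_mul, Polynomial.coeff_mul_add_eq_of_natDegree_le (hR1 ε) hdeg, hco, mul_one, hR3]
  have h3 := tendsto_nhds_unique h1 h2
  rw [hQ3] at h3
  rw [h3, hk, show m ^ 2 + 4 * m = (m ^ 2 + 3 * m) + m by ring, pow_add (3 : ℝ) (m ^ 2 + 3 * m) m,
    mul_div_assoc, div_self (by positivity), mul_one]
  ring

/-! ### product formulas -/

theorem Hom_prod_ratio (m : ℕ) (f : ℕ → ℝ) (hf : ∀ s, f s ≠ 0) :
    ∏ s ∈ range m, (f (s + 1) / f s) = f m / f 0 := by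
  induction m with
  | zero => rw [prod_range_zero, div_self (hf 0)]
  | succ m ih =>
    rw [prod_range_succ, ih]
    have h0 := hf 0
    have hm := hf m
    field_simp

theorem Hom_rr_succ (N j : ℕ) : Pool.Agent.Helper28.Mrr2.rr N (j + 1) = 1 / 2 *
    ∏ s ∈ range (j + 1), (2 * ((N : ℝ) + j + s + 1) * (2 * N + 4 * j + 2 * s + 3) /
      ((j + s + 1) * (2 * N + 3 * j + s + 3))) := rfl

theorem Hom_rr1 (n : ℕ) : Pool.Agent.Helper28.Mrr2.rr 3 (n + 1) * ((6 * n + 11) * (n + 3)) =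
    Pool.Agent.Helper28.Mrr2.rr 1 (n + 2) * ((3 * n + 8) * (2 * n + 3)) := by
  rw [Hom_rr_succ, show n + 2 = n + 1 + 1 by ring, Hom_rr_succ, prod_range_succ _ (n + 1)]
  have key : ∏ s ∈ range (n + 1), (2 * (((3 : ℕ) : ℝ) + n + s + 1) * (2 * (3 : ℕ) + 4 * n + 2 * s + 3) /
      ((n + s + 1) * (2 * (3 : ℕ) + 3 * n + s + 3))) =
      (∏ s ∈ range (n + 1), (2 * (((1 : ℕ) : ℝ) + (n + 1 : ℕ) + s + 1) *
        (2 * (1 : ℕ) + 4 * (n + 1 : ℕ) + 2 * s + 3) /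
        (((n + 1 : ℕ) + s + 1) * (2 * (1 : ℕ) + 3 * (n + 1 : ℕ) + s + 3)))) *
      ((∏ s ∈ range (n + 1), ((n : ℝ) + ((s + 1 : ℕ) : ℝ) + 3) / (n + (s : ℝ) + 3)) *
        (∏ s ∈ range (n + 1), ((n : ℝ) + ((s + 1 : ℕ) : ℝ) + 1) / (n + (s : ℝ) + 1)) *
        (∏ s ∈ range (n + 1), ((3 * (n : ℝ) + ((s + 1 : ℕ) : ℝ) + 8)⁻¹ / (3 * n + (s : ℝ) + 8)⁻¹))) := by
    rw [← prod_mul_distrib, ← prod_mul_distrib, ← prod_mul_distrib]
    refine prod_congr rfl fun s _ => ?_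
    push_cast
    have h1 : (n : ℝ) + s + 1 ≠ 0 := by positivity
    have h2 : (n : ℝ) + s + 3 ≠ 0 := by positivity
    have h3 : 3 * (n : ℝ) + s + 8 ≠ 0 := by positivity
    have h4 : 3 * (n : ℝ) + (s + 1) + 8 ≠ 0 := by positivity
    have h5 : 2 * 3 + 3 * (n : ℝ) + s + 3 ≠ 0 := by positivity
    have h6 : (n : ℝ) + 1 + s + 1 ≠ 0 := by positivity
    have h7 : 2 * 1 + 3 * ((n : ℝ) + 1) + s + 3 ≠ 0 := by positivity
    field_simp
    ring
  rw [key, Hom_prod_ratio (n + 1) (fun s => (n : ℝ) + (s : ℝ) + 3) (fun s => by positivity),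
    Hom_prod_ratio (n + 1) (fun s => (n : ℝ) + (s : ℝ) + 1) (fun s => by positivity),
    Hom_prod_ratio (n + 1) (fun s => (3 * (n : ℝ) + (s : ℝ) + 8)⁻¹) (fun s => by positivity)]
  set P := (∏ s ∈ range (n + 1), (2 * (((1 : ℕ) : ℝ) + (n + 1 : ℕ) + s + 1) *
        (2 * (1 : ℕ) + 4 * (n + 1 : ℕ) + 2 * s + 3) /
        (((n + 1 : ℕ) + s + 1) * (2 * (1 : ℕ) + 3 * (n + 1 : ℕ) + s + 3)))) with hP
  push_cast
  have h1 : (n : ℝ) + 0 + 3 ≠ 0 := by positivity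
  have h2 : (n : ℝ) + 0 + 1 ≠ 0 := by positivity
  have h3 : 3 * (n : ℝ) + 0 + 8 ≠ 0 := by positivity
  have h4 : 3 * (n : ℝ) + (n + 1) + 8 ≠ 0 := by positivity
  have h5 : (n : ℝ) + 1 + (n + 1) + 1 ≠ 0 := by positivity
  have h6 : 2 * 1 + 3 * ((n : ℝ) + 1) + (n + 1) + 3 ≠ 0 := by positivity
  field_simp
  ring

theorem Hom_rr2 (m : ℕ) : Pool.Agent.Helper28.Mrr2.rr 4 (m + 1) * ((6 * m + 13) * (m + 4)) =
    Pool.Agent.Helper28.Mrr2.rr 0 (m + 3) * ((3 * m + 10) * (2 * m + 3)) := by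
  rw [Hom_rr_succ, show m + 3 = m + 2 + 1 by ring, Hom_rr_succ, prod_range_succ _ (m + 2),
    prod_range_succ _ (m + 1)]
  have key : ∏ s ∈ range (m + 1), (2 * (((4 : ℕ) : ℝ) + m + s + 1) * (2 * (4 : ℕ) + 4 * m + 2 * s + 3) /
      ((m + s + 1) * (2 * (4 : ℕ) + 3 * m + s + 3))) =
      (∏ s ∈ range (m + 1), (2 * (((0 : ℕ) : ℝ) + (m + 2 : ℕ) + s + 1) *
        (2 * (0 : ℕ) + 4 * (m + 2 : ℕ) + 2 * s + 3) /
        (((m + 2 : ℕ) + s + 1) * (2 * (0 : ℕ) + 3 * (m + 2 : ℕ) + s + 3)))) *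
      ((∏ s ∈ range (m + 1), (((m : ℝ) + ((s + 1 : ℕ) : ℝ) + 1) * (m + ((s + 1 : ℕ) : ℝ) + 2) *
          (m + ((s + 1 : ℕ) : ℝ) + 3) * (m + ((s + 1 : ℕ) : ℝ) + 4)) /
          (((m : ℝ) + (s : ℝ) + 1) * (m + (s : ℝ) + 2) * (m + (s : ℝ) + 3) * (m + (s : ℝ) + 4))) *
        (∏ s ∈ range (m + 1), (((3 * (m : ℝ) + ((s + 1 : ℕ) : ℝ) + 9) * (3 * m + ((s + 1 : ℕ) : ℝ) + 10))⁻¹ /
          ((3 * (m : ℝ) + (s : ℝ) + 9) * (3 * m + (s : ℝ) + 10))⁻¹))) := by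
    rw [← prod_mul_distrib, ← prod_mul_distrib]
    refine prod_congr rfl fun s _ => ?_
    push_cast
    have h1 : (m : ℝ) + s + 1 ≠ 0 := by positivity
    have h2 : (m : ℝ) + s + 2 ≠ 0 := by positivity
    have h3 : (m : ℝ) + s + 3 ≠ 0 := by positivity
    have h4 : (m : ℝ) + s + 4 ≠ 0 := by positivity
    have h5 : 3 * (m : ℝ) + s + 9 ≠ 0 := by positivity
    have h6 : 3 * (m : ℝ) + s + 10 ≠ 0 := by positivity
    have h7 : 3 * (m : ℝ) + (s + 1) + 9 ≠ 0 := by positivity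
    have h8 : 3 * (m : ℝ) + (s + 1) + 10 ≠ 0 := by positivity
    have h9 : 2 * 4 + 3 * (m : ℝ) + s + 3 ≠ 0 := by positivity
    have h10 : (m : ℝ) + 2 + s + 1 ≠ 0 := by positivity
    have h11 : 2 * 0 + 3 * ((m : ℝ) + 2) + s + 3 ≠ 0 := by positivity
    rw [div_eq_iff (by positivity)]
    field_simp
    ring
  rw [key, Hom_prod_ratio (m + 1) (fun s => ((m : ℝ) + (s : ℝ) + 1) * (m + (s : ℝ) + 2) *
      (m + (s : ℝ) + 3) * (m + (s : ℝ) + 4)) (fun s => by positivity),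
    Hom_prod_ratio (m + 1) (fun s => ((3 * (m : ℝ) + (s : ℝ) + 9) * (3 * m + (s : ℝ) + 10))⁻¹)
      (fun s => by positivity)]
  set P := (∏ s ∈ range (m + 1), (2 * (((0 : ℕ) : ℝ) + (m + 2 : ℕ) + s + 1) *
        (2 * (0 : ℕ) + 4 * (m + 2 : ℕ) + 2 * s + 3) /
        (((m + 2 : ℕ) + s + 1) * (2 * (0 : ℕ) + 3 * (m + 2 : ℕ) + s + 3)))) with hP
  push_cast
  have h1 : (m : ℝ) + 0 + 1 ≠ 0 := by positivity
  have h2 : (m : ℝ) + 0 + 2 ≠ 0 := by positivity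
  have h3 : (m : ℝ) + 0 + 3 ≠ 0 := by positivity
  have h4 : (m : ℝ) + 0 + 4 ≠ 0 := by positivity
  have h5 : 3 * (m : ℝ) + 0 + 9 ≠ 0 := by positivity
  have h6 : 3 * (m : ℝ) + 0 + 10 ≠ 0 := by positivity
  have h7 : 3 * (m : ℝ) + (m + 1) + 9 ≠ 0 := by positivity
  have h8 : 3 * (m : ℝ) + (m + 1) + 10 ≠ 0 := by positivity
  have h9 : (m : ℝ) + 2 + (m + 1) + 1 ≠ 0 := by positivity
  have h10 : 2 * 0 + 3 * ((m : ℝ) + 2) + (m + 1) + 3 ≠ 0 := by positivity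
  have h11 : (m : ℝ) + 2 + (m + 2) + 1 ≠ 0 := by positivity
  have h12 : 2 * 0 + 3 * ((m : ℝ) + 2) + (m + 2) + 3 ≠ 0 := by positivity
  have h13 : (m : ℝ) + 2 + (m + 1 + 1) + 1 ≠ 0 := by positivity
  field_simp
  ring

/-- product formulas (from the evaluation of `dh`) -/
theorem dh_dd (n : ℕ) : dh 1 (n + 1) ≠ 0 ∧ dh 3 n / dh 1 (n + 1) = CardyK.dd (n + 1) := by
  refine ⟨(Hom_dh_pos 1 (n + 1)).ne', ?_⟩
  induction n with
  | zero =>
    rw [Hom_dh, Hom_dh, prod_range_zero, prod_range_one, Hom_rr_succ, prod_range_one]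
    simp only [CardyK.dd]
    norm_num
  | succ n ih =>
    have h1 := Hom_rr1 n
    have e1 : dh 3 (n + 1) = dh 3 n * Pool.Agent.Helper28.Mrr2.rr 3 (n + 1) := by
      rw [Hom_dh, Hom_dh, prod_range_succ]
    have e2 : dh 1 (n + 1 + 1) = dh 1 (n + 1) * Pool.Agent.Helper28.Mrr2.rr 1 (n + 2) := by
      rw [Hom_dh 1 (n + 1 + 1), Hom_dh 1 (n + 1), prod_range_succ]
    have h2 := (Hom_dh_pos 1 (n + 1)).ne'
    have h3 := (Pool.Agent.Helper28.Mrr2.rr_pos 1 (n + 2)).ne'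
    have h4 : CardyK.dd (n + 1 + 1) = CardyK.dd (n + 1) *
        ((3 * ((n + 1 : ℕ) : ℝ) + 5) * (2 * ((n + 1 : ℕ) : ℝ) + 1) /
          ((6 * ((n + 1 : ℕ) : ℝ) + 5) * (((n + 1 : ℕ) : ℝ) + 2))) := rfl
    rw [h4, ← ih, e1, e2]
    push_cast
    have h5 : (6 * ((n : ℝ) + 1) + 5) ≠ 0 := by positivity
    have h6 : ((n : ℝ) + 1 + 2) ≠ 0 := by positivity
    rw [div_mul_div_comm, div_eq_div_iff (mul_ne_zero h2 h3) (by positivity)]
    linear_combination (dh 3 n * dh 1 (n + 1)) * h1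

theorem dh_xx (m : ℕ) : dh 0 (m + 2) ≠ 0 ∧ dh 4 m / dh 0 (m + 2) = CardyK.xx (m + 1) := by
  refine ⟨(Hom_dh_pos 0 (m + 2)).ne', ?_⟩
  induction m with
  | zero =>
    rw [Hom_dh, Hom_dh, prod_range_zero, prod_range_succ, prod_range_one, Hom_rr_succ, Hom_rr_succ]
    simp only [CardyK.xx, prod_range_succ, prod_range_zero]
    norm_num
  | succ m ih =>
    have h1 := Hom_rr2 m
    have e1 : dh 4 (m + 1) = dh 4 m * Pool.Agent.Helper28.Mrr2.rr 4 (m + 1) := by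
      rw [Hom_dh, Hom_dh, prod_range_succ]
    have e2 : dh 0 (m + 1 + 2) = dh 0 (m + 2) * Pool.Agent.Helper28.Mrr2.rr 0 (m + 3) := by
      rw [Hom_dh 0 (m + 1 + 2), Hom_dh 0 (m + 2), show m + 1 + 2 = (m + 2) + 1 by ring,
        prod_range_succ]
    have h2 := (Hom_dh_pos 0 (m + 2)).ne'
    have h3 := (Pool.Agent.Helper28.Mrr2.rr_pos 0 (m + 3)).ne'
    have h4 : CardyK.xx (m + 1 + 1) = CardyK.xx (m + 1) *
        ((3 * ((m + 1 : ℕ) : ℝ) + 7) * (2 * ((m + 1 : ℕ) : ℝ) + 1) /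
          ((6 * ((m + 1 : ℕ) : ℝ) + 7) * (((m + 1 : ℕ) : ℝ) + 3))) := rfl
    rw [h4, ← ih, e1, e2]
    push_cast
    rw [div_mul_div_comm, div_eq_div_iff (mul_ne_zero h2 h3) (by positivity)]
    linear_combination (dh 4 m * dh 0 (m + 2)) * h1

/-! ### the values -/

theorem Hom_zero_Cube : (fun _ => (0 : ℝ)) ∈ Cube := by
  intro j
  rw [abs_zero]
  have := Real.pi_pos
  positivity

theorem Hom_P (n : ℕ) (f : M →ₗ[ℝ] ℝ) :
    f (P n (fun _ => 0)) = f (V n (fun _ => 0)) / Z n (fun _ => 0) := by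
  have hb := Hom_zero_Cube
  have h1 := vs_P n hb
  have h2 : tot (P n (fun _ => 0)) = 1 := (P_spec n hb).2.2.2.1
  rw [h1, map_smul, smul_eq_mul] at h2
  have h3 : Z n (fun _ => 0) ≠ 0 := by
    intro h
    unfold Z at h
    rw [h, mul_zero] at h2
    exact zero_ne_one h2
  rw [h1, map_smul, smul_eq_mul, eq_div_iff h3]
  unfold Z
  linear_combination (f (V n fun _ => 0)) * h2

/-- corner - opposite side: exact value -/
theorem dd_value (n : ℕ) : ind (A3 n) (P n (fun _ => 0)) = CardyK.dd n := by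
  cases n with
  | zero =>
    have h1 : (A3 0 : Set St) = Set.univ := by
      ext σ
      simp only [A3, Set.mem_ofPred_eq, Set.mem_univ, iff_true]
      exact σ.refl 0
    rw [h1, ind_univ]
    exact (P_spec 0 Hom_zero_Cube).2.2.2.1
  | succ n =>
    rw [Hom_P, hom3, hom1, ← (dh_dd n).2]
    have h1 := (Hom_dh_pos 1 (n + 1)).ne'
    have e1 : (4 : ℝ) ^ ((n + 1) ^ 2) = 4 ^ (n ^ 2 + 2 * n) * 4 := by
      rw [← pow_succ]; congr 1; ring
    have e2 : (3 : ℝ) ^ ((n + 1) ^ 2) = 3 ^ (n ^ 2 + 2 * n) * 3 := by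
      rw [← pow_succ]; congr 1; ring
    rw [e1, e2]
    have h2 : (4 : ℝ) ^ (n ^ 2 + 2 * n) ≠ 0 := by positivity
    have h3 : (3 : ℝ) ^ (n ^ 2 + 2 * n) ≠ 0 := by positivity
    field_simp

theorem Hom_tot_VE (n : ℕ) : tot (VE n) = (4 ^ (n ^ 2))⁻¹ * 3 ^ (n ^ 2) / 3 ^ n * dh 0 n := by
  have h1 := homE n
  have h2 : (3 : ℝ) ^ n ≠ 0 := by positivity
  field_simp at h1 ⊢
  linear_combination h1

/-- corner - corner: exact value -/
theorem xx_value (m : ℕ) : tot (VE (m + 1)) ≠ 0 ∧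
    ind (A5 (m + 1)) (VE (m + 1)) / tot (VE (m + 1)) = CardyK.xx m := by
  have h0 : tot (VE (m + 1)) ≠ 0 := by
    rw [Hom_tot_VE]
    have := (Hom_dh_pos 0 (m + 1)).ne'
    positivity
  refine ⟨h0, ?_⟩
  cases m with
  | zero =>
    have h1 : tot (VE 1) = 1 / 4 := by
      rw [Hom_tot_VE, Hom_dh, prod_range_one, Hom_rr_succ, prod_range_one]
      norm_num
    obtain ⟨Q, hQ1, hQ2, hQ3⟩ := VE_coeff 1 (ind (A5 1))
    have h2 : ∀ a, Q.eval (XX a) = (XX a + 1) / 4 := by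
      intro a
      rw [← hQ2, fun_ind_add (B := A3 1), base1]
      · have e2 : ba 1 a 2 = a := Even_ba_self 1 a
        rw [Even_ba_lt a (by norm_num), e2, zero_sub, zero_add, Hom_ss]
      · intro σ
        simp only [A5, A3, Set.mem_ofPred_eq]
        exact ⟨fun h => h.2, fun h => ⟨σ.refl 0, h⟩⟩
    obtain ⟨w, hw⟩ := Hom_coeff 1 (fun i => XX (Hom_a 1 i)) (Hom_a_inj 1)
    have h3 : (Polynomial.C (1 / 4 : ℝ) * (Polynomial.X + Polynomial.C 1)).natDegree ≤ 1 :=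
      (Polynomial.natDegree_C_mul_le _ _).trans (Polynomial.natDegree_X_add_C _).le
    have h4 : Q.coeff 1 = 1 / 4 := by
      have h5 := hw _ h3
      rw [hw Q hQ1]
      simp only [h2]
      simp only [Polynomial.eval_mul, Polynomial.eval_add, Polynomial.eval_X, Polynomial.eval_C] at h5
      rw [sum_congr rfl fun i _ => (show w i * ((XX (Hom_a 1 i) + 1) / 4) =
        w i * (1 / 4 * (XX (Hom_a 1 i) + 1)) by ring), ← h5, Polynomial.coeff_C_mul,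
        Polynomial.coeff_add, Polynomial.coeff_X_one, Polynomial.coeff_C, if_neg (by norm_num)]
      norm_num
    rw [zero_add, ← hQ3, h4, h1]
    simp [CardyK.xx]
  | succ m =>
    rw [homE5, Hom_tot_VE, ← (dh_xx m).2]
    have h1 := (Hom_dh_pos 0 (m + 2)).ne'
    have e1 : (4 : ℝ) ^ ((m + 2) ^ 2) = 4 ^ (m ^ 2 + 4 * m) * 256 := by
      rw [show (256 : ℝ) = 4 ^ 4 by norm_num, ← pow_add]; congr 1; ring
    have e2 : (3 : ℝ) ^ ((m + 2) ^ 2) = 3 ^ (m ^ 2 + 3 * m) * 3 ^ (m + 2) * 9 := by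
      rw [show (9 : ℝ) = 3 ^ 2 by norm_num, ← pow_add, ← pow_add]; congr 1; ring
    rw [e1, e2]
    have h2 : (4 : ℝ) ^ (m ^ 2 + 4 * m) ≠ 0 := by positivity
    have h3 : (3 : ℝ) ^ (m ^ 2 + 3 * m) ≠ 0 := by positivity
    have h4 : (3 : ℝ) ^ (m + 2) ≠ 0 := by positivity
    field_simp
end IPK
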