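import Pool.Agent.Helper78.K.Even
import Pool.Agent.Helper8.PercGlue.Strip
/-! MODULE K.PercK: half-infinite diagonal strips (see the explanations in `Lead/IP/PercB.lean` and `Helper92/Perc/Sweep.lean`).

Odd chain: strip `0 ≤ x+y ≤ 2n+1`, `w = x - y ≥ 1`.  Even chain: strip `0 ≤ x+y ≤ 2n`, `x - y ≥ 1`; sites at odd levels `u = 2k+1`,
`0 ≤ k < n`, at even levels `u = 2k`, `0 ≤ k ≤ n`; the new site `u = 2n` takes the index `n` (`E_{2n} = detach n` first),
`row 0 _ (2n)` = edges `i = 2n-1, ..., 0` of layer 0, `row 1 _ (2n)` = edges of layer 1 (the new site `u = 2n-1` takes the index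
`n`, which becomes `n-1` after `del 0`). -/
namespace IPK
open IP Finset Filter Topology H47Perc H47Perc.DS

/-- `0 ≤ x + y ≤ 2n+1`, `a ≤ x - y ≤ b` -/
noncomputable def stripF (n : ℕ) (a b : ℤ) : Finset (ℤ × ℤ) :=
  ((Finset.Icc (-(|a| + |b| + 2 * n + 1)) (|a| + |b| + 2 * n + 1)) ×ˢ
    (Finset.Icc (-(|a| + |b| + 2 * n + 1)) (|a| + |b| + 2 * n + 1))).filter
    (fun z => 0 ≤ z.1 + z.2 ∧ z.1 + z.2 ≤ 2 * n + 1 ∧ a ≤ z.1 - z.2 ∧ z.1 - z.2 ≤ b)

/-- the vertex `(1,0)` is joined to the line `x + y = 2n+1` -/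
def Hit (n : ℕ) (ω : Finset (Sym2 (ℤ × ℤ))) : Prop := ∃ z : ℤ × ℤ, z.1 + z.2 = 2 * n + 1 ∧ Joined ω (1, 0) z

/-- `0 ≤ x + y ≤ 2n`, `a ≤ x - y ≤ b` -/
noncomputable def stripE (n : ℕ) (a b : ℤ) : Finset (ℤ × ℤ) :=
  ((Finset.Icc (-(|a| + |b| + 2 * n + 1)) (|a| + |b| + 2 * n + 1)) ×ˢ
    (Finset.Icc (-(|a| + |b| + 2 * n + 1)) (|a| + |b| + 2 * n + 1))).filter
    (fun z => 0 ≤ z.1 + z.2 ∧ z.1 + z.2 ≤ 2 * n ∧ a ≤ z.1 - z.2 ∧ z.1 - z.2 ≤ b)

theorem mem_stripF {n : ℕ} {a b : ℤ} {z : ℤ × ℤ} : z ∈ stripF n a b ↔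
    0 ≤ z.1 + z.2 ∧ z.1 + z.2 ≤ 2 * n + 1 ∧ a ≤ z.1 - z.2 ∧ z.1 - z.2 ≤ b := by
  unfold stripF
  rw [mem_filter, mem_product, mem_Icc, mem_Icc]
  constructor
  · exact fun h => h.2
  · intro h
    refine ⟨?_, h⟩
    rcases abs_cases a with ha | ha <;> rcases abs_cases b with hb | hb <;> omega

theorem mem_stripE {n : ℕ} {a b : ℤ} {z : ℤ × ℤ} : z ∈ stripE n a b ↔
    0 ≤ z.1 + z.2 ∧ z.1 + z.2 ≤ 2 * n ∧ a ≤ z.1 - z.2 ∧ z.1 - z.2 ≤ b := by
  unfold stripE
  rw [mem_filter, mem_product, mem_Icc, mem_Icc]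
  constructor
  · exact fun h => h.2
  · intro h
    refine ⟨?_, h⟩
    rcases abs_cases a with ha | ha <;> rcases abs_cases b with hb | hb <;> omega

/-! ### probabilities as functionals of the law -/

theorem PercK_perc {S : Finset (ℤ × ℤ)} {B : Finset (Sym2 (ℤ × ℤ)) → Prop} {A : Set St} {L : ℤ}
    {f : ℕ → ℤ × ℤ} (h : ∀ ω ⊆ edgesIn S, B ω ↔ st L f ω ∈ A) :
    perc half S B = ind A (law L (edgesIn S) f) := by
  classical
  rw [perc_half_eq]
  unfold law
  rw [map_sum, card_filter]
  push_cast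
  rw [sum_div]
  apply sum_congr rfl
  intro ω hω
  rw [mem_powerset] at hω
  rw [ind_single]
  by_cases hc : st L f ω ∈ A
  · rw [if_pos ((h ω hω).2 hc), if_pos hc]
    simp only [one_div, inv_pow]
  · rw [if_neg (fun h' => hc ((h ω hω).1 h')), if_neg hc, zero_div]

/-! ### the odd chain -/

theorem PercK_stripF (n : ℕ) (a b : ℤ) : stripF n a b = reg n a b := by
  ext z
  rw [mem_stripF, mem_reg]

theorem PercK_joined (n : ℕ) {ω : Finset (Sym2 (ℤ × ℤ))} :
    Hit n ω ↔ st (2 * n + 1) (fr n 0) ω ∈ A3 n := by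
  rcases Nat.eq_zero_or_pos n with rfl | hn
  · constructor
    · intro _
      exact (st (2 * (0 : ℕ) + 1) (fr 0 0) ω).refl 0
    · intro _
      exact ⟨(1, 0), by simp, joined_refl _ _⟩
  · exact joined_iff_st n hn

theorem perc_odd (n N : ℕ) : perc half (stripF n 1 (2 * N + 1)) (Hit n) =
    ind (A3 n) (((T n (fun _ => 0)) ^ N) (Finsupp.single (bot n) 1)) := by
  rw [PercK_stripF, PercK_perc (fun ω _ => PercK_joined n (ω := ω)), law_reflect]
  have h := law_strip n (-(N : ℕ)) N
  have a3 : 2 * (-((N : ℕ) : ℤ)) + 1 = 2 - (2 * N + 1) := by ring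
  have a4 : -((N : ℕ) : ℤ) + ((N : ℕ) : ℤ) = 0 := by ring
  rw [a3, a4] at h
  simp only [mul_zero, zero_add] at h
  rw [h, ← T_zb]
  rfl

/-! ### the even chain: one double layer -/

theorem PercK_mono {L : ℤ} {f g : ℕ → ℤ × ℤ} {off top top' : ℕ} {F : Finset (Sym2 (ℤ × ℤ))}
    (h : Adm L f g off top F) (ht : top' ≤ top) : Adm L f g off top' F where
  h1 := fun i j a b c d => h.h1 i j a (by omega) c (by omega)
  h2 := fun i j a b c d => h.h2 i j a (by omega) c (by omega)
  h3 := fun i a b => h.h3 i a (by omega)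
  h4 := fun k a b => h.h4 k a (by omega)

/-- the edges between the levels `2T+1` and `2T+2` -/
def PercK_E0 (n : ℕ) (T : ℤ) : Finset (Sym2 (ℤ × ℤ)) :=
  (Ico 0 (0 + 2 * n)).image (ed (fr n T) (gm n T))

/-- the edges between the levels `2T+2` and `2T+3` -/
def PercK_E1 (n : ℕ) (T : ℤ) : Finset (Sym2 (ℤ × ℤ)) :=
  (Ico 1 (1 + 2 * n)).image (ed (gm n T) (hm n T))

theorem PercK_detach (n : ℕ) (T : ℤ) {F : Finset (Sym2 (ℤ × ℤ))}
    (hF : ∀ u v, s(u, v) ∈ F → u.1 - u.2 ≤ 2 * T + 1) :
    E (2 * n) (law (2 * n + 1) F (fr n T)) =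
      law (2 * n + 1) F (stg (fr n T) (gm n T) (0 + 2 * n)) := by
  have e : stg (fr n T) (gm n T) (0 + 2 * n) = Function.update (fr n T) n (gm n T n) := by
    funext k
    unfold stg
    rcases lt_trichotomy k n with h | h | h
    · rw [if_neg (by omega), Function.update_of_ne (by omega)]
    · subst h
      rw [if_pos (by omega), Function.update_self]
    · rw [if_pos (by omega), Function.update_of_ne (by omega), gm_wall h, fr_wall (by omega)]
  rw [E_law, e]
  unfold law
  apply sum_congr rfl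
  intro ω hω
  rw [mem_powerset] at hω
  congr 1
  rw [act_even', st_detach]
  · intro u hu
    rw [gm_apply le_rfl] at hu
    have := hF _ _ (hω hu)
    simp only at this
    omega
  · rw [gm_apply le_rfl]
    simp only
    omega
  · intro j _ h
    have h2 := fr_level n T j
    rw [h, gm_apply le_rfl] at h2
    simp only at h2
    omega

theorem PercK_double (n : ℕ) (T : ℤ) {F : Finset (Sym2 (ℤ × ℤ))}
    (hF : ∀ u v, s(u, v) ∈ F → u.1 - u.2 ≤ 2 * T + 1) :
    TE n (law (2 * n + 1) F (fr n T)) =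
      law (2 * n + 1) (F ∪ PercK_E0 n T ∪ PercK_E1 n T) (fr n (T + 1)) := by
  have hF' : ∀ u v, s(u, v) ∈ F ∪ PercK_E0 n T → u.1 - u.2 ≤ 2 * T + 2 := by
    intro u v h
    rw [mem_union] at h
    rcases h with h | h
    · have := hF u v h
      omega
    · unfold PercK_E0 at h
      rw [mem_image] at h
      obtain ⟨i, hi, he⟩ := h
      rw [mem_Ico] at hi
      unfold ed at he
      rw [gm_apply (by omega), Sym2.eq_iff] at he
      rcases he with ⟨rfl, rfl⟩ | ⟨rfl, rfl⟩
      · have := fr_level n T (i / 2)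
        omega
      · simp only
        omega
  have s1 : stg (fr n T) (gm n T) 0 = gm n T := by
    funext k
    unfold stg
    rw [if_pos (by omega)]
  have r0 := sweep (2 * n) F (PercK_mono (adm0 n T hF) (show 0 + 2 * n ≤ 0 + (2 * n + 1) by omega))
  rw [s1] at r0
  have r1 := sweep (2 * n) (F ∪ PercK_E0 n T)
    (PercK_mono (adm1 n T hF') (show 1 + 2 * n ≤ 1 + (2 * n + 1) by omega))
  have w1 : law (2 * n + 1) (F ∪ PercK_E0 n T) (gm n T) =
      law (2 * n + 1) (F ∪ PercK_E0 n T) (stg (gm n T) (hm n T) (1 + 2 * n)) := by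
    apply law_congr_wall
    intro k
    unfold stg
    by_cases hk : n < k
    · right
      rw [if_pos (by omega), gm_wall hk, hm_wall (by omega)]
      simp only
      omega
    · left
      rw [if_neg (by omega)]
  have w2 : (fun k => stg (gm n T) (hm n T) 1 (k + 1)) = fr n (T + 1) := by
    funext k
    unfold stg
    rw [if_pos (by omega)]
    unfold hm fr
    rcases le_total (k:ℤ) n with h | h
    · rw [min_eq_left (by push_cast; omega), min_eq_left h]
      ext <;> simp only <;> push_cast <;> ring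
    · rw [min_eq_right (by push_cast; omega), min_eq_right h]
      ext <;> simp only <;> ring
  show De 0 (row 1 zb (2 * n) (row 0 zb (2 * n) (E (2 * n) (law (2 * n + 1) F (fr n T))))) = _
  rw [PercK_detach n T hF, r0]
  change De 0 (row 1 zb (2 * n) (law (2 * n + 1) (F ∪ PercK_E0 n T) (gm n T))) = _
  rw [w1, r1, De_law, w2]
  rfl

/-- the edges of the strip -/
theorem PercK_edges (n : ℕ) {a T : ℤ} (ha : a ≤ 2 * T + 1) :
    edgesIn (stripE n a (2 * T + 1)) ∪ PercK_E0 n T ∪ PercK_E1 n T =
      edgesIn (stripE n a (2 * (T + 1) + 1)) := by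
  ext e
  constructor
  · intro h
    rw [mem_union, mem_union] at h
    rcases h with (h | h) | h
    · refine edgesIn_mono ?_ h
      intro z hz
      rw [mem_stripE] at hz ⊢
      omega
    · unfold PercK_E0 at h
      rw [mem_image] at h
      obtain ⟨i, hi, rfl⟩ := h
      rw [mem_Ico] at hi
      unfold ed
      rw [fr_apply (by omega), gm_apply (by omega), mem_edgesIn, mem_stripE, mem_stripE]
      simp only
      refine ⟨by omega, by omega, ?_⟩
      rcases Nat.even_or_odd' i with ⟨k, hk | hk⟩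
      · left
        simp only
        have e1 : i / 2 = k := by omega
        have e2 : (i + 1) / 2 = k := by omega
        rw [e1, e2]
        refine ⟨rfl, ?_⟩
        rw [show (k:ℤ) - T - (k - T - 1) = 1 by ring]
        simp
      · right
        simp only
        have e1 : i / 2 = k := by omega
        have e2 : (i + 1) / 2 = k + 1 := by omega
        rw [e1, e2]
        refine ⟨by push_cast; ring, ?_⟩
        rw [show (k:ℤ) + T + 1 - (((k + 1 : ℕ) : ℤ) + T + 1) = -1 by push_cast; ring]
        simp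
    · unfold PercK_E1 at h
      rw [mem_image] at h
      obtain ⟨i, hi, rfl⟩ := h
      rw [mem_Ico] at hi
      unfold ed
      rw [gm_apply (by omega), hm_apply (by omega), mem_edgesIn, mem_stripE, mem_stripE]
      simp only
      refine ⟨by omega, by omega, ?_⟩
      rcases Nat.even_or_odd' i with ⟨k, hk | hk⟩
      · left
        simp only
        have e1 : i / 2 = k := by omega
        have e2 : (i + 1) / 2 = k := by omega
        rw [e1, e2]
        refine ⟨rfl, ?_⟩
        rw [show (k:ℤ) - T - 1 - (k - T - 2) = 1 by ring]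
        simp
      · right
        simp only
        have e1 : i / 2 = k := by omega
        have e2 : (i + 1) / 2 = k + 1 := by omega
        rw [e1, e2]
        refine ⟨by push_cast; ring, ?_⟩
        rw [show (k:ℤ) + T + 1 - (((k + 1 : ℕ) : ℤ) + T + 1) = -1 by push_cast; ring]
        simp
  · intro h
    rw [mem_union, mem_union]
    rcases edge_cases h with ⟨x, y, rfl⟩ | ⟨x, y, rfl⟩
    · rw [hE_mem, mem_stripE, mem_stripE] at h
      simp only at h
      by_cases h1 : x - y + 1 ≤ 2 * T + 1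
      · left; left
        rw [hE_mem, mem_stripE, mem_stripE]
        simp only
        omega
      · by_cases h2 : x - y = 2 * T + 1
        · left; right
          unfold PercK_E0
          rw [mem_image]
          obtain ⟨k, hk⟩ : ∃ k : ℕ, x + y = 2 * (k:ℤ) + 1 := ⟨((x + y) / 2).toNat, by omega⟩
          refine ⟨2 * k + 1, by rw [mem_Ico]; omega, ?_⟩
          unfold ed hE
          rw [show (2 * k + 1) / 2 = k by omega, show (2 * k + 1 + 1) / 2 = k + 1 by omega,
            fr_apply (by omega), gm_apply (by omega)]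
          have e1 : (k:ℤ) + T + 1 = x := by omega
          have e2 : (k:ℤ) - T = y := by omega
          have e3 : ((k + 1 : ℕ):ℤ) + T + 1 = x + 1 := by push_cast; omega
          have e4 : ((k + 1 : ℕ):ℤ) - T - 1 = y := by push_cast; omega
          rw [e1, e2, e3, e4]
        · right
          unfold PercK_E1
          rw [mem_image]
          obtain ⟨k, hk⟩ : ∃ k : ℕ, x + y = 2 * (k:ℤ) := ⟨((x + y) / 2).toNat, by omega⟩
          refine ⟨2 * k + 1, by rw [mem_Ico]; omega, ?_⟩
          unfold ed hE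
          rw [show (2 * k + 1) / 2 = k by omega, show (2 * k + 1 + 1) / 2 = k + 1 by omega,
            gm_apply (by omega), hm_apply (by omega)]
          have e1 : (k:ℤ) + T + 1 = x := by omega
          have e2 : (k:ℤ) - T - 1 = y := by omega
          have e3 : ((k + 1 : ℕ):ℤ) + T + 1 = x + 1 := by push_cast; omega
          have e4 : ((k + 1 : ℕ):ℤ) - T - 2 = y := by push_cast; omega
          rw [e1, e2, e3, e4]
    · rw [vE_mem, mem_stripE, mem_stripE] at h
      simp only at h
      by_cases h1 : x - y ≤ 2 * T + 1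
      · left; left
        rw [vE_mem, mem_stripE, mem_stripE]
        simp only
        omega
      · by_cases h2 : x - y = 2 * T + 2
        · left; right
          unfold PercK_E0
          rw [mem_image]
          obtain ⟨k, hk⟩ : ∃ k : ℕ, x + y = 2 * (k:ℤ) := ⟨((x + y) / 2).toNat, by omega⟩
          refine ⟨2 * k, by rw [mem_Ico]; omega, ?_⟩
          unfold ed vE
          rw [show (2 * k) / 2 = k by omega, show (2 * k + 1) / 2 = k by omega,
            fr_apply (by omega), gm_apply (by omega), Sym2.eq_swap]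
          have e1 : (k:ℤ) + T + 1 = x := by omega
          have e2 : (k:ℤ) - T - 1 = y := by omega
          have e4 : (k:ℤ) - T = y + 1 := by omega
          rw [e1, e2, e4]
        · right
          unfold PercK_E1
          rw [mem_image]
          obtain ⟨k, hk⟩ : ∃ k : ℕ, x + y = 2 * (k:ℤ) - 1 := ⟨((x + y + 1) / 2).toNat, by omega⟩
          refine ⟨2 * k, by rw [mem_Ico]; omega, ?_⟩
          unfold ed vE
          rw [show (2 * k) / 2 = k by omega, show (2 * k + 1) / 2 = k by omega,
            gm_apply (by omega), hm_apply (by omega), Sym2.eq_swap]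
          have e1 : (k:ℤ) + T + 1 = x := by omega
          have e2 : (k:ℤ) - T - 2 = y := by omega
          have e4 : (k:ℤ) - T - 1 = y + 1 := by omega
          rw [e1, e2, e4]

theorem PercK_line (n : ℕ) (a : ℤ) : edgesIn (stripE n a a) = ∅ := by
  rw [eq_empty_iff_forall_notMem]
  intro e h
  rcases edge_cases h with ⟨x, y, rfl⟩ | ⟨x, y, rfl⟩
  · rw [hE_mem, mem_stripE, mem_stripE] at h
    simp only at h
    omega
  · rw [vE_mem, mem_stripE, mem_stripE] at h
    simp only at h
    omega

/-- **The law of the state of a half strip.** -/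
theorem PercK_law (n : ℕ) (T : ℤ) (m : ℕ) :
    law (2 * n + 1) (edgesIn (stripE n (2 * T + 1) (2 * (T + m) + 1))) (fr n (T + m)) =
      ((TE n) ^ m) (Finsupp.single (bot n) 1) := by
  induction m with
  | zero =>
    rw [Nat.cast_zero, add_zero, PercK_line, pow_zero]
    unfold law
    rw [powerset_empty, sum_singleton, st_empty]
    simp
  | succ m ih =>
    rw [pow_succ', Module.End.mul_apply, ← ih, PercK_double, PercK_edges n (by omega)]
    · push_cast
      rw [← add_assoc]
    · intro u v h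
      rw [mem_edgesIn, mem_stripE] at h
      exact h.1.2.2.2

/-! ### reflection and the event -/

theorem PercK_map_rho (n : ℕ) (b : ℤ) :
    (stripE n (2 - b) 1).map rho.toEmbedding = stripE n 1 b := by
  ext z
  rw [mem_map_equiv, rho_symm, mem_stripE, mem_stripE, rho_apply]
  simp only
  constructor
  · intro h; omega
  · intro h; omega

theorem PercK_reflect (n : ℕ) (b : ℤ) :
    law (2 * n + 1) (edgesIn (stripE n 1 b)) (fr n 0) =
      law (2 * n + 1) (edgesIn (stripE n (2 - b) 1)) (fr n 0) := by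
  unfold law
  rw [← PercK_map_rho n b, edgesIn_map rho_iso, card_map]
  symm
  apply sum_nbij' (i := fun ω => ω.map (emb rho)) (j := fun ω => ω.map (emb rho))
  · intro ω hω
    rw [mem_powerset] at hω ⊢
    exact map_subset_map.2 hω
  · intro ω hω
    rw [mem_powerset] at hω ⊢
    have := (map_subset_map (f := emb rho)).2 hω
    have e := emb_symm_map rho (edgesIn (stripE n (2 - b) 1))
    rw [rho_symm] at e
    rwa [e] at this
  · intro ω _
    have e := emb_symm_map rho ω
    rwa [rho_symm] at e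
  · intro ω _
    have e := emb_symm_map rho ω
    rwa [rho_symm] at e
  · intro ω _
    rw [st_map_rho]

theorem PercK_joinedE {n : ℕ} (hn : 1 ≤ n) {b : ℤ} {ω : Finset (Sym2 (ℤ × ℤ))}
    (h : ω ⊆ edgesIn (stripE n 1 b)) :
    Joined ω (1, 0) ((n : ℤ), (n : ℤ) - 1) ↔
      st (2 * n + 1) (fr n 0) ω ∈ {σ : St | σ 0 (n - 1)} := by
  have f0 : fr n 0 0 = (1, 0) := by
    rw [fr_zero]
    simp
  have fn : fr n 0 (n - 1) = ((n : ℤ), (n : ℤ) - 1) := by
    rw [fr_apply (by omega)]
    ext
    · simp only; omega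
    · simp only; omega
  have key : st (2 * n + 1) (fr n 0) ω ∈ {σ : St | σ 0 (n - 1)} ↔
      cw (2 * n + 1) ω (1, 0) ((n : ℤ), (n : ℤ) - 1) := by
    rw [Set.mem_ofPred_eq, st_rel, f0, fn]
  rw [key]
  constructor
  · exact cw_of_joined
  · intro hc
    have hw : ∀ u : ℤ × ℤ, u.1 + u.2 = 2 * n + 1 → ¬ Joined ω (1, 0) u := by
      intro u hu hj
      have h1 : cw (2 * n + 2) ω u (1, 0) := Setoid.symm' _ (cw_of_joined hj)
      have h2 : (1, 0) = u := by
        refine cw_isolated ?_ (by omega) h1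
        intro v hv
        have h3 := mem_stripE.1 (mem_edgesIn.1 (h hv)).1
        omega
      rw [← h2] at hu
      simp only at hu
      omega
    have hle : cw (2 * n + 1) ω ≤ Setoid.comap (Joined ω (1, 0)) ⟨Eq, eq_equivalence⟩ := by
      rw [cw_le_iff]
      constructor
      · intro u v huv
        rw [Setoid.comap_rel]
        apply propext
        constructor
        · exact fun h1 => joined_trans h1 (joined_edge huv)
        · exact fun h1 => joined_trans h1 (joined_symm (joined_edge huv))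
      · intro u v hu hv
        rw [Setoid.comap_rel]
        apply propext
        exact ⟨fun h1 => absurd h1 (hw u hu), fun h1 => absurd h1 (hw v hv)⟩
    have h2 := hle hc
    rw [Setoid.comap_rel] at h2
    exact (show Joined ω (1, 0) (1, 0) = Joined ω (1, 0) ((n : ℤ), (n : ℤ) - 1) from h2) ▸
      joined_refl _ _

theorem perc_even (n N : ℕ) (hn : 1 ≤ n) :
    perc half (stripE n 1 (2 * N + 1)) (fun ω => Joined ω (1, 0) ((n : ℤ), (n : ℤ) - 1)) =
    ind {σ | σ 0 (n - 1)} (((TE n) ^ N) (Finsupp.single (bot n) 1)) := by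
  rw [PercK_perc (fun ω hω => PercK_joinedE hn hω), PercK_reflect]
  have h := PercK_law n (-(N : ℕ)) N
  have a3 : 2 * (-((N : ℕ) : ℤ)) + 1 = 2 - (2 * N + 1) := by ring
  have a4 : -((N : ℕ) : ℤ) + ((N : ℕ) : ℤ) = 0 := by ring
  rw [a3, a4] at h
  simp only [mul_zero, zero_add] at h
  rw [h]
end IPK
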