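import Pool.Agent.Helper78.K.Hom
import Pool.Agent.Helper78.K.PercK
/-! MODULE K.Main: exact probabilities in the half-infinite diagonal strips. -/
namespace IPK
open IP Finset Filter Topology H47Perc

theorem main_b0 : (fun _ => (0 : ℝ)) ∈ Cube := by
  intro j
  have := Real.pi_pos
  rw [abs_zero]; linarith

theorem main_bot_Sup (n : ℕ) : Finsupp.single (bot n) (1 : ℝ) ∈ Sup (W n) := single_Sup (bot_W n) 1

theorem main_tot_single (σ : St) (c : ℝ) : tot (Finsupp.single σ c) = c := by simp [tot]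

/-- convergence of linear functionals -/
theorem main_tendsto (n : ℕ) (f : M →ₗ[ℝ] ℝ) :
    Tendsto (fun N : ℕ => f (((T n (fun _ => 0)) ^ N) (Finsupp.single (bot n) 1))) atTop
      (𝓝 (f (P n (fun _ => 0)))) := by
  have hS : ∀ N : ℕ, ((T n (fun _ => 0)) ^ N) (Finsupp.single (bot n) 1) ∈ Sup (W n) := fun N =>
    pow_T_Sup n _ (main_bot_Sup n) N
  have h1 : ∀ N : ℕ, f (((T n (fun _ => 0)) ^ N) (Finsupp.single (bot n) 1)) =
      ∑ σ ∈ (W_finite n).toFinset, (((T n (fun _ => 0)) ^ N) (Finsupp.single (bot n) 1)) σ •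
        f (Finsupp.single σ 1) := fun N => vs_lin_eq n f (hS N)
  rw [vs_lin_eq n f (P_Sup n _)]
  simp_rw [h1]
  apply tendsto_finsetSum
  intro σ _
  have h2 := P_tendsto n main_b0 (main_bot_Sup n) σ
  rw [main_tot_single] at h2
  simpa using h2.mul_const (f (Finsupp.single σ 1))

/-- corner - opposite side in the half-infinite strip `0 ≤ x+y ≤ 2n+1`, `x-y ≥ 1` -/
theorem corner_side (n : ℕ) : Tendsto (fun N : ℕ => perc half (stripF n 1 (2 * N + 1)) (Hit n)) atTop
    (𝓝 (CardyK.dd n)) := by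
  have h := main_tendsto n (ind (A3 n))
  rw [dd_value] at h
  refine h.congr (fun N => ?_)
  rw [perc_odd]

theorem main_iso (n N : ℕ) : ((TE n) ^ N) (Finsupp.single (bot n) 1) ∈ Sup {σ | σ ∈ W n ∧ ∀ k < n, ¬ σ k n} := by
  induction N with
  | zero =>
    rw [pow_zero]
    apply single_Sup
    refine ⟨bot_W n, fun k hk h => ?_⟩
    rw [bb_bot_iff] at h
    omega
  | succ N ih =>
    rw [pow_succ', Module.End.mul_apply]
    exact TE_iso ih

/-- corner - corner in the half-infinite strip `0 ≤ x+y ≤ 2(m+1)`, `x-y ≥ 1` -/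
theorem corner_corner (m : ℕ) : Tendsto (fun N : ℕ => perc half (stripE (m + 1) 1 (2 * N + 1))
    (fun ω => Joined ω (1, 0) ((m : ℤ) + 1, (m : ℤ)))) atTop (𝓝 (CardyK.xx m)) := by
  obtain ⟨h0, hv⟩ := xx_value m
  set w := (tot (VE (m + 1)))⁻¹ • VE (m + 1) with hw
  have hwS : w ∈ Sup (W (m + 1)) := Submodule.smul_mem _ _ (VE_Sup (m + 1))
  have hTw : TE (m + 1) w = w := by rw [hw, map_smul, TE_VE]
  have htot : tot (Finsupp.single (bot (m + 1)) (1 : ℝ)) = tot w := by
    rw [main_tot_single, hw, map_smul, smul_eq_mul, inv_mul_cancel₀ h0]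
  have h := TE_tendsto (main_bot_Sup (m + 1)) hwS hTw htot (ind (A5 (m + 1)))
  have e : ind (A5 (m + 1)) w = CardyK.xx m := by
    rw [hw, map_smul, smul_eq_mul, ← hv]
    ring
  rw [e] at h
  refine h.congr (fun N => ?_)
  have hp := perc_even (m + 1) N (by omega)
  have e2 : ((m + 1 : ℕ) : ℤ) = (m : ℤ) + 1 := by push_cast; ring
  have e3 : ((m : ℤ) + 1 - 1) = m := by ring
  rw [e2, e3] at hp
  rw [hp]
  have hid : ∀ v : M, Finsupp.lmapDomain ℝ ℝ (id : St → St) v = v := fun v => by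
    rw [Finsupp.lmapDomain_apply, Finsupp.mapDomain_id]
  rw [← hid (((TE (m + 1)) ^ N) (Finsupp.single (bot (m + 1)) 1))]
  rw [ind_map (A := A5 (m + 1)) (A' := {σ | σ 0 (m + 1 - 1)})
    (B := {σ | σ ∈ W (m + 1) ∧ ∀ k < m + 1, ¬ σ k (m + 1)}) (g := id) _ (main_iso (m + 1) N), hid]
  intro σ hσ
  rw [fun_mem5]
  constructor
  · intro h1; exact h1.1
  · intro h1; exact ⟨h1, hσ.2 0 (by omega)⟩
end IPK
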