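import Pool.Agent.Helper78.K.NodeR
import Pool.Agent.Helper78.K.Fun
/-! MODULE K.N1: the total mass in the reflecting specialisation (`N = 1` special strand, on the right).
Induction on `m`; both sides are trigonometric polynomials of degree `2 m` in `y`, even in `y`; at `y = ± x k + π/3`
(`pb_perm`, `pb_neg` bring the pair `k` to the last place) use `rec_right` and `Gd_rec'`; `4 m > 2 m` nodes. -/
namespace IPK
open IP Finset

theorem pb_update_right {l m i : ℕ} (h : l ≤ i) (x c : ℕ → ℝ) (y : ℝ) :
    pb l m x (Function.update c i y) = Function.update (pb l m x c) (i + 2 * m) y := by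
  funext j
  by_cases hj : j = i + 2 * m
  · subst hj
    rw [Function.update_self, pb_right _ _ (by omega), show i + 2 * m - 2 * m = i by omega, Function.update_self]
  · rw [Function.update_of_ne hj]
    unfold pb
    split_ifs with a1 a2 a3
    · rw [Function.update_of_ne (by omega)]
    · rfl
    · rfl
    · rw [Function.update_of_ne (by omega)]

theorem pb_update_left {l m i : ℕ} (h : i < l) (x c : ℕ → ℝ) (y : ℝ) :
    pb l m x (Function.update c i y) = Function.update (pb l m x c) i y := by
  funext j
  by_cases hj : j = i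
  · subst hj
    rw [Function.update_self, pb_left _ _ h, Function.update_self]
  · rw [Function.update_of_ne hj]
    unfold pb
    split_ifs with a1 a2 a3
    · rw [Function.update_of_ne (by omega)]
    · rfl
    · rfl
    · rw [Function.update_of_ne (by omega)]

theorem XX_update (c : ℕ → ℝ) (i : ℕ) (y : ℝ) :
    (fun j => XX (Function.update c i y j)) = Function.update (fun j => XX (c j)) i (XX y) := by
  funext j
  by_cases hj : j = i
  · subst hj; rw [Function.update_self, Function.update_self]
  · rw [Function.update_of_ne hj, Function.update_of_ne hj]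

/-- the closed formula as trigonometric polynomial in `c i` -/
theorem Gd_TP {N m i : ℕ} (hi : i < N) (c x : ℕ → ℝ) :
    TP (2 * m) (fun y => Gd N m (fun j => XX (Function.update c i y j)) x) := by
  obtain ⟨Q, hQ, h⟩ := Gd_poly (m := m) hi (fun j => XX (c j)) x
  refine (tp_of_poly hQ).tb_congr (fun y => ?_)
  rw [XX_update, h]

theorem Gp_perm {m k : ℕ} {x : ℕ → ℝ} (hx : Gp (m + 1) x) (hk : k ≤ m) : Gp m (fun j => x (Equiv.swap k m j)) := by
  have hsm : ∀ j < m, Equiv.swap k m j < m + 1 := by
    intro j hj
    rw [Equiv.swap_apply_def]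
    split_ifs <;> omega
  refine ⟨fun j hj => hx.1 _ (hsm j hj), fun i hi j hj h => ?_⟩
  exact (Equiv.swap k m).injective (hx.2 _ (hsm i hi) _ (hsm j hj) h)

theorem Gp_perm' {m k : ℕ} {x : ℕ → ℝ} (hx : Gp (m + 1) x) (hk : k ≤ m) :
    Gp m (fun j => x (Equiv.swap 0 k (j + 1))) := by
  have hsm : ∀ j < m, Equiv.swap 0 k (j + 1) < m + 1 := by
    intro j hj
    rw [Equiv.swap_apply_def]
    split_ifs <;> omega
  refine ⟨fun j hj => hx.1 _ (hsm j hj), fun i hi j hj h => ?_⟩
  have := (Equiv.swap 0 k).injective (hx.2 _ (hsm i hi) _ (hsm j hj) h)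
  omega

theorem tot_fix {n : ℕ} : ∀ v ∈ Sup (W n), ∀ i, tot (E i v) = tot v := fun v _ i => tot_E i v

theorem prod_div_four {ι : Type*} (s : Finset ι) (g : ι → ℝ) :
    ∏ j ∈ s, (g j / 4) ^ 2 = (16 ^ s.card)⁻¹ * ∏ j ∈ s, g j ^ 2 := by
  rw [← Finset.prod_const, ← Finset.prod_inv_distrib, ← Finset.prod_mul_distrib]
  apply Finset.prod_congr rfl
  intro j _
  ring

theorem N1 (m : ℕ) {x : ℕ → ℝ} (hx : Gp m x) (c : ℕ → ℝ) :
    Z m (pb 0 m x c) = (4 ^ (m ^ 2))⁻¹ * Gd 1 m (fun j => XX (c j)) x := by
  induction m generalizing x c with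
  | zero =>
    rw [Gd_zero]
    unfold Z
    rw [V_zero]
    simp [tot]
  | succ m ih =>
    have key : ∀ y, Z (m + 1) (pb 0 (m + 1) x (Function.update c 0 y)) =
        (4 ^ ((m + 1) ^ 2))⁻¹ * Gd 1 (m + 1) (fun j => XX (Function.update c 0 y j)) x := by
      have hval : ∀ (p : Bool) (k : ℕ), k < m + 1 →
          Z (m + 1) (pb 0 (m + 1) x (Function.update c 0 (sg p (x k) + Real.pi / 3))) =
          (4 ^ ((m + 1) ^ 2))⁻¹ * Gd 1 (m + 1) (fun j => XX (Function.update c 0 (sg p (x k) + Real.pi / 3) j)) x := by
        intro p k hk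
        have hr := right_node (N := 1) (n := m) (l := 0) (k := k) (f := tot) (f' := tot) (by ring) (by omega)
          (by omega) (fun j _ v hv => tot_fix v hv _) (fun v _ => tot_In _ v) hx p
          (Function.update c 0 (sg p (x k) + Real.pi / 3)) (Function.update_self _ _ _)
        unfold Z at ih ⊢
        rw [hr, ih (Gp_perm hx (by omega))]
        rw [Gd_rec' (i := 0) (k := k) (by omega) (by omega) hx p (fun j => XX (Function.update c 0
          (sg p (x k) + Real.pi / 3) j)) (by rw [Function.update_self, XX_node])]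
        have e1 : (fun j => XX (Function.update (Function.update c 0 (sg p (x k) + Real.pi / 3)) 0
            (-sg p (x k)) j)) = Function.update (fun j => XX (Function.update c 0 (sg p (x k) + Real.pi / 3) j)) 0
            (XX (x k)) := by
          rw [XX_update, XX_neg, XX_sg]
        rw [e1, gd_enum (by omega), prod_div_four, Finset.card_erase_of_mem (mem_range.2 hk), card_range]
        simp only [Finset.range_one, Finset.erase_singleton, Finset.prod_empty, mul_one]
        have e2 : (4 : ℝ) ^ ((m + 1) ^ 2) = 4 ^ (m ^ 2) * (4 * 16 ^ m) := by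
          rw [show (16 : ℝ) = 4 ^ 2 by norm_num, ← pow_mul, ← pow_succ', ← pow_add]
          congr 1; ring
        rw [e2, show m + 1 - 1 = m by omega]
        field_simp
      have hFe : ∀ y, Z (m + 1) (pb 0 (m + 1) x (Function.update c 0 (-y))) =
          Z (m + 1) (pb 0 (m + 1) x (Function.update c 0 y)) := by
        intro y
        rw [pb_update_right (le_refl 0), pb_update_right (le_refl 0)]
        have h := Z_ng (n := m + 1) (i := 0 + 2 * (m + 1)) (by omega)
          (Function.update (pb 0 (m + 1) x c) (0 + 2 * (m + 1)) y)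
        rw [← h]
        unfold ng
        rw [Function.update_idem, Function.update_self]
      have hGe : ∀ y, (fun j => XX (Function.update c 0 (-y) j)) = fun j => XX (Function.update c 0 y j) := by
        intro y
        rw [XX_update, XX_update, XX_neg]
      have hTF : TP (2 * (m + 1)) (fun y => Z (m + 1) (pb 0 (m + 1) x (Function.update c 0 y))) := by
        have h := (Z_Sep (m + 1)).1 (pb 0 (m + 1) x c) (0 + 2 * (m + 1)) (by omega)
        refine h.tb_congr (fun y => ?_)
        rw [pb_update_right (le_refl 0)]
      have hTG : TP (2 * (m + 1)) (fun y => (4 ^ ((m + 1) ^ 2))⁻¹ *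
          Gd 1 (m + 1) (fun j => XX (Function.update c 0 y j)) x) := (Gd_TP (by omega) c x).smul _
      refine node_eq hTF hTG hx ∅ (by simp) (by simp) (by rw [Finset.card_empty]; omega) (fun k hk => ?_) (by simp)
      have h1 := hval true k hk
      have h2 := hval false k hk
      simp only [sg, if_true, Bool.false_eq_true, if_false] at h1 h2
      refine ⟨h1, h2, ?_, ?_⟩
      · rw [show x k - Real.pi / 3 = -(-x k + Real.pi / 3) by ring, hFe, hGe]
        exact h2
      · rw [show -x k - Real.pi / 3 = -(x k + Real.pi / 3) by ring, hFe, hGe]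
        exact h1
    have h := key (c 0)
    rwa [Function.update_eq_self] at h
end IPK
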