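import Pool.Agent.Helper78.K.Gd2
import Pool.Agent.Helper78.K.Pairs
import Pool.Agent.Helper78.K.RecP
import Pool.Agent.Helper78.K.Node
/-! MODULE K.NodeR: the recursion at the node of any pair, right and left version; two enumerations of the
remaining pairs. -/
namespace IPK
open IP Finset

/-- a permutation of `ℕ` from an injective self map of `range m` -/
theorem exists_perm {m : ℕ} (f : ℕ → ℕ) (h1 : ∀ j < m, f j < m) (h2 : ∀ i < m, ∀ j < m, f i = f j → i = j) :
    ∃ e : Equiv.Perm ℕ, (∀ j < m, e j = f j) ∧ ∀ j, m ≤ j → e j = j := by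
  classical
  have hsurj : ∀ y < m, ∃ j < m, f j = y := by
    intro y hy
    have hs : (range m).image f = range m := by
      apply Finset.eq_of_subset_of_card_le
      · intro z hz
        obtain ⟨j, hj, rfl⟩ := Finset.mem_image.1 hz
        exact mem_range.2 (h1 j (mem_range.1 hj))
      · rw [Finset.card_image_of_injOn]
        intro i hi j hj h
        exact h2 i (mem_range.1 hi) j (mem_range.1 hj) h
    have : y ∈ (range m).image f := by rw [hs]; exact mem_range.2 hy
    obtain ⟨j, hj, rfl⟩ := Finset.mem_image.1 this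
    exact ⟨j, mem_range.1 hj, rfl⟩
  have hb : Function.Bijective (fun j => if j < m then f j else j) := by
    constructor
    · intro i j h
      dsimp only at h
      split_ifs at h with a b b
      · exact h2 i a j b h
      · have := h1 i a; omega
      · have := h1 j b; omega
      · exact h
    · intro y
      by_cases hy : y < m
      · obtain ⟨j, hj, rfl⟩ := hsurj y hy
        exact ⟨j, by dsimp only; rw [if_pos hj]⟩
      · exact ⟨y, by dsimp only; rw [if_neg hy]⟩
  refine ⟨Equiv.ofBijective _ hb, fun j hj => ?_, fun j hj => ?_⟩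
  · rw [Equiv.ofBijective_apply, if_pos hj]
  · rw [Equiv.ofBijective_apply, if_neg (by omega)]

theorem nr_swap_m {m k j : ℕ} (hk : k ≤ m) (hj : j < m) : Equiv.swap k m j ≤ m ∧ Equiv.swap k m j ≠ k := by
  rw [Equiv.swap_apply_def]
  split_ifs <;> omega

theorem gd_enum {N m k : ℕ} (hk : k ≤ m) (t x : ℕ → ℝ) :
    Gd N m t (fun j => x (Equiv.swap k m j)) = Gd N m t (fun j => x (Equiv.swap 0 k (j + 1))) := by
  have h0 : ∀ j < m, Equiv.swap 0 k (Equiv.swap k m j) ≠ 0 := by
    intro j hj h
    have h2 := (nr_swap_m hk hj).2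
    apply h2
    have h3 := congrArg (Equiv.swap 0 k) h
    rwa [Equiv.swap_apply_self, Equiv.swap_apply_left] at h3
  have hle : ∀ j < m, Equiv.swap 0 k (Equiv.swap k m j) ≤ m := by
    intro j hj
    have h2 := (nr_swap_m hk hj).1
    rw [Equiv.swap_apply_def]
    split_ifs <;> omega
  obtain ⟨e, he1, he2⟩ := exists_perm (m := m) (fun j => Equiv.swap 0 k (Equiv.swap k m j) - 1)
    (fun j hj => by
      have := hle j hj
      have := h0 j hj
      omega)
    (fun i hi j hj h => by
      have a1 := h0 i hi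
      have a2 := h0 j hj
      have a3 : Equiv.swap 0 k (Equiv.swap k m i) = Equiv.swap 0 k (Equiv.swap k m j) := by omega
      exact (Equiv.swap k m).injective ((Equiv.swap 0 k).injective a3))
  rw [← Gd_perm N m e he2 t (fun j => x (Equiv.swap 0 k (j + 1)))]
  apply Gd_congr (fun _ _ => rfl)
  intro j hj
  rw [he1 j hj]
  have a1 := h0 j hj
  rw [Nat.sub_add_cancel (by omega), Equiv.swap_apply_self]

theorem prod_enum {m k : ℕ} (hk : k ≤ m) (g : ℕ → ℝ) :
    ∏ j ∈ range m, g (Equiv.swap k m j) = ∏ l ∈ (range (m + 1)).erase k, g l := by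
  apply Finset.prod_bij (fun j _ => Equiv.swap k m j)
  · intro j hj
    have := nr_swap_m hk (mem_range.1 hj)
    exact Finset.mem_erase.2 ⟨this.2, mem_range.2 (by omega)⟩
  · intro i _ j _ h
    exact (Equiv.swap k m).injective h
  · intro l hl
    obtain ⟨h1, h2⟩ := Finset.mem_erase.1 hl
    have h3 := mem_range.1 h2
    refine ⟨Equiv.swap k m l, mem_range.2 ?_, Equiv.swap_apply_self _ _ _⟩
    have h4 : Equiv.swap k m l ≠ m := by
      intro h
      have h5 := congrArg (Equiv.swap k m) h
      rw [Equiv.swap_apply_self, Equiv.swap_apply_right] at h5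
      exact h1 h5
    have h6 : Equiv.swap k m l ≤ m := by
      rw [Equiv.swap_apply_def]
      split_ifs <;> omega
    omega
  · intro j _
    rfl

theorem prod_enum' {m k : ℕ} (hk : k ≤ m) (g : ℕ → ℝ) :
    ∏ j ∈ range m, g (Equiv.swap 0 k (j + 1)) = ∏ l ∈ (range (m + 1)).erase k, g l := by
  apply Finset.prod_bij (fun j _ => Equiv.swap 0 k (j + 1))
  · intro j hj
    have hj' := mem_range.1 hj
    refine Finset.mem_erase.2 ⟨?_, mem_range.2 ?_⟩
    · intro h
      have h3 := congrArg (Equiv.swap 0 k) h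
      rw [Equiv.swap_apply_self, Equiv.swap_apply_right] at h3
      omega
    · rw [Equiv.swap_apply_def]
      split_ifs <;> omega
  · intro i _ j _ h
    have := (Equiv.swap 0 k).injective h
    omega
  · intro l hl
    obtain ⟨h1, h2⟩ := Finset.mem_erase.1 hl
    have h3 := mem_range.1 h2
    have h4 : Equiv.swap 0 k l ≠ 0 := by
      intro h
      have h5 := congrArg (Equiv.swap 0 k) h
      rw [Equiv.swap_apply_self, Equiv.swap_apply_left] at h5
      exact h1 h5
    have h6 : Equiv.swap 0 k l ≤ m := by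
      rw [Equiv.swap_apply_def]
      split_ifs <;> omega
    refine ⟨Equiv.swap 0 k l - 1, mem_range.2 (by omega), ?_⟩
    rw [Nat.sub_add_cancel (by omega), Equiv.swap_apply_self]
  · intro j _
    rfl

theorem XX_neg (x : ℝ) : XX (-x) = XX x := by
  unfold XX; rw [show 2 * -x = -(2 * x) by ring, Real.cos_neg]
theorem UU_neg (p : Bool) (x : ℝ) : UU p (-x) = UU (!p) x := by
  unfold UU
  cases p
  · simp only [Bool.false_eq_true, if_false, Bool.not_false, if_true]
    rw [show 2 * -x + -1 * (2 * Real.pi / 3) = -(2 * x + 1 * (2 * Real.pi / 3)) by ring, Real.cos_neg]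
  · simp only [Bool.false_eq_true, if_false, Bool.not_true, if_true]
    rw [show 2 * -x + 1 * (2 * Real.pi / 3) = -(2 * x + -1 * (2 * Real.pi / 3)) by ring, Real.cos_neg]

/-- `±x` -/
noncomputable def sg (p : Bool) (x : ℝ) : ℝ := if p then x else -x
theorem sg_abs (p : Bool) {x : ℝ} : |sg p x| = |x| := by
  unfold sg; cases p <;> simp
theorem XX_sg (p : Bool) (x : ℝ) : XX (sg p x) = XX x := by
  unfold sg
  cases p
  · simp only [Bool.false_eq_true, if_false]; exact XX_neg x
  · simp only [if_true]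
theorem UU_sg (p : Bool) (x : ℝ) : UU false (sg p x) = UU (!p) x := by
  unfold sg
  cases p
  · simp only [Bool.false_eq_true, if_false]; exact UU_neg false x
  · simp only [if_true, Bool.not_true]
/-- the node `±x + π/3` corresponds to the partner -/
theorem XX_node (p : Bool) (x : ℝ) : XX (sg p x + Real.pi / 3) = UU p x := by
  unfold sg XX UU
  cases p
  · simp only [Bool.false_eq_true, if_false]
    rw [show 2 * (-x + Real.pi / 3) = -(2 * x + -1 * (2 * Real.pi / 3)) by ring, Real.cos_neg]
  · simp only [if_true]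
    rw [show 2 * (x + Real.pi / 3) = 2 * x + 1 * (2 * Real.pi / 3) by ring]
theorem XX_node' (p : Bool) (x : ℝ) : XX (-sg p x - Real.pi / 3) = UU p x := by
  rw [← XX_node p x, ← XX_neg (sg p x + Real.pi / 3)]
  congr 1; ring

theorem nr_abs {m : ℕ} {x : ℕ → ℝ} (hx : Gp m x) {k : ℕ} (hk : k < m) : |x k| < Real.pi / 12 := by
  obtain ⟨h1, h2⟩ := hx.1 k hk
  rw [abs_of_pos h1]; exact h2

theorem right_node {n l m N k : ℕ} (hN : N + 2 * m = 2 * n + 1) (hl : l < N) (hk : k ≤ m) {f f' : M →ₗ[ℝ] ℝ}
    (hf : ∀ j < m + 1, ∀ v ∈ Sup (W (n + 1)), f (E (l + 2 * j) v) = f v)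
    (hIn : ∀ v ∈ Sup (W n), f (In (l + 2 * m + 1) v) = f' v) {x : ℕ → ℝ} (hx : Gp (m + 1) x) (p : Bool) (c : ℕ → ℝ)
    (hc : c l = sg p (x k) + Real.pi / 3) :
    f (V (n + 1) (pb l (m + 1) x c)) =
      ((XX (x k) - UU (!p) (x k)) / 4 * (∏ j ∈ (range N).erase l, ((XX (c j) - UU (!p) (x k)) / 4)) *
        ∏ j ∈ (range (m + 1)).erase k, ((XX (x j) - UU (!p) (x k)) / 4) ^ 2) *
      f' (V n (pb l m (fun j => x (Equiv.swap k m j)) (Function.update c l (-sg p (x k))))) := by
  have hb : ∀ j < m + 1, |x j| < Real.pi / 12 := fun j hj => nr_abs hx hj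
  have hsm : ∀ j < m + 1, Equiv.swap k m j < m + 1 := by
    intro j hj
    rw [Equiv.swap_apply_def]
    split_ifs <;> omega
  rw [← pb_perm (by omega) hf hb c k m (by omega) (by omega)]
  have e1 : f (V (n + 1) (pb l (m + 1) (fun j => x (Equiv.swap k m j)) c)) =
      f (V (n + 1) (pb l (m + 1) (Function.update (fun j => x (Equiv.swap k m j)) m (sg p (x k))) c)) := by
    cases p
    · have h := pb_neg (by omega) hf (x := fun j => x (Equiv.swap k m j)) (fun j hj => hb _ (hsm j hj)) c m (by omega)
      rw [← h]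
      simp only [Equiv.swap_apply_right, sg, Bool.false_eq_true, if_false]
    · have e2 : Function.update (fun j => x (Equiv.swap k m j)) m (sg true (x k)) = fun j => x (Equiv.swap k m j) := by
        simp only [sg, if_true]
        rw [Function.update_eq_self_iff]
        simp only [Equiv.swap_apply_right]
      rw [e2]
  rw [e1, rec_right hN hl hIn]
  · rw [Function.update_self, UU_sg, XX_sg]
    have e3 : ∏ j ∈ range m, ((XX (Function.update (fun j => x (Equiv.swap k m j)) m (sg p (x k)) j) -
        UU (!p) (x k)) / 4) ^ 2 = ∏ j ∈ (range (m + 1)).erase k, ((XX (x j) - UU (!p) (x k)) / 4) ^ 2 := by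
      rw [← prod_enum hk (fun j => ((XX (x j) - UU (!p) (x k)) / 4) ^ 2)]
      apply Finset.prod_congr rfl
      intro j hj
      rw [Function.update_of_ne (by have := mem_range.1 hj; omega)]
    rw [e3]
    congr 3
    funext j
    unfold pb
    split_ifs with a1 a2 a3
    · rfl
    · rw [Function.update_of_ne (by omega)]
    · rw [Function.update_of_ne (by omega)]
    · rfl
  · rw [Function.update_self]; exact hc

theorem left_node {n l m N k : ℕ} (hN : N + 2 * m = 2 * n + 1) (hl : l < N) (hk : k ≤ m) {f f' : M →ₗ[ℝ] ℝ}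
    (hf : ∀ j < m + 1, ∀ v ∈ Sup (W (n + 1)), f (E (l + 1 + 2 * j) v) = f v)
    (hIn : ∀ v ∈ Sup (W n), f (In l v) = f' v) {x : ℕ → ℝ} (hx : Gp (m + 1) x) (p : Bool) (c : ℕ → ℝ)
    (hc : c l = -sg p (x k) - Real.pi / 3) :
    f (V (n + 1) (pb (l + 1) (m + 1) x c)) =
      ((XX (x k) - UU (!p) (x k)) / 4 * (∏ j ∈ (range N).erase l, ((XX (c j) - UU (!p) (x k)) / 4)) *
        ∏ j ∈ (range (m + 1)).erase k, ((XX (x j) - UU (!p) (x k)) / 4) ^ 2) *
      f' (V n (pb (l + 1) m (fun j => x (Equiv.swap 0 k (j + 1))) (Function.update c l (sg p (x k))))) := by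
  have hb : ∀ j < m + 1, |x j| < Real.pi / 12 := fun j hj => nr_abs hx hj
  have hsm : ∀ j < m + 1, Equiv.swap 0 k j < m + 1 := by
    intro j hj
    rw [Equiv.swap_apply_def]
    split_ifs <;> omega
  rw [← pb_perm (by omega) hf hb c 0 k (by omega) (by omega)]
  have e1 : f (V (n + 1) (pb (l + 1) (m + 1) (fun j => x (Equiv.swap 0 k j)) c)) =
      f (V (n + 1) (pb (l + 1) (m + 1) (Function.update (fun j => x (Equiv.swap 0 k j)) 0 (sg p (x k))) c)) := by
    cases p
    · have h := pb_neg (by omega) hf (x := fun j => x (Equiv.swap 0 k j)) (fun j hj => hb _ (hsm j hj)) c 0 (by omega)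
      rw [← h]
      simp only [Equiv.swap_apply_left, sg, Bool.false_eq_true, if_false]
    · have e2 : Function.update (fun j => x (Equiv.swap 0 k j)) 0 (sg true (x k)) = fun j => x (Equiv.swap 0 k j) := by
        simp only [sg, if_true]
        rw [Function.update_eq_self_iff]
        simp only [Equiv.swap_apply_left]
      rw [e2]
  rw [e1, rec_left hN hl hIn]
  · rw [Function.update_self, UU_sg, XX_sg]
    have e3 : ∏ j ∈ range m, ((XX (Function.update (fun j => x (Equiv.swap 0 k j)) 0 (sg p (x k)) (j + 1)) -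
        UU (!p) (x k)) / 4) ^ 2 = ∏ j ∈ (range (m + 1)).erase k, ((XX (x j) - UU (!p) (x k)) / 4) ^ 2 := by
      rw [← prod_enum' hk (fun j => ((XX (x j) - UU (!p) (x k)) / 4) ^ 2)]
      apply Finset.prod_congr rfl
      intro j hj
      rw [Function.update_of_ne (by omega)]
    rw [e3]
    congr 3
  · rw [Function.update_self]; exact hc
end IPK
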