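import Pool.Agent.Helper78.K.Main
import Pool.Agent.Helper26.Perc.Strip

/-!
Critical bond percolation on the square lattice in half-infinite diagonal strips: exact connection
probabilities between the corners and the sides, and the constant of Cardy's formula.
-/

namespace IPK
open Finset Filter Topology H47Perc

/-- the part `x - y ≤ N` of the half-infinite diagonal strip `0 ≤ x + y ≤ L`, `x - y ≥ 1` -/
noncomputable def hs (L N : ℕ) : Finset (ℤ × ℤ) :=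
  (box (-(L + N)) (L + N) (-(L + N)) (L + N)).filter
    (fun z => 0 ≤ z.1 + z.2 ∧ z.1 + z.2 ≤ L ∧ 1 ≤ z.1 - z.2 ∧ z.1 - z.2 ≤ N)

/-- in the half-infinite strip of width `2n+1` the corner `(1,0)` is joined to the opposite side -/
noncomputable def cs (n : ℕ) : ℝ :=
  ⨆ N : ℕ, perc half (hs (2 * n + 1) N) (fun ω => ∃ z : ℤ × ℤ, z.1 + z.2 = 2 * n + 1 ∧ Joined ω (1, 0) z)

/-- in the half-infinite strip of width `2w` the two corners `(1,0)` and `(w,w-1)` are joined -/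
noncomputable def cc (w : ℕ) : ℝ :=
  ⨆ N : ℕ, perc half (hs (2 * w) N) (fun ω => Joined ω (1, 0) ((w : ℤ), (w : ℤ) - 1))

theorem mem_hs {L N : ℕ} {z : ℤ × ℤ} : z ∈ hs L N ↔
    0 ≤ z.1 + z.2 ∧ z.1 + z.2 ≤ L ∧ 1 ≤ z.1 - z.2 ∧ z.1 - z.2 ≤ N := by
  unfold hs
  rw [mem_filter, mem_box]
  constructor
  · exact fun h => h.2
  · intro h
    exact ⟨by omega, h⟩

theorem hs_mono (L : ℕ) {N N' : ℕ} (h : N ≤ N') : hs L N ⊆ hs L N' := by
  intro z hz
  rw [mem_hs] at hz ⊢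
  omega

theorem hs_odd (n N : ℕ) : hs (2 * n + 1) (2 * N + 1) = stripF n 1 (2 * N + 1) := by
  ext z
  rw [mem_hs, mem_stripF]
  push_cast
  rfl

theorem hs_even (w N : ℕ) : hs (2 * w) (2 * N + 1) = stripE w 1 (2 * N + 1) := by
  ext z
  rw [mem_hs, mem_stripE]
  push_cast
  rfl

/-- increasing events have larger probabilities in larger domains -/
theorem perc_up {S T : Finset (ℤ × ℤ)} (h : S ⊆ T) {A : Finset (Sym2 (ℤ × ℤ)) → Prop}
    (hA : ∀ ω ω', ω ⊆ ω' → A ω → A ω') : perc half S A ≤ perc half T A := by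
  rw [← perc_restrict h]
  exact perc_half_mono (fun ω _ hj => hA _ _ inter_subset_left hj)

theorem hs_tendsto (L : ℕ) {A : Finset (Sym2 (ℤ × ℤ)) → Prop} (hA : ∀ ω ω', ω ⊆ ω' → A ω → A ω') :
    Tendsto (fun N : ℕ => perc half (hs L N) A) atTop (𝓝 (⨆ N : ℕ, perc half (hs L N) A)) :=
  tendsto_atTop_ciSup (fun _ _ h => perc_up (hs_mono L h) hA)
    ⟨1, by rintro _ ⟨M, rfl⟩; exact perc_half_le_one _ _⟩

theorem odd_tendsto : Tendsto (fun N : ℕ => 2 * N + 1) atTop atTop :=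
  tendsto_atTop_mono (fun N => by show N ≤ 2 * N + 1; omega) tendsto_id

/-- in the limit -/
theorem cs_tendsto (n : ℕ) : Tendsto (fun N : ℕ => perc half (hs (2 * n + 1) N)
    (fun ω => ∃ z : ℤ × ℤ, z.1 + z.2 = 2 * n + 1 ∧ Joined ω (1, 0) z)) atTop (𝓝 (cs n)) :=
  hs_tendsto _ (fun ω ω' h => by rintro ⟨z, h1, h2⟩; exact ⟨z, h1, joined_mono h h2⟩)

theorem cc_tendsto (w : ℕ) : Tendsto (fun N : ℕ => perc half (hs (2 * w) N)
    (fun ω => Joined ω (1, 0) ((w : ℤ), (w : ℤ) - 1))) atTop (𝓝 (cc w)) :=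
  hs_tendsto _ (fun _ _ h h2 => joined_mono h h2)

theorem cs_eq (n : ℕ) : cs n = CardyK.dd n := by
  refine tendsto_nhds_unique ((cs_tendsto n).comp odd_tendsto) ?_
  refine (corner_side n).congr (fun N => ?_)
  show _ = perc half (hs (2 * n + 1) (2 * N + 1)) _
  rw [hs_odd]
  rfl

theorem cc_eq (m : ℕ) : cc (m + 1) = CardyK.xx m := by
  refine tendsto_nhds_unique ((cc_tendsto (m + 1)).comp odd_tendsto) ?_
  refine (corner_corner m).congr (fun N => ?_)
  show _ = perc half (hs (2 * (m + 1)) (2 * N + 1)) _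
  rw [hs_even]
  have e : (((m + 1 : ℕ) : ℤ) - 1) = (m : ℤ) := by push_cast; ring
  have e2 : ((m + 1 : ℕ) : ℤ) = (m : ℤ) + 1 := by push_cast; ring
  rw [e, e2]

theorem dd_prod (n : ℕ) : CardyK.dd n = ∏ k ∈ range n, (3 * (k : ℝ) + 5) * (2 * k + 1) / ((6 * k + 5) * (k + 2)) := by
  induction n with
  | zero => rfl
  | succ n ih => rw [prod_range_succ, ← ih]; rfl

theorem xx_prod (n : ℕ) : CardyK.xx n = ∏ k ∈ range n, (3 * (k : ℝ) + 7) * (2 * k + 1) / ((6 * k + 7) * (k + 3)) := by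
  induction n with
  | zero => rfl
  | succ n ih => rw [prod_range_succ, ← ih]; rfl

/-- **Result (K).** -/
theorem result :
    (∀ n : ℕ, cs n = ∏ k ∈ range n, (3 * (k : ℝ) + 5) * (2 * k + 1) / ((6 * k + 5) * (k + 2))) ∧
    (∀ m : ℕ, cc (m + 1) = ∏ k ∈ range m, (3 * (k : ℝ) + 7) * (2 * k + 1) / ((6 * k + 7) * (k + 3))) ∧
    Tendsto (fun n : ℕ => cc (n + 1) / cs n ^ 2) atTop
      (𝓝 (Real.Gamma (1 / 3) ^ 2 / (3 * Real.Gamma (2 / 3)))) := by
  refine ⟨fun n => by rw [cs_eq, dd_prod], fun m => by rw [cc_eq, xx_prod], ?_⟩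
  refine CardyK.ratio_tendsto.congr (fun n => ?_)
  rw [cs_eq, cc_eq]

end IPK
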